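import Pool.Agent.P.MP_26a8c3_nt.Inf.Sv3
import Pool.Agent.P.MP_26a8c3_nt.Primes

/-! The sieve inequality with the two systems of weights. -/

namespace Pool.Agent.P.MP_26a8c3_nt.Inf

open Finset Filter Topology MeasureTheory
open scoped ArithmeticFunction.Moebius FourierTransform ContDiff

lemma exists_bump : ∃ (g : ℝ → ℝ) (C : ℝ), Hyb.Good g C ∧ (∀ v, g v ≤ 1) ∧
    (∀ v, g v ≠ 0 → 0 < v ∧ v < 1) ∧ 19 / 20 ≤ ∫ v, g v ∧ ∫ v, g v ≤ 1 := by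
  let f : ContDiffBump (1 / 2 : ℝ) := ⟨19 / 40, 1 / 2, by norm_num, by norm_num⟩
  have h0 : 19 / 20 ≤ ∫ v, f v := by
    refine le_trans (le_of_eq ?_) (f.measure_closedBall_le_integral volume)
    rw [Real.volume_real_closedBall (by show 0 ≤ 19 / 40; positivity)]
    show _ = 2 * (19 / 40)
    norm_num
  have h1 : ∫ v, f v ≤ 1 := by
    refine (f.integral_le_measure_closedBall volume).trans (le_of_eq ?_)
    rw [Real.volume_real_closedBall (by show 0 ≤ 1 / 2; positivity)]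
    show 2 * (1 / 2) = _
    norm_num
  have h5 : ∀ v, f v ≠ 0 → 0 < v ∧ v < 1 := by
    intro v hv
    have : v ∈ Metric.ball (1 / 2 : ℝ) (1 / 2) := by
      have := f.support_eq
      exact this ▸ Function.mem_support.2 hv
    rw [Metric.mem_ball, Real.dist_eq, abs_lt] at this
    constructor <;> linarith [this.1, this.2]
  have h2 : ∀ v, f v ≠ 0 → -1 ≤ v ∧ v ≤ 2 := fun v hv => by
    constructor <;> linarith [(h5 v hv).1, (h5 v hv).2]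
  have h3 : HasCompactSupport fun v => ((f v : ℝ) : ℂ) :=
    Hyb.cpt_of h2 one_pos fun u hu => by simpa using hu
  have h4 : ContDiff ℝ ∞ fun v => ((f v : ℝ) : ℂ) := Complex.ofRealCLM.contDiff.comp f.contDiff
  obtain ⟨C, hC, hC2⟩ := (𝓕 (h3.toSchwartzMap h4)).decay 2 0
  refine ⟨f, C, ⟨f.contDiff, h2, fun v => f.nonneg, by linarith, hC, fun ξ hξ => ?_⟩,
    fun v => f.le_one, h5, h0, h1⟩
  have := hC2 ξ
  rw [norm_iteratedFDeriv_zero, Real.norm_eq_abs, sq_abs] at this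
  rw [le_div_iff₀ (by positivity), mul_comm, ← Hyb.fourier_eq_hat]
  exact this

/-- The odd integers of an interval. -/
def OO (a N : ℕ) : Finset ℕ := (Ioc a (a + N)).filter fun m => Nat.Coprime m 2

lemma cnt_nat {g : ℝ → ℝ} (hg : ∀ v, g v ≠ 0 → 0 < v ∧ v < 1) (a : ℕ) {N : ℕ} (hN : 0 < N)
    (D : ℕ) :
    Hyb.cnt g 2 1 a N D = ∑ n ∈ OO a N, g ((n - a) / N) * if D ∣ n then 1 else 0 := by
  have hN' : (0 : ℝ) < N := by exact_mod_cast hN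
  rw [Hyb.cnt, Hyb.win, sum_filter, OO, sum_filter,
    sum_reidx _ (Ioc a (a + N)) (e := fun n : ℕ => (n : ℤ)) Nat.cast_injective]
  · refine sum_congr rfl fun n _ => ?_
    simp only [Hyb.dv, Int.cast_natCast, ZMod.natCast_eq_one_iff_odd, Nat.coprime_two_right,
      Int.natCast_dvd_natCast]
  · intro p hp
    split_ifs at hp
    swap
    · exact absurd rfl hp
    obtain ⟨h2, h3⟩ := hg _ (left_ne_zero_of_mul hp)
    rw [div_pos_iff_of_pos_right hN', sub_pos] at h2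
    rw [div_lt_one hN', sub_lt_iff_lt_add'] at h3
    refine ⟨mem_Icc.2 ⟨Int.floor_le_iff.2 (by linarith), Int.le_ceil_iff.2 (by linarith)⟩,
      p.toNat, mem_Ioc.2 ?_, ?_⟩ <;>
    · have a1 : (a : ℤ) < p := by exact_mod_cast h2
      have a2 : p < a + N := by exact_mod_cast h3
      omega

lemma cnt_sharp (a N : ℕ) {D : ℕ} (hD : Odd D) :
    |(∑ n ∈ OO a N, 1 * if D ∣ n then (1 : ℝ) else 0) - N / 2 * (D : ℝ)⁻¹| ≤ 1 := by
  have h1 : Tab 2 (1 / 2) (1 / 2) := by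
    simpa using tab_of_chk (W := 2) (φ := 1) (H := 1) (by norm_num) (by decide)
  have h2 := h1.abs_le (by norm_num) (Nat.le_add_right a N) hD.pos
  simp only [one_mul]
  rw [sum_boole, OO, card_dvd_cop hD.pos (Nat.coprime_two_right.2 hD)]
  refine le_trans (le_of_eq ?_) (h2.trans (by norm_num))
  congr 1
  push_cast
  ring

lemma QF_est {Z : ℕ} {y y' w : ℕ → ℝ} {I : Finset ℕ} {m M s s' : ℝ} (hM : 0 ≤ M)
    (hy : ∀ n, y n ≠ 0 → n ∈ Ioc 0 Z) (hy' : ∀ n, y' n ≠ 0 → n ∈ Ioc 0 Z)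
    (h : ∀ d ∈ Ioc 0 Z, ∀ e ∈ Ioc 0 Z, lam Z y d ≠ 0 → lam Z y' e ≠ 0 →
      |(∑ n ∈ I, w n * if Nat.lcm d e ∣ n then 1 else 0) - m * (Nat.lcm d e : ℝ)⁻¹| ≤ M)
    (hs : ∑ d ∈ Ioc 0 Z, |lam Z y d| ≤ s) (hs' : ∑ d ∈ Ioc 0 Z, |lam Z y' d| ≤ s') :
    |∑ n ∈ I, w n * (aa Z (lam Z y) n * aa Z (lam Z y') n) -
      m * ∑ r ∈ Ioc 0 Z, r.totient * (y r * y' r)| ≤ s * s' * M := by
  rw [bil_sum, ← diag hy hy', QF_split (m := m) (r := fun D =>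
    (∑ n ∈ I, w n * if D ∣ n then 1 else 0) - m * (D : ℝ)⁻¹) fun _ _ _ _ _ _ => by ring,
    add_sub_cancel_left]
  exact QF_le hM h hs hs'

lemma sieve_ineq {g : ℝ → ℝ} {C : ℝ} (hg : Hyb.Good g C) (hg1 : ∀ v, g v ≤ 1)
    (hg2 : ∀ v, g v ≠ 0 → 0 < v ∧ v < 1) {η w z t : ℝ} {N : ℕ} (hη : 0 < η) (hw : 1 ≤ w)
    (hwz : w ≤ z) (e1 : η * z = w) (e2 : w * z = N) (a : ℕ) (ht : |t| ≤ 1)
    (ht2 : t * G0 ⌊w⌋₊ = ∑ r ∈ Ioc 0 ⌊z⌋₊, μ r * y2 η z r)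
    (h22 : |QF ⌊z⌋₊ (lam ⌊z⌋₊ (y2 η z)) (lam ⌊z⌋₊ (y2 η z)) (Hyb.rem g 2 1 a N)| ≤ N) :
    G0 ⌊w⌋₊ ^ 2 * cop (2 * ∏ p ∈ QQ 2 ⌊z⌋₊, p) a (a + N) ≤ N / 2 * (G0 ⌊w⌋₊ + (∫ v, g v) *
      ((9 / 16 * t ^ 2 - 3 / 2 * t) * G0 ⌊w⌋₊ +
        9 / 16 * ∑ r ∈ Ioc 0 ⌊z⌋₊, r.totient * (y2 η z r * y2 η z r))) +
      (Real.exp 8 ^ 2 * (1 + 24 * C) + 48 * Real.exp 8 * C + 1) * N := by
  have hC := hg.pos
  have hz : 0 < z := by linarith
  have hN : (0 : ℝ) < N := by rw [← e2]; positivity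
  have hN0 : 0 < N := by exact_mod_cast hN
  have hZ := Nat.floor_le_floor hwz
  have hE := Real.exp_pos 8
  have b1 : ∀ n, y1 ⌊w⌋₊ n ≠ 0 → n ∈ Ioc 0 ⌊z⌋₊ := fun n hn => Ioc_subset_Ioc_right hZ (y1_ne hn).1
  have b2 := y2_mem hη hz
  have b3 := (y1_l1 hZ).trans (mul_le_mul_of_nonneg_left (Nat.floor_le (by linarith)) hE.le)
  have b4 := y2_l1 hη hz
  have o1 : ∀ d, lam ⌊z⌋₊ (y1 ⌊w⌋₊) d ≠ 0 → Odd d := fun d => lam_odd fun r hr => (y1_ne hr).2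
  have o2 : ∀ d, lam ⌊z⌋₊ (y2 η z) d ≠ 0 → Odd d := fun d => lam_odd fun r hr => (y2_ne hη hz hr).1
  have hr : ∀ D : ℕ, (∑ n ∈ OO a N, g ((n - a) / N) * if D ∣ n then 1 else 0) -
      (∫ v, g v) * (N / 2) * (D : ℝ)⁻¹ = Hyb.rem g 2 1 a N D := fun D => by
    rw [Hyb.rem, cnt_nat hg2 a hN0, div_eq_mul_inv _ (D : ℝ), Nat.cast_ofNat]
  have hr2 : ∀ d e, e ∈ Ioc 0 ⌊z⌋₊ → lam ⌊z⌋₊ (y1 ⌊w⌋₊) d ≠ 0 → Odd e →
      |(∑ n ∈ OO a N, g ((n - a) / N) * if Nat.lcm d e ∣ n then 1 else 0) -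
      (∫ v, g v) * (N / 2) * (Nat.lcm d e : ℝ)⁻¹| ≤ 8 * C := by
    intro d e he hd ho
    have a1 := odd_lcm (o1 d hd) ho
    obtain ⟨m, hm, a2⟩ := lam_ne hd
    have a3 : d ∈ Ioc 0 ⌊w⌋₊ := mem_Ioc.2 ⟨(o1 d hd).pos,
      (Nat.le_mul_of_pos_right d hm).trans (mem_Ioc.1 (y1_ne a2).1).2⟩
    rw [hr]
    refine (Hyb.rem_triv hg 2 1 a hN a1.pos.ne' (Nat.coprime_two_right.2 a1)).trans ?_
    have a4 := (lcm_le a3 he).trans e2.le
    calc _ ≤ 4 * (C * N / (N / (2 : ℕ))) := by gcongr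
      _ = _ := by push_cast; field_simp; norm_num
  have c0 := QF_est zero_le_one b1 b1
    (fun d _ e _ hd he => cnt_sharp a N (odd_lcm (o1 d hd) (o1 e he))) b3 b3
  have c1 := QF_est (by positivity) b1 b1 (fun d _ e he hd h => hr2 d e he hd (o1 e h)) b3 b3
  have c2 := QF_est (by positivity) b1 b2 (fun d _ e he hd h => hr2 d e he hd (o2 e h)) b3 b4
  have c3 : |∑ n ∈ OO a N, g ((n - a) / N) * (aa ⌊z⌋₊ (lam ⌊z⌋₊ (y2 η z)) n *
      aa ⌊z⌋₊ (lam ⌊z⌋₊ (y2 η z)) n) - (∫ v, g v) * (N / 2) *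
      ∑ r ∈ Ioc 0 ⌊z⌋₊, r.totient * (y2 η z r * y2 η z r)| ≤ N := by
    rwa [bil_sum, ← diag b2 b2, QF_split (m := (∫ v, g v) * (N / 2)) (r := Hyb.rem g 2 1 a N)
      fun _ _ _ _ _ _ => by rw [← hr]; ring, add_sub_cancel_left]
  rw [y1_sq hZ] at c0 c1
  rw [sum_eq_zero (s := Ioc 0 ⌊z⌋₊) fun r _ => by
    by_contra h0
    have a1 := right_ne_zero_of_mul h0
    linarith [(mem_seg.1 (y1_ne (left_ne_zero_of_mul a1)).1).2,
      (y2_ne hη hz (right_ne_zero_of_mul a1)).2.1], mul_zero, sub_zero] at c2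
  set A1 := aa ⌊z⌋₊ (lam ⌊z⌋₊ (y1 ⌊w⌋₊)) with hA1
  set A2 := aa ⌊z⌋₊ (lam ⌊z⌋₊ (y2 η z)) with hA2
  have d1 : G0 ⌊w⌋₊ ^ 2 * cop (2 * ∏ p ∈ QQ 2 ⌊z⌋₊, p) a (a + N) ≤
      ∑ n ∈ OO a N, ((1 - g ((n - a) / N)) * A1 n ^ 2 +
        g ((n - a) / N) * (A1 n + 3 / 4 * (A2 n - t * A1 n)) ^ 2) := by
    refine le_trans (le_of_eq ?_) (sum_le_sum_of_subset_of_nonneg (s := (Ioc a (a + N)).filter
      fun m => Nat.Coprime m (2 * ∏ p ∈ QQ 2 ⌊z⌋₊, p)) (fun n hn => mem_filter.2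
        ⟨(mem_filter.1 hn).1, (mem_filter.1 hn).2.coprime_mul_right_right⟩) fun n _ _ =>
      add_nonneg (mul_nonneg (sub_nonneg.2 (hg1 _)) (sq_nonneg _))
        (mul_nonneg (hg.nonneg _) (sq_nonneg _)))
    rw [cop, mul_comm, ← nsmul_eq_mul, ← sum_const]
    refine sum_congr rfl fun n hn => ?_
    have a1 : ∀ p, p.Prime → p ≤ ⌊z⌋₊ → ¬ p ∣ n := by
      intro p hp h1 h2
      refine hp.one_lt.ne' (Nat.eq_one_of_dvd_coprimes (mem_filter.1 hn).2 h2 ?_)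
      by_cases c : p = 2
      · exact c ▸ dvd_mul_right _ _
      · exact (dvd_prod_of_mem _ (mem_filter.2 ⟨mem_Ioc.2 ⟨hp.pos, h1⟩, hp,
          Nat.coprime_two_right.2 (hp.odd_of_ne_two c)⟩)).mul_left _
    have a2 : 1 ≤ ⌊z⌋₊ := Nat.floor_pos.2 (hw.trans hwz)
    rw [hA1, hA2, aa_sifted a2 _ a1, aa_sifted a2 _ a1, y1_mu hZ, ← ht2]
    ring
  have d2 : ∑ n ∈ OO a N, ((1 - g ((n - a) / N)) * A1 n ^ 2 +
        g ((n - a) / N) * (A1 n + 3 / 4 * (A2 n - t * A1 n)) ^ 2) =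
      ∑ n ∈ OO a N, 1 * (A1 n * A1 n) +
      (9 / 16 * t ^ 2 - 3 / 2 * t) * ∑ n ∈ OO a N, g ((n - a) / N) * (A1 n * A1 n) +
      (3 / 2 - 9 / 8 * t) * ∑ n ∈ OO a N, g ((n - a) / N) * (A1 n * A2 n) +
      9 / 16 * ∑ n ∈ OO a N, g ((n - a) / N) * (A2 n * A2 n) := by
    simp only [mul_sum, ← sum_add_distrib]
    exact sum_congr rfl fun n _ => by ring
  obtain ⟨t1, t2⟩ := abs_le.1 ht
  have d3 : ∀ α x B : ℝ, |α| ≤ 3 → |x| ≤ B → α * x ≤ 3 * B := fun α x B h1 h2 =>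
    (le_abs_self _).trans ((abs_mul _ _).trans_le (mul_le_mul h1 h2 (abs_nonneg _) (by norm_num)))
  have d4 := d3 (9 / 16 * t ^ 2 - 3 / 2 * t) _ _ (abs_le.2 ⟨by nlinarith, by nlinarith⟩) c1
  have d5 := d3 (3 / 2 - 9 / 8 * t) _ _ (abs_le.2 ⟨by linarith, by linarith⟩) c2
  have d6 : w * w ≤ N := e2 ▸ mul_le_mul_of_nonneg_left hwz (by linarith)
  have d7 := mul_le_mul_of_nonneg_left d6 (show 0 ≤ Real.exp 8 ^ 2 * (1 + 24 * C) by positivity)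
  rw [d2] at d1
  have d8 := congrArg (48 * Real.exp 8 * C * ·) e2
  linarith [(abs_le.1 c0).2, (abs_le.1 c3).2]

lemma fin_num {G S N I t h n₂ K L l c : ℝ} (hS : 0 ≤ S) (hN : 0 ≤ N) (hK : 0 ≤ K)
    (hI : 19 / 20 ≤ I) (hI1 : I ≤ 1) (ht : t * G = h) (hth : t * h ≤ 1)
    (h1 : 3 / 4 * L - 31 / 10 ≤ h) (h2 : n₂ ≤ 2 + L) (hL : L = 8 * (|c| + 27 + 8 * K))
    (hG : l / 4 - L / 2 ≤ G) (hG0 : 0 < G) (hl : 0 < l + c)
    (H : G ^ 2 * S ≤ N / 2 * (G + I * ((9 / 16 * t ^ 2 - 3 / 2 * t) * G + 9 / 16 * n₂)) + K * N) :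
    S ≤ 2 * N / (l + c) := by
  have a0 := abs_nonneg c
  have a1 := le_abs_self c
  set Γ := 19 / 20 * (3 / 2 * h - 9 / 16 * n₂) - 1 - 2 * K with hΓ
  have a2 : I * ((9 / 16 * t ^ 2 - 3 / 2 * t) * G + 9 / 16 * n₂) ≤
      1 - 19 / 20 * (3 / 2 * h - 9 / 16 * n₂) := by
    rw [show (9 / 16 * t ^ 2 - 3 / 2 * t) * G = 9 / 16 * (t * h) - 3 / 2 * h by rw [← ht]; ring]
    nlinarith [mul_le_mul_of_nonneg_right hI (show 0 ≤ 3 / 2 * h - 9 / 16 * n₂ by linarith)]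
  have a3 : G ^ 2 * S ≤ N / 2 * (G - Γ) := by
    nlinarith [mul_le_mul_of_nonneg_left a2 hN]
  have a4 : l + c ≤ 4 * (G + Γ) := by linarith
  have a5 : G ^ 2 * (S * (4 * (G + Γ))) ≤ G ^ 2 * (2 * N) := by
    nlinarith [mul_le_mul_of_nonneg_right a3 (hl.le.trans a4), mul_nonneg hN (sq_nonneg Γ)]
  rw [le_div_iff₀ hl]
  exact (mul_le_mul_of_nonneg_left a4 hS).trans (le_of_mul_le_mul_left a5 (by positivity))

theorem sieve (c : ℝ) : ∃ A : ℝ, 1 ≤ A ∧ ∀ᶠ N : ℕ in atTop, ∀ a : ℕ,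
    (cop (2 * ∏ p ∈ QQ 2 ⌊A * √N⌋₊, p) a (a + N) : ℝ) ≤ 2 * N / (Real.log N + c) := by
  obtain ⟨g, C, hg, hg1, hg2, hI, hI1⟩ := exists_bump
  have hC := hg.pos
  set K := Real.exp 8 ^ 2 * (1 + 24 * C) + 48 * Real.exp 8 * C + 1 with hK
  have hK0 : 0 ≤ K := by positivity
  set L := 8 * (|c| + 27 + 8 * K) with hL
  have a0 := abs_nonneg c
  have hA : L + 1 ≤ Real.exp L := Real.add_one_le_exp L
  have hlog := Real.log_exp L
  generalize Real.exp L = A at hA hlog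
  have hA0 : 0 < A := by linarith
  have hη : 0 < (A ^ 2)⁻¹ := by positivity
  have hlη : Real.log (A ^ 2)⁻¹ = -(2 * L) := by rw [Real.log_inv, Real.log_pow, hlog]; norm_num
  have hη4 : 4 * (A ^ 2)⁻¹ ≤ 1 := by
    rw [← div_eq_mul_inv, div_le_one (by positivity)]
    nlinarith
  refine ⟨A, by linarith, ?_⟩
  filter_upwards [tendsto_natCast_atTop_atTop.eventually (R22 hg hη hA0),
    (Real.tendsto_sqrt_atTop.comp tendsto_natCast_atTop_atTop).eventually_ge_atTop A,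
    (Real.tendsto_log_atTop.comp tendsto_natCast_atTop_atTop).eventually_ge_atTop
      (4 * (L + 3) ^ 2 + 2 * L)] with N h22 hN1 hN2 a
  simp only [Function.comp] at hN1 hN2
  have hs : 0 < √(N : ℝ) := by linarith
  have hN := Real.sqrt_pos.1 hs
  have hw : 1 ≤ √(N : ℝ) / A := (one_le_div hA0).2 hN1
  have hz : 0 < A * √(N : ℝ) := by positivity
  have e1 : (A ^ 2)⁻¹ * (A * √(N : ℝ)) = √(N : ℝ) / A := by field_simp
  have hG : Real.log N / 4 - L / 2 ≤ G0 ⌊√(N : ℝ) / A⌋₊ := by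
    have b1 := HO_ge0 (zero_lt_one.trans_le hw)
    rw [HO_HH, Real.log_div hs.ne' hA0.ne', Real.log_sqrt hN.le, hlog] at b1
    linarith [G0_ge ⌊√(N : ℝ) / A⌋₊]
  have b2 := h1_ge hη hη4 (z := A * √(N : ℝ)) (by rw [mul_assoc, e1]; linarith)
  have b3 := h1_le hη (by linarith) hz
  have b4 := N2_le hη (by linarith) hz
  rw [Real.log_mul (by norm_num) hη.ne', hlη, show (4 : ℝ) = 2 ^ 2 by norm_num,
    Real.log_pow] at b2
  rw [hlη] at b3 b4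
  push_cast at b2
  have b5 := Real.log_two_lt_d9
  have b6 := fun t => sieve_ineq (t := t) hg hg1 hg2 hη hw
    ((div_le_self hs.le (by linarith)).trans (le_mul_of_one_le_left hs.le (by linarith))) e1
    (by rw [mul_comm, mul_div_assoc', mul_assoc, mul_div_cancel_left₀ _ hA0.ne',
      Real.mul_self_sqrt hN.le]) a
  generalize G0 ⌊√(N : ℝ) / A⌋₊ = G at *
  generalize ∑ r ∈ Ioc 0 ⌊A * √(N : ℝ)⌋₊, μ r * y2 (A ^ 2)⁻¹ (A * √(N : ℝ)) r = h at *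
  have b7 : (L + 3) ^ 2 ≤ G := by linarith
  have hG0 : 0 < G := lt_of_lt_of_le (by positivity) b7
  have b8 : 0 ≤ h := by linarith
  have b9 : h * h ≤ G := by nlinarith
  have c1 : h / G * G = h := div_mul_cancel₀ _ hG0.ne'
  refine fin_num (by positivity) hN.le hK0 hI hI1 c1 ?_ (by linarith)
    (by linarith) hL hG hG0 (by nlinarith [neg_abs_le c]) (b6 _ ?_ c1 (h22 a))
  · rwa [div_mul_eq_mul_div, div_le_one hG0]
  · rw [abs_of_nonneg (by positivity), div_le_one hG0]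
    nlinarith

lemma exists_fin {k : ℕ} (hk : 0 < k) (l : ℤ) (x y : ℝ) : ∃ (l' : ℕ) (A : Finset ℕ),
    Good k l' x y A ∧ {p : ℕ | p.Prime ∧ x - y < (p : ℝ) ∧ (p : ℝ) ≤ x ∧
      (p : ℤ) ≡ l [ZMOD (k : ℤ)]}.ncard = A.card := by
  classical
  have hk' : (0 : ℤ) < k := by exact_mod_cast hk
  refine ⟨(l % k).toNat, (range (⌊x⌋₊ + 1)).filter fun p => p.Prime ∧ x - y < (p : ℝ) ∧
    (p : ℝ) ≤ x ∧ (p : ℤ) ≡ l [ZMOD (k : ℤ)], fun p hp => ?_, ?_⟩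
  · obtain ⟨h1, h2, h3, h4⟩ := (mem_filter.1 hp).2
    refine ⟨h1, ?_, h2, h3⟩
    rw [← Int.natCast_modEq_iff, Int.toNat_of_nonneg (Int.emod_nonneg _ hk'.ne')]
    exact h4.trans (Int.mod_modEq _ _).symm
  · rw [← Set.ncard_coe_finset]
    congr 1
    ext p
    simp only [coe_filter, mem_range, Set.mem_ofPred_eq]
    exact ⟨fun h => ⟨Nat.lt_succ_of_le (Nat.le_floor h.2.2.1), h⟩, fun h => h.2⟩

lemma last_num (c : ℝ) {A : ℝ} (hA : 1 ≤ A) : ∀ᶠ Y : ℝ in atTop, 0 < Real.log Y + c ∧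
    ∀ N : ℝ, Y ≤ N → N ≤ Y + 1 →
      A * √N + 2 * N / (Real.log N + (c + 1)) < 2 * Y / (Real.log Y + c) := by
  filter_upwards [eventually_ge_atTop 1, Real.tendsto_log_atTop.eventually_ge_atTop (|c| + 1),
    (tendsto_rpow_atTop (show (0 : ℝ) < ((6 : ℕ) : ℝ)⁻¹ by norm_num)).eventually_ge_atTop
      (|c| + 1 + 100 * A)] with Y h1 h2 h3
  have h4 := Real.rpow_inv_natCast_pow (x := Y) (n := 6) (by linarith) (by norm_num)
  generalize Y ^ ((6 : ℕ) : ℝ)⁻¹ = s at h3 h4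
  have a0 := abs_nonneg c
  have a1 := le_abs_self c
  have a2 := neg_abs_le c
  have hs : 0 < s := by linarith
  have a3 : Real.log Y ≤ 6 * s := by
    rw [← h4, Real.log_pow]
    push_cast
    linarith [Real.log_le_sub_one_of_pos hs]
  refine ⟨by linarith, fun N b1 b2 => ?_⟩
  have b3 := Real.log_le_log (by linarith) b1
  have b4 : √N ≤ 2 * s ^ 3 := Real.sqrt_le_iff.2 ⟨by positivity, by nlinarith⟩
  have b5 : 2 * N / (Real.log N + (c + 1)) ≤ 2 * (Y + 1) / (Real.log Y + c + 1) :=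
    div_le_div₀ (by linarith) (by linarith) (by linarith) (by linarith)
  generalize Real.log Y = l at *
  have b6 : 1 ≤ l + c := by linarith
  have b7 : l + c + 1 ≤ 7 * s := by linarith
  generalize l + c = Λ at *
  have b8 : Λ * (Λ + 1) ≤ 49 * s ^ 2 := by nlinarith
  have b9 : 1 ≤ s ^ 3 := one_le_pow₀ (by linarith)
  have c1 : 2 * (Y + 1) / (Λ + 1) = 2 * Y / Λ - (2 * Y - 2 * Λ) / (Λ * (Λ + 1)) := by
    field_simp
    ring
  have c2 : A * (2 * s ^ 3) < (2 * Y - 2 * Λ) / (Λ * (Λ + 1)) := by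
    rw [lt_div_iff₀ (by positivity), ← h4]
    have c3 : s ≤ s ^ 5 := le_self_pow₀ (by linarith) (by norm_num)
    have c4 := mul_le_mul_of_nonneg_left b8 (show 0 ≤ A * (2 * s ^ 3) by positivity)
    have c5 := mul_le_mul_of_nonneg_right (show 100 * A ≤ s by linarith) (pow_pos hs 5).le
    have c6 := mul_le_mul_of_nonneg_right hA (pow_pos hs 5).le
    nlinarith
  nlinarith [mul_le_mul_of_nonneg_left b4 (zero_le_one.trans hA)]

theorem main (c : ℝ) : ∃ t₀ : ℝ, ∀ k : ℕ, ∀ l : ℤ, ∀ x y : ℝ, 1 ≤ k → t₀ ≤ y / (k : ℝ) →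
    0 < Real.log (y / (k : ℝ)) + c ∧
    (({p : ℕ | p.Prime ∧ x - y < (p : ℝ) ∧ (p : ℝ) ≤ x ∧
        (p : ℤ) ≡ l [ZMOD (k : ℤ)]}.ncard : ℕ) : ℝ) <
      2 * y / ((Nat.totient k : ℝ) * (Real.log (y / (k : ℝ)) + c)) := by
  obtain ⟨A, hA, h1⟩ := sieve (c + 1)
  have h2 : Tendsto (fun Y : ℝ => ⌊Y⌋₊ + 1) atTop atTop :=
    (tendsto_add_atTop_nat 1).comp tendsto_nat_floor_atTop
  have h3 : ∀ᶠ N : ℕ in atTop, 2 ≤ A * √N :=
    ((Real.tendsto_sqrt_atTop.const_mul_atTop (zero_lt_one.trans_le hA)).comp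
      tendsto_natCast_atTop_atTop).eventually_ge_atTop 2
  obtain ⟨t₀, ht⟩ := eventually_atTop.1 (((h2.eventually (h1.and h3)).and (last_num c hA)).and
    (eventually_gt_atTop 0))
  refine ⟨t₀, fun k l x y hk hy => ?_⟩
  obtain ⟨⟨⟨a1, a2⟩, a3, a4⟩, a5⟩ := ht _ hy
  refine ⟨a3, ?_⟩
  obtain ⟨l', S, hS, hcard⟩ := exists_fin (k := k) hk l x y
  have hk' : (0 : ℝ) < k := by exact_mod_cast hk
  have hφ : (0 : ℝ) < k.totient := by exact_mod_cast Nat.totient_pos.2 hk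
  have b1 : y / k ≤ (⌊y / k⌋₊ + 1 : ℕ) := by
    push_cast
    exact (Nat.lt_floor_add_one _).le
  have b2 : ((⌊y / k⌋₊ + 1 : ℕ) : ℝ) ≤ y / k + 1 := by
    push_cast
    linarith [Nat.floor_le a5.le]
  have b3 := gen_bound hS hk (squarefree_sift Nat.squarefree_two _) (sift_primes _ fun p _ hd =>
    (Nat.le_of_dvd two_pos hd).trans (Nat.le_floor (by exact_mod_cast a2)))
    (fun a b hab h => le_trans (Nat.cast_le.2 (card_le_card (filter_subset_filter _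
      (Ioc_subset_Ioc_right (show b ≤ a + (⌊y / k⌋₊ + 1) from ?_))))) (a1 a))
    ((Nat.cast_nonneg _).trans (a1 0))
  · rw [hcard, mul_comm (k.totient : ℝ), ← div_div, lt_div_iff₀ hφ]
    refine b3.trans_lt ((mul_lt_mul_of_pos_left ((add_le_add_left (card_seg (by linarith))
      _).trans_lt (a4 _ b1 b2)) hk').trans_le (le_of_eq ?_))
    field_simp
  · have c1 : (b : ℝ) < (a + (⌊y / k⌋₊ + 1) + 1 : ℕ) := by
      push_cast at b1 ⊢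
      linarith
    exact Nat.lt_succ_iff.1 (Nat.cast_lt.1 c1)

end Pool.Agent.P.MP_26a8c3_nt.Inf
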