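import Pool.Agent.P.MP_26a8c3_nt.Inf.Tv3
import Pool.Agent.P.MP_26a8c3_nt.Hyb4

/-! Primes in the unit class, the Turan-Kubilius inequality and the sign flip. -/

namespace Pool.Agent.P.MP_26a8c3_nt.Inf

open Finset Filter Topology Real
open ArithmeticFunction ArithmeticFunction.vonMangoldt
open Hyb (ee ee_add norm_ee)

lemma not_summable_class (q : ℕ) [NeZero q] :
    ¬ Summable fun n : ℕ => if n.Prime ∧ (n : ZMod q) = 1 then (n : ℝ)⁻¹ else 0 := by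
  intro hs
  obtain ⟨C, hC⟩ := LSeries_residueClass_lower_bound (a := (1 : ZMod q)) isUnit_one
  have h0 : Tendsto (fun x : ℝ => x - 1) (𝓝[>] 1) (𝓝 0) := by
    have : Tendsto (fun x : ℝ => x - 1) (𝓝 1) (𝓝 (1 - 1)) := tendsto_id.sub_const 1
    rw [sub_self] at this
    exact this.mono_left nhdsWithin_le_nhds
  have h1 := tendsto_tsum_of_dominated_convergence (𝓕 := 𝓝[>] (1 : ℝ))
    (f := fun x n => (x - 1) * (residueClass (1 : ZMod q) n / (n : ℝ) ^ x)) (g := fun _ => 0)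
    (hs.add (summable_residueClass_non_primes_div (1 : ZMod q))) (fun n => ?_) ?_
  · simp only [tsum_mul_left, tsum_zero] at h1
    have h2 := h1.add (h0.const_mul C)
    have h3 : (q.totient : ℝ)⁻¹ ≤ 0 + C * 0 := by
      refine ge_of_tendsto h2 ?_
      filter_upwards [Ioc_mem_nhdsGT (one_lt_two (α := ℝ))] with x hx
      have a1 := mul_le_mul_of_nonneg_left (hC hx) (sub_pos.2 hx.1).le
      rw [mul_sub, mul_div_cancel₀ _ (sub_pos.2 hx.1).ne'] at a1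
      linarith
    have h4 : (0 : ℝ) < (q.totient : ℝ)⁻¹ := inv_pos.2 (by exact_mod_cast Nat.totient_pos.2 (NeZero.pos q))
    linarith
  · rcases n.eq_zero_or_pos with rfl | hn
    · simp
    have a1 : Tendsto (fun x : ℝ => residueClass (1 : ZMod q) n / (n : ℝ) ^ x) (𝓝[>] 1)
        (𝓝 (residueClass (1 : ZMod q) n / (n : ℝ) ^ (1 : ℝ))) := by
      have hn' : (0 : ℝ) < n := by exact_mod_cast hn
      refine Tendsto.mono_left (ContinuousAt.tendsto ?_) nhdsWithin_le_nhds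
      exact continuousAt_const.div (Real.continuousAt_const_rpow hn'.ne') (by positivity)
    simpa using h0.mul a1
  · filter_upwards [Ioc_mem_nhdsGT (one_lt_two (α := ℝ))] with x hx n
    have hr := residueClass_nonneg (1 : ZMod q) n
    have hx1 : 0 < x - 1 := sub_pos.2 hx.1
    rw [Real.norm_of_nonneg (by positivity)]
    rcases n.eq_zero_or_pos with rfl | hn
    · simp
    have hn' : (1 : ℝ) ≤ n := by exact_mod_cast hn
    by_cases hp : n.Prime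
    · simp only [hp, true_and, if_true, zero_div, add_zero, residueClass, Set.indicator,
        Set.mem_ofPred_eq]
      split_ifs
      · rw [vonMangoldt_apply_prime hp, ← mul_div_assoc, div_le_iff₀ (by positivity),
          ← Real.rpow_neg_one, ← Real.rpow_add (by positivity), Real.rpow_def_of_pos (by positivity)]
        linarith [Real.add_one_le_exp (Real.log n * (-1 + x))]
      · simp
    · simp only [hp, false_and, if_false, zero_add]
      refine (mul_le_of_le_one_left (by positivity) (by linarith [hx.2])).trans ?_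
      refine div_le_div_of_nonneg_left hr (by positivity) ?_
      simpa using Real.rpow_le_rpow_of_exponent_le hn' hx.1.le

lemma exists_primes {M : ℕ} (hM : M ≠ 0) (L : ℝ) : ∃ P : Finset ℕ,
    (∀ g ∈ P, g.Prime ∧ g ≠ 2 ∧ g ≡ 1 [MOD M]) ∧ L ≤ ∑ g ∈ P, (g : ℝ)⁻¹ := by
  have : NeZero (2 * M) := ⟨by omega⟩
  have h1 := (not_summable_iff_tendsto_nat_atTop_of_nonneg fun n => by positivity).1
    (not_summable_class (2 * M))
  obtain ⟨N, hN⟩ := (h1.eventually_ge_atTop L).exists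
  rw [← sum_filter] at hN
  refine ⟨_, fun g hg => ?_, hN⟩
  obtain ⟨a1, a2⟩ := (mem_filter.1 hg).2
  have a3 : g ≡ 1 [MOD 2 * M] := (ZMod.natCast_eq_natCast_iff _ _ _).1 (by simpa using a2)
  refine ⟨a1, ?_, a3.of_mul_left 2⟩
  rintro rfl
  exact absurd (a3.of_mul_right M) (by decide)

lemma turan_kubilius {P : Finset ℕ} (hP : ∀ g ∈ P, g.Prime) {δ x : ℝ} (hδ : 0 < δ)
    (hL : (δ ^ 2)⁻¹ ≤ ∑ g ∈ P, (g : ℝ)⁻¹) (hx : 2 * (P.card : ℝ) ≤ x) :
    ∑ d ∈ Ioc 0 ⌊x⌋₊, |1 - (∑ g ∈ P, (g : ℝ)⁻¹)⁻¹ * ∑ g ∈ P, if g ∣ d then (1 : ℝ) else 0| ≤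
      3 * δ * x := by
  set L := ∑ g ∈ P, (g : ℝ)⁻¹ with hLd
  have hL0 : 0 < L := lt_of_lt_of_le (by positivity) hL
  have hx0 : 0 ≤ x := le_trans (by positivity) hx
  set D := ⌊x⌋₊ with hD
  have hDx : (D : ℝ) ≤ x := Nat.floor_le hx0
  set w : ℕ → ℝ := fun d => ∑ g ∈ P, if g ∣ d then (1 : ℝ) else 0 with hw
  have hup : ∀ q : ℕ, ∑ d ∈ Ioc 0 D, (if q ∣ d then (1 : ℝ) else 0) ≤ D / q := fun q => by
    simpa using seg_dvd (x := D) (by positivity) q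
  have h1 : D * L - P.card ≤ ∑ d ∈ Ioc 0 D, w d := by
    simp only [hw]
    rw [sum_comm, hLd, mul_sum, card_eq_sum_ones, Nat.cast_sum, ← sum_sub_distrib]
    refine sum_le_sum fun g hg => ?_
    have hg0 : (0 : ℝ) < g := by exact_mod_cast (hP g hg).pos
    rw [sum_boole, Nat.Ioc_filter_dvd_card_eq_div, sub_le_iff_le_add, ← div_eq_mul_inv,
      div_le_iff₀ hg0]
    exact_mod_cast (Nat.lt_div_mul_add (hP g hg).pos).le.trans (le_of_eq (by ring))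
  have h2 : ∑ d ∈ Ioc 0 D, w d ^ 2 ≤ D * L ^ 2 + D * L := by
    simp only [hw, sq, sum_mul_sum]
    rw [sum_comm, hLd, sum_mul_sum, mul_sum, mul_sum, ← sum_add_distrib]
    refine sum_le_sum fun g hg => ?_
    rw [sum_comm, mul_sum, ← add_sum_erase _ _ hg, ← add_sum_erase _ _ hg]
    have a1 : ∑ d ∈ Ioc 0 D, (if g ∣ d then (1 : ℝ) else 0) * (if g ∣ d then (1 : ℝ) else 0) ≤
        D * (g : ℝ)⁻¹ := by
      refine le_trans (le_of_eq (sum_congr rfl fun d _ => ?_)) (hup g)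
      split_ifs <;> simp
    have a2 : ∑ g' ∈ P.erase g, ∑ d ∈ Ioc 0 D,
        (if g ∣ d then (1 : ℝ) else 0) * (if g' ∣ d then (1 : ℝ) else 0) ≤
        ∑ g' ∈ P.erase g, D * ((g : ℝ)⁻¹ * (g' : ℝ)⁻¹) := by
      refine sum_le_sum fun g' hg' => ?_
      have hc : Nat.Coprime g g' := (Nat.coprime_primes (hP g hg)
        (hP g' (mem_of_mem_erase hg'))).2 (ne_of_mem_erase hg').symm
      refine le_trans (le_of_eq (sum_congr rfl fun d _ => ?_)) ((hup (g * g')).trans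
        (le_of_eq (by push_cast; ring)))
      by_cases a : g ∣ d <;> by_cases b : g' ∣ d
      · simp [a, b, hc.mul_dvd_of_dvd_of_dvd a b]
      · simp [b, mt (dvd_trans (dvd_mul_left g' g)) b]
      · simp [a, mt (dvd_trans (dvd_mul_right g g')) a]
      · simp [a, mt (dvd_trans (dvd_mul_right g g')) a]
    have a3 : 0 ≤ (D : ℝ) * ((g : ℝ)⁻¹ * (g : ℝ)⁻¹) := by positivity
    linarith
  have h3 : ∀ d, |1 - L⁻¹ * w d| ≤ δ + (δ * L ^ 2)⁻¹ * (L ^ 2 - 2 * L * w d + w d ^ 2) := by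
    intro d
    have e : (δ * L ^ 2)⁻¹ * (L ^ 2 - 2 * L * w d + w d ^ 2) = δ⁻¹ * |1 - L⁻¹ * w d| ^ 2 := by
      rw [sq_abs]
      field_simp
      ring
    rw [e]
    set t := |1 - L⁻¹ * w d|
    have a1 : δ⁻¹ * (t - δ) ^ 2 = δ⁻¹ * t ^ 2 - 2 * t + δ := by field_simp; ring
    nlinarith [mul_nonneg (inv_pos.2 hδ).le (sq_nonneg (t - δ)), abs_nonneg (1 - L⁻¹ * w d)]
  refine (sum_le_sum fun d _ => h3 d).trans ?_
  rw [sum_add_distrib, ← mul_sum, sum_add_distrib, sum_sub_distrib, ← mul_sum]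
  simp only [sum_const, Nat.card_Ioc, tsub_zero, nsmul_eq_mul]
  have h4 : (D : ℝ) * L ^ 2 - 2 * L * ∑ d ∈ Ioc 0 D, w d + ∑ d ∈ Ioc 0 D, w d ^ 2 ≤
      2 * x * L := by nlinarith
  have h5 : (δ * L ^ 2)⁻¹ * (2 * x * L) ≤ 2 * δ * x := by
    rw [inv_mul_le_iff₀ (by positivity)]
    rw [inv_le_iff_one_le_mul₀ (by positivity)] at hL
    nlinarith [mul_nonneg hx0 hL0.le]
  nlinarith [mul_le_mul_of_nonneg_left h4 (inv_pos.2 (mul_pos hδ (pow_pos hL0 2))).le]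

/-- Completely multiplicative functions equal to minus one at the odd primes. -/
structure Mf (f : ℕ → ℝ) : Prop where
  mul : ∀ a b, f (a * b) = f a * f b
  bd : ∀ n, |f n| ≤ 1
  zero : f 0 = 0
  prime : ∀ p : ℕ, p.Prime → p ≠ 2 → f p = -1

/-- The twist by a reciprocal phase. -/
noncomputable def FX (f : ℕ → ℝ) (X : ℝ) (n : ℕ) : ℂ := f n * ee (X / n)

lemma Mf.norm_FX {f : ℕ → ℝ} (hf : Mf f) (X : ℝ) (n : ℕ) : ‖FX f X n‖ ≤ 1 := by
  rw [FX, norm_mul, norm_ee, mul_one, Complex.norm_real]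
  exact hf.bd n

lemma Mf.FX_zero {f : ℕ → ℝ} (hf : Mf f) (X : ℝ) : FX f X 0 = 0 := by simp [FX, hf.zero]

/-- The general term of `BB`. -/
noncomputable def tm (k : ℕ) (G : ℕ → ℂ) (H : ℝ → ℝ → ℂ) (Z : ℝ) (p : ℕ × ℕ) : ℂ :=
  if p.1 ≡ p.2 [MOD k] then G (p.1 * p.2) * H (p.1 / Z) (p.2 / Z) else 0

lemma tm_supp {k : ℕ} {G : ℕ → ℂ} {H : ℝ → ℝ → ℂ} {a b : ℝ} (h : Adm H a b) {Z : ℝ} (hZ : 0 < Z)
    {p : ℕ × ℕ} (hp : tm k G H Z p ≠ 0) : p ∈ box (b * Z) (b * Z) := by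
  unfold tm at hp
  split_ifs at hp
  swap
  · exact absurd rfl hp
  obtain ⟨⟨a1, a2⟩, a3, a4⟩ := h.supp _ _ (right_ne_zero_of_mul hp)
  have a5 := (div_pos_iff_of_pos_right hZ).1 (h.a0.trans_le a1)
  have a6 := (div_pos_iff_of_pos_right hZ).1 (h.a0.trans_le a3)
  exact mem_box.2 ⟨⟨by exact_mod_cast a5, (div_le_iff₀ hZ).1 a2⟩, by exact_mod_cast a6,
    (div_le_iff₀ hZ).1 a4⟩

lemma BB_eq {k : ℕ} {G : ℕ → ℂ} {H : ℝ → ℝ → ℂ} {a b : ℝ} (h : Adm H a b) {Z : ℝ} (hZ : 0 < Z) :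
    BB k G H Z = ((Z : ℂ) ^ 2)⁻¹ * ∑ p ∈ box (b * Z) (b * Z), tm k G H Z p := by
  rw [BB, ← tsum_eq_sum (L := SummationFilter.unconditional _) fun p hp => ?_]
  · rfl
  · by_contra h0
    exact hp (tm_supp h hZ h0)

lemma norm_tm {k : ℕ} {G : ℕ → ℂ} (hG : ∀ n, ‖G n‖ ≤ 1) {H : ℝ → ℝ → ℂ} {M : ℝ}
    (hM : ∀ s t, ‖H s t‖ ≤ M) (Z : ℝ) (p : ℕ × ℕ) : ‖tm k G H Z p‖ ≤ M := by
  unfold tm
  split_ifs
  · rw [norm_mul]
    exact (mul_le_of_le_one_left (norm_nonneg _) (hG _)).trans (hM _ _)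
  · rw [norm_zero]
    exact (norm_nonneg _).trans (hM 0 0)

lemma flip_one {f : ℕ → ℝ} (hf : Mf f) {k g : ℕ} (hg : g.Prime ∧ g ≠ 2 ∧ g ≡ 1 [MOD k])
    {H : ℝ → ℝ → ℂ} {a b : ℝ} (h : Adm H a b) {Z : ℝ} (hZ : 0 < Z) (X : ℝ) :
    ((Z : ℂ) ^ 2)⁻¹ * ∑ p ∈ box (b * Z) (b * Z), (if g ∣ p.1 then tm k (FX f X) H Z p else 0) =
      -((g : ℂ)⁻¹ * BB k (FX f (X / g)) (fun s t => H (√g * s) (t / √g)) (Z / √g)) := by
  have hg0 : (0 : ℝ) < g := by exact_mod_cast hg.1.pos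
  have hs : 0 < √g := Real.sqrt_pos.2 hg0
  have hs2 : √g * √g = g := Real.mul_self_sqrt hg0.le
  rw [← tsum_eq_sum (L := SummationFilter.unconditional _) fun p hp => ?_,
    ← Function.Injective.tsum_eq (g := fun q : ℕ × ℕ => (g * q.1, q.2)), BB, ← mul_assoc,
    ← mul_neg, ← tsum_neg]
  · congr 1
    · have : ((√g : ℝ) : ℂ) ^ 2 = g := by
        rw [← Complex.ofReal_pow, Real.sq_sqrt hg0.le, Complex.ofReal_natCast]
      have a1 : (g : ℂ) ≠ 0 := by exact_mod_cast hg.1.ne_zero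
      push_cast
      rw [div_pow, this]
      field_simp
    · refine tsum_congr fun q => ?_
      have e1 : g * q.1 ≡ q.2 [MOD k] ↔ q.1 ≡ q.2 [MOD k] := by
        have := hg.2.2.mul_right q.1
        rw [one_mul] at this
        exact ⟨fun h => this.symm.trans h, fun h => this.trans h⟩
      simp only [dvd_mul_right, if_true, tm, e1]
      split_ifs
      · rw [FX, FX, mul_assoc g, hf.mul g, hf.prime g hg.1 hg.2.1]
        have e2 : √g * (q.1 / (Z / √g)) = (g * q.1 : ℕ) / Z := by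
          push_cast
          field_simp
          rw [Real.sq_sqrt hg0.le, mul_comm]
        have e3 : q.2 / (Z / √g) / √g = q.2 / Z := by field_simp
        rw [e2, e3, div_div]
        push_cast
        ring
      · simp
  · intro q q' hq
    simp only [Prod.mk.injEq] at hq
    exact Prod.ext (Nat.eq_of_mul_eq_mul_left hg.1.pos hq.1) hq.2
  · intro p hp
    have : g ∣ p.1 := by
      by_contra hc
      exact hp (if_neg hc)
    exact ⟨(p.1 / g, p.2), Prod.ext (Nat.mul_div_cancel' this) rfl⟩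
  · split_ifs
    · by_contra h0
      exact hp (tm_supp h hZ h0)
    · rfl

lemma sum_box_fst (F : ℕ → ℝ) (x y : ℝ) :
    ∑ p ∈ box x y, F p.1 = (Ioc 0 ⌊y⌋₊).card * ∑ d ∈ Ioc 0 ⌊x⌋₊, F d := by
  rw [box, sum_product]
  simp only [sum_const, nsmul_eq_mul]
  rw [← mul_sum]

theorem flip {f : ℕ → ℝ} (hf : Mf f) {k : ℕ} (hk : 1 ≤ k) {P : Finset ℕ}
    (hP : ∀ g ∈ P, g.Prime ∧ g ≠ 2 ∧ g ≡ 1 [MOD k]) {δ : ℝ} (hδ : 0 < δ)
    (hL : (δ ^ 2)⁻¹ ≤ ∑ g ∈ P, (g : ℝ)⁻¹) {H : ℝ → ℝ → ℂ} {a b M : ℝ} (h : Adm H a b)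
    (hb : 0 < b) (hM : ∀ s t, ‖H s t‖ ≤ M) : ∀ᶠ Z : ℝ in atTop, ∀ X : ℝ,
      ‖BB k (FX f X) H Z + ((∑ g ∈ P, (g : ℝ)⁻¹)⁻¹ : ℝ) *
        ∑ g ∈ P, (g : ℂ)⁻¹ * BB k (FX f (X / g)) H (Z / √g)‖ ≤ 3 * δ * M * b ^ 2 + δ := by
  have h1 : ∀ᶠ Z : ℝ in atTop, ∀ g ∈ P, ∀ G : ℕ → ℂ, (∀ n, ‖G n‖ ≤ 1) → G 0 = 0 →
      ‖BB k G (fun s t => H (√g * s) (t / √g)) (Z / √g) - BB k G H (Z / √g)‖ ≤ δ := by
    refine (eventually_all_finset P).2 fun g hg => ?_
    have hs : 0 < √g := Real.sqrt_pos.2 (by exact_mod_cast (hP g hg).1.pos)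
    exact (tendsto_id.atTop_div_const hs).eventually (tvp hk h hs hδ)
  filter_upwards [h1, eventually_gt_atTop 0,
    (tendsto_id.const_mul_atTop hb).eventually_ge_atTop (2 * (P.card : ℝ))] with Z h1 hZ hx X
  set L := ∑ g ∈ P, (g : ℝ)⁻¹ with hLd
  have hL0 : 0 < L := lt_of_lt_of_le (by positivity) hL
  have hM0 : 0 ≤ M := (norm_nonneg _).trans (hM 0 0)
  have e1 : BB k (FX f X) H Z + (L⁻¹ : ℝ) * ∑ g ∈ P, (g : ℂ)⁻¹ * BB k (FX f (X / g)) H (Z / √g) =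
      ((Z : ℂ) ^ 2)⁻¹ * ∑ p ∈ box (b * Z) (b * Z),
        ((1 - L⁻¹ * ∑ g ∈ P, if g ∣ p.1 then (1 : ℝ) else 0 : ℝ) : ℂ) * tm k (FX f X) H Z p -
      (L⁻¹ : ℝ) * ∑ g ∈ P, (g : ℂ)⁻¹ *
        (BB k (FX f (X / g)) (fun s t => H (√g * s) (t / √g)) (Z / √g) -
          BB k (FX f (X / g)) H (Z / √g)) := by
    have a1 : ∑ g ∈ P, (g : ℂ)⁻¹ * BB k (FX f (X / g)) (fun s t => H (√g * s) (t / √g)) (Z / √g) =
        -(((Z : ℂ) ^ 2)⁻¹ * ∑ p ∈ box (b * Z) (b * Z),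
          ((∑ g ∈ P, if g ∣ p.1 then (1 : ℝ) else 0 : ℝ) : ℂ) * tm k (FX f X) H Z p) := by
      simp only [Complex.ofReal_sum, sum_mul]
      rw [sum_comm, mul_sum, ← sum_neg_distrib]
      refine sum_congr rfl fun g hg => ?_
      rw [← neg_eq_iff_eq_neg, ← flip_one hf (hP g hg) h hZ]
      congr 1
      refine sum_congr rfl fun p _ => ?_
      split_ifs <;> simp
    simp only [mul_sub, sum_sub_distrib, a1, BB_eq h hZ, Complex.ofReal_sub, Complex.ofReal_mul,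
      sub_mul, Complex.ofReal_one, one_mul, mul_assoc, ← mul_sum]
    ring
  rw [e1]
  refine (norm_sub_le _ _).trans (add_le_add ?_ ?_)
  · rw [norm_mul, norm_inv, norm_pow, Complex.norm_real, Real.norm_of_nonneg hZ.le,
      inv_mul_le_iff₀ (by positivity)]
    refine (norm_sum_le _ _).trans ((sum_le_sum fun p _ => (norm_mul_le _ _).trans
      (mul_le_mul_of_nonneg_left (norm_tm (hf.norm_FX X) hM Z p) (norm_nonneg _))).trans ?_)
    simp only [Complex.norm_real, Real.norm_eq_abs]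
    rw [← sum_mul, sum_box_fst fun d => |1 - L⁻¹ * ∑ g ∈ P, if g ∣ d then (1 : ℝ) else 0|]
    have a1 := turan_kubilius (fun g hg => (hP g hg).1) hδ hL hx
    have a2 := card_seg (x := b * Z) (by positivity)
    refine (mul_le_mul_of_nonneg_right (mul_le_mul a2 a1 (sum_nonneg fun _ _ => abs_nonneg _)
      (by positivity)) hM0).trans (le_of_eq ?_)
    simp only [id]
    ring
  · rw [norm_mul, Complex.norm_real, Real.norm_of_nonneg (inv_pos.2 hL0).le,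
      inv_mul_le_iff₀ hL0, hLd, sum_mul]
    refine (norm_sum_le _ _).trans (sum_le_sum fun g hg => ?_)
    rw [norm_mul, norm_inv, Complex.norm_natCast]
    exact mul_le_mul_of_nonneg_left (h1 g hg _ (hf.norm_FX _) (hf.FX_zero _)) (by positivity)

end Pool.Agent.P.MP_26a8c3_nt.Inf
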