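import Pool.Agent.P.MP_26a8c3_nt.Inf.Co1

/-! Cancellation in the bilinear sum with a reciprocal phase, uniformly in the numerator. -/

namespace Pool.Agent.P.MP_26a8c3_nt.Inf

open Finset Filter Topology Real
open scoped ComplexConjugate
open Hyb (ee ee_add norm_ee)

lemma conj_ee (x : ℝ) : conj (ee x) = ee (-x) := by
  unfold ee
  rw [← Complex.exp_conj]
  simp [map_ofNat]

/-- The unbalanced general term. -/
noncomputable def vv (f : ℕ → ℝ) (H : ℝ → ℝ → ℂ) (N : ℕ) (ζ X : ℝ) (d e : ℕ) : ℂ :=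
  f d * ee (X / (d * e)) * H (d / (√N * ζ)) (√N * e / ζ)

/-- The window of the differenced sum. -/
noncomputable def HK (H : ℝ → ℝ → ℂ) (N k : ℕ) (s s' : ℝ) : ℂ :=
  H s (N * (s' - s) / k) * conj (H s' (N * (s' - s) / k))

/-- The off-diagonal part of the Gram form. -/
noncomputable def Off (f : ℕ → ℝ) (H : ℝ → ℝ → ℂ) (N : ℕ) (ζ X : ℝ) : ℝ :=
  ∑ i ∈ range N, ∑ i' ∈ range N, if i = i' then 0 else
    (BB (Nat.dist i i') (FX f (Nat.dist i i' * X)) (HK H N (Nat.dist i i')) (√N * ζ)).re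

lemma Adm.HK {H : ℝ → ℝ → ℂ} {a b : ℝ} (h : Adm H a b) (N k : ℕ) : Adm (HK H N k) a b := by
  refine ⟨h.a0, ?_, fun s t h0 => ⟨(h.supp _ _ (left_ne_zero_of_mul h0)).1,
    (h.supp _ _ ((map_ne_zero _).1 (right_ne_zero_of_mul h0))).1⟩⟩
  exact (h.cont.comp (f := fun p : ℝ × ℝ => (p.1, N * (p.2 - p.1) / k)) (by fun_prop)).mul
    (Complex.continuous_conj.comp
      (h.cont.comp (f := fun p : ℝ × ℝ => (p.2, N * (p.2 - p.1) / k)) (by fun_prop)))

lemma norm_HK {H : ℝ → ℝ → ℂ} {M : ℝ} (hM : ∀ s t, ‖H s t‖ ≤ M) (N k : ℕ) (s t : ℝ) :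
    ‖HK H N k s t‖ ≤ M ^ 2 := by
  rw [HK, norm_mul, Complex.norm_conj, sq]
  exact mul_le_mul (hM _ _) (hM _ _) (norm_nonneg _) ((norm_nonneg _).trans (hM 0 0))

lemma vv_supp {f : ℕ → ℝ} {H : ℝ → ℝ → ℂ} {a b : ℝ} (h : Adm H a b) {N : ℕ} (hN : 0 < N)
    {ζ X : ℝ} (hζ : 0 < ζ) {d e : ℕ} (h0 : vv f H N ζ X d e ≠ 0) :
    (d, e) ∈ box (b * (√N * ζ)) (b * ζ / √N) := by
  have hS : 0 < √N := Real.sqrt_pos.2 (by exact_mod_cast hN)
  obtain ⟨⟨a1, a2⟩, a3, a4⟩ := h.supp _ _ (right_ne_zero_of_mul h0)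
  have a5 := (div_pos_iff_of_pos_right (mul_pos hS hζ)).1 (h.a0.trans_le a1)
  have a6 := (mul_pos_iff_of_pos_left hS).1
    ((div_pos_iff_of_pos_right hζ).1 (h.a0.trans_le a3))
  exact mem_box.2 ⟨⟨by exact_mod_cast a5, (div_le_iff₀ (mul_pos hS hζ)).1 a2⟩,
    by exact_mod_cast a6, (le_div_iff₀' hS).2 ((div_le_iff₀ hζ).1 a4)⟩

lemma norm_vv {f : ℕ → ℝ} (hf : Mf f) {H : ℝ → ℝ → ℂ} {M : ℝ} (hM : ∀ s t, ‖H s t‖ ≤ M) (N : ℕ)
    (ζ X : ℝ) (d e : ℕ) : ‖vv f H N ζ X d e‖ ≤ M := by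
  rw [vv, norm_mul, norm_mul, norm_ee, mul_one, Complex.norm_real]
  exact (mul_le_of_le_one_left (norm_nonneg _) (hf.bd d)).trans (hM _ _)

lemma shift_sum {f : ℕ → ℝ} {H : ℝ → ℝ → ℂ} {a b : ℝ} (h : Adm H a b) {N : ℕ}
    {ζ X : ℝ} (hζ : 0 < ζ) {i : ℕ} (hi : i < N) (F : ℕ × ℕ → ℂ) :
    ∑ p ∈ box (2 * (b * (√N * ζ))) (b * ζ / √N), F p * vv f H N ζ X (p.1 - i * p.2) p.2 =
      ∑ q ∈ box (b * (√N * ζ)) (b * ζ / √N), F (q.1 + i * q.2, q.2) * vv f H N ζ X q.1 q.2 := by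
  have hN : 0 < N := by omega
  have hS : 0 < √N := Real.sqrt_pos.2 (by exact_mod_cast hN)
  rw [sum_reidx _ (box (b * (√N * ζ)) (b * ζ / √N)) (e := fun q => (q.1 + i * q.2, q.2))]
  · simp only [Nat.add_sub_cancel]
  · intro q q' hq
    simp only [Prod.mk.injEq] at hq
    obtain ⟨a1, a2⟩ := hq
    rw [a2] at a1
    exact Prod.ext (by omega) a2
  · intro p hp
    have a1 := vv_supp h hN hζ (right_ne_zero_of_mul hp)
    obtain ⟨⟨a2, a3⟩, a4, a5⟩ := mem_box.1 a1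
    simp only at a2 a3 a4 a5
    have a6 : p.1 - i * p.2 + i * p.2 = p.1 := by omega
    refine ⟨mem_box.2 ⟨⟨by omega, ?_⟩, a4, a5⟩, _, a1, Prod.ext a6 rfl⟩
    rw [← a6]
    push_cast
    have a7 : (i : ℝ) ≤ √N * √N := by
      rw [Real.mul_self_sqrt (by positivity)]
      exact_mod_cast hi.le
    have a8 : (i : ℝ) * p.2 ≤ √N * √N * (b * ζ / √N) := by gcongr
    have a9 : √N * √N * (b * ζ / √N) = b * (√N * ζ) := by field_simp
    linarith

lemma corr_eq {f : ℕ → ℝ} (hf : Mf f) {H : ℝ → ℝ → ℂ} {a b : ℝ} (h : Adm H a b) {N : ℕ}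
    (hN : 0 < N) {ζ X : ℝ} (hζ : 0 < ζ) {k : ℕ} (hk : 0 < k) :
    ∑ q ∈ box (b * (√N * ζ)) (b * ζ / √N),
      conj (vv f H N ζ X (q.1 + k * q.2) q.2) * vv f H N ζ X q.1 q.2 =
      ((N * ζ ^ 2 : ℝ) : ℂ) * BB k (FX f (k * X)) (HK H N k) (√N * ζ) := by
  have hN' : (0 : ℝ) < N := by exact_mod_cast hN
  have hk' : (0 : ℝ) < k := by exact_mod_cast hk
  have hS : 0 < √N := Real.sqrt_pos.2 hN'
  have hS2 : √N ^ 2 = (N : ℝ) := Real.sq_sqrt hN'.le
  have e0 : ∀ d e : ℕ, N * ((d + k * e : ℕ) / (√N * ζ) - d / (√N * ζ)) / k = √N * e / ζ := by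
    intro d e
    push_cast
    field_simp
    rw [hS2]
    ring
  rw [BB_eq (h.HK N k) (mul_pos hS hζ), ← Complex.ofReal_pow, mul_pow, hS2,
    mul_inv_cancel_left₀ (by exact_mod_cast (mul_pos hN' (pow_pos hζ 2)).ne'),
    sum_reidx (box (b * (√N * ζ)) (b * (√N * ζ))) (box (b * (√N * ζ)) (b * ζ / √N))
      (e := fun q => (q.1, q.1 + k * q.2))]
  · refine sum_congr rfl fun q hq => ?_
    obtain ⟨⟨a1, -⟩, a2, -⟩ := mem_box.1 hq
    have a1' : (0 : ℝ) < q.1 := by exact_mod_cast a1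
    have a2' : (0 : ℝ) < q.2 := by exact_mod_cast a2
    have e1 : ee (k * X / (q.1 * (q.1 + k * q.2) : ℕ)) =
        ee (-(X / ((q.1 + k * q.2 : ℕ) * q.2))) * ee (X / (q.1 * q.2)) := by
      rw [← ee_add]
      congr 1
      push_cast
      field_simp
      ring
    have e2 : q.1 ≡ q.1 + k * q.2 [MOD k] := by simp [Nat.ModEq]
    simp only [tm, e2, if_true, vv, HK, FX, e0, map_mul, conj_ee, Complex.conj_ofReal, hf.mul, e1,
      Complex.ofReal_mul]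
    ring
  · intro q q' hq
    simp only [Prod.mk.injEq] at hq
    obtain ⟨a1, a2⟩ := hq
    rw [a1] at a2
    exact Prod.ext a1 (Nat.eq_of_mul_eq_mul_left hk (by omega))
  · intro p hp
    have a1 := tm_supp (h.HK N k) (mul_pos hS hζ) hp
    refine ⟨a1, ?_⟩
    unfold tm at hp
    split_ifs at hp with hc
    swap
    · exact absurd rfl hp
    obtain ⟨-, a3, a4⟩ := h.supp _ _ (left_ne_zero_of_mul (right_ne_zero_of_mul hp))
    have a5 : p.1 < p.2 := by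
      have b1 := (mul_pos_iff_of_pos_left hN').1
        ((div_pos_iff_of_pos_right hk').1 (h.a0.trans_le a3))
      rw [sub_pos, div_lt_div_iff_of_pos_right (mul_pos hS hζ)] at b1
      exact_mod_cast b1
    obtain ⟨e, he⟩ := (Nat.modEq_iff_dvd' a5.le).1 hc
    have a6 : p.2 = p.1 + k * e := by omega
    rw [a6, e0] at a4
    refine ⟨(p.1, e), mem_box.2 ⟨(mem_box.1 a1).1, Nat.pos_of_ne_zero ?_,
      (le_div_iff₀' hS).2 ((div_le_iff₀ hζ).1 a4)⟩, Prod.ext rfl a6.symm⟩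
    rintro rfl
    omega

lemma gram {f : ℕ → ℝ} (hf : Mf f) {H : ℝ → ℝ → ℂ} {a b M : ℝ} (h : Adm H a b) (hb : 0 < b)
    (hM : ∀ s t, ‖H s t‖ ≤ M) {N : ℕ} (hN : 0 < N) {ζ : ℝ} (hζ : 0 < ζ) (X : ℝ) :
    0 ≤ M ^ 2 * b ^ 2 + Off f H N ζ X ∧
    N * ‖BB 1 (FX f X) (fun s t => H ((√N)⁻¹ * s) (t / (√N)⁻¹)) ζ‖ ^ 2 ≤
      2 * b ^ 2 * (M ^ 2 * b ^ 2 + Off f H N ζ X) := by
  have hN' : (0 : ℝ) < N := by exact_mod_cast hN
  have hS : 0 < √N := Real.sqrt_pos.2 hN'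
  have hM0 : 0 ≤ M := (norm_nonneg _).trans (hM 0 0)
  set v := vv f H N ζ X with hv
  set B₁ := box (2 * (b * (√N * ζ))) (b * ζ / √N) with hB₁
  set B₀ := box (b * (√N * ζ)) (b * ζ / √N) with hB₀
  set w : ℕ × ℕ → ℂ := fun p => ∑ i ∈ range N, v (p.1 - i * p.2) p.2 with hw
  set T : ℕ → ℕ → ℂ := fun i i' =>
    ∑ p ∈ B₁, conj (v (p.1 - i * p.2) p.2) * v (p.1 - i' * p.2) p.2 with hT
  have h1 : ∑ p ∈ B₁, ‖w p‖ ^ 2 = ∑ i ∈ range N, ∑ i' ∈ range N, (T i i').re := by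
    simp only [hT, Complex.re_sum]
    rw [sum_congr rfl fun i _ => sum_comm, sum_comm]
    refine sum_congr rfl fun p _ => ?_
    simp only [← Complex.re_sum, ← sum_mul_sum]
    rw [← map_sum, Complex.conj_mul', ← Complex.ofReal_pow, Complex.ofReal_re]
  have h2 : ∀ i i', (T i i').re = (T i' i).re := by
    intro i i'
    rw [← Complex.conj_re]
    simp only [hT, map_sum, map_mul, Complex.conj_conj, mul_comm]
  have h3 : ∀ i k, i + k < N → T i (i + k) =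
      ∑ q ∈ B₀, conj (v (q.1 + k * q.2) q.2) * v q.1 q.2 := by
    intro i k hik
    rw [hT]
    simp only
    rw [shift_sum h hζ hik fun p => conj (v (p.1 - i * p.2) p.2)]
    refine sum_congr rfl fun q _ => ?_
    rw [add_mul, show q.1 + (i * q.2 + k * q.2) - i * q.2 = q.1 + k * q.2 by omega]
  have h4 : ∀ i ∈ range N, ∀ i' ∈ range N, (T i i').re ≤ (if i = i' then M ^ 2 * b ^ 2 * ζ ^ 2
      else 0) + N * ζ ^ 2 * (if i = i' then 0 else (BB (Nat.dist i i') (FX f (Nat.dist i i' * X))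
        (HK H N (Nat.dist i i')) (√N * ζ)).re) := by
    intro i hi i' hi'
    rw [mem_range] at hi hi'
    rcases lt_trichotomy i i' with c | c | c
    · obtain ⟨k, rfl⟩ := Nat.exists_eq_add_of_le c.le
      rw [if_neg c.ne, if_neg c.ne, h3 i k hi', corr_eq hf h hN hζ (by omega),
        Complex.re_ofReal_mul, Nat.dist_eq_sub_of_le c.le, Nat.add_sub_cancel_left, zero_add]
    · subst c
      rw [if_pos rfl, if_pos rfl, mul_zero, add_zero]
      have a1 := h3 i 0 hi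
      rw [add_zero] at a1
      rw [a1]
      refine (Complex.re_le_norm _).trans ((norm_sum_box (M := M ^ 2) (by positivity)
        (by positivity) (by positivity) fun q _ => ?_).trans (le_of_eq (by field_simp)))
      rw [norm_mul, Complex.norm_conj, sq]
      exact mul_le_mul (norm_vv hf hM _ _ _ _ _) (norm_vv hf hM _ _ _ _ _) (norm_nonneg _) hM0
    · obtain ⟨k, rfl⟩ := Nat.exists_eq_add_of_le c.le
      rw [if_neg c.ne', if_neg c.ne', h2, h3 i' k hi, corr_eq hf h hN hζ (by omega),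
        Complex.re_ofReal_mul, Nat.dist_comm, Nat.dist_eq_sub_of_le c.le, Nat.add_sub_cancel_left,
        zero_add]
  have h5 : ∑ p ∈ B₁, ‖w p‖ ^ 2 ≤ N * ζ ^ 2 * (M ^ 2 * b ^ 2 + Off f H N ζ X) := by
    rw [h1]
    refine (sum_le_sum fun i hi => sum_le_sum fun i' hi' => h4 i hi i' hi').trans (le_of_eq ?_)
    simp only [sum_add_distrib, ← mul_sum, sum_ite_eq]
    rw [sum_congr rfl fun i hi => if_pos hi, sum_const, card_range, nsmul_eq_mul, Off]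
    ring
  have h6 : ((N * ζ ^ 2 : ℝ) : ℂ) * BB 1 (FX f X) (fun s t => H ((√N)⁻¹ * s) (t / (√N)⁻¹)) ζ =
      ∑ p ∈ B₁, f p.2 * w p := by
    simp only [hw, mul_sum]
    rw [sum_comm, sum_congr rfl fun i hi => shift_sum h hζ (mem_range.1 hi) fun p => (f p.2 : ℂ)]
    dsimp only
    rw [sum_const, card_range, nsmul_eq_mul, BB,
      ← tsum_eq_sum (L := SummationFilter.unconditional _) fun p hp => ?_]
    · have a1 : (ζ : ℂ) ≠ 0 := by exact_mod_cast hζ.ne'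
      push_cast
      rw [mul_assoc, ← mul_assoc (_ ^ 2), mul_inv_cancel₀ (pow_ne_zero 2 a1), one_mul]
      congr 1
      refine tsum_congr fun p => ?_
      rw [if_pos Nat.modEq_one, FX, vv, hf.mul, show (√N)⁻¹ * (p.1 / ζ) = p.1 / (√N * ζ) by
        field_simp, show p.2 / ζ / (√N)⁻¹ = √N * p.2 / ζ by field_simp]
      push_cast
      ring
    · by_contra h0
      exact hp (vv_supp h hN hζ (right_ne_zero_of_mul h0))
  have h7 : ‖∑ p ∈ B₁, f p.2 * w p‖ ^ 2 ≤ 2 * b ^ 2 * ζ ^ 2 * ∑ p ∈ B₁, ‖w p‖ ^ 2 := by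
    have a1 : ‖∑ p ∈ B₁, f p.2 * w p‖ ≤ ∑ p ∈ B₁, ‖w p‖ :=
      (norm_sum_le _ _).trans (sum_le_sum fun p _ => by
        rw [norm_mul, Complex.norm_real]
        exact mul_le_of_le_one_left (norm_nonneg _) (hf.bd _))
    refine (pow_le_pow_left₀ (norm_nonneg _) a1 2).trans (sq_sum_le_card_mul_sum_sq.trans ?_)
    refine mul_le_mul_of_nonneg_right ((card_box (by positivity) (by positivity)).trans
      (le_of_eq (by field_simp))) (sum_nonneg fun _ _ => by positivity)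
  have h8 : 0 < N * ζ ^ 2 := by positivity
  refine ⟨nonneg_of_mul_nonneg_right ((sum_nonneg fun _ _ => by positivity).trans h5) h8, ?_⟩
  rw [← h6, norm_mul, Complex.norm_real, Real.norm_of_nonneg h8.le] at h7
  have h9 := h7.trans (mul_le_mul_of_nonneg_left h5 (by positivity))
  refine le_of_mul_le_mul_left (le_trans (le_of_eq ?_) (h9.trans (le_of_eq ?_)))
    (show 0 < N * ζ ^ 4 by positivity) <;> ring

theorem core {f : ℕ → ℝ} (hf : Mf f) {H : ℝ → ℝ → ℂ} {a b : ℝ} (h : Adm H a b) (hb : 0 < b)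
    {ε : ℝ} (hε : 0 < ε) : ∀ᶠ z : ℝ in atTop, ∀ X : ℝ, ‖BB 1 (FX f X) H z‖ ≤ ε := by
  obtain ⟨M, hM0, hM⟩ := h.bdd
  obtain ⟨N, hN⟩ := exists_nat_gt (2 * b ^ 2 * (2 * (M ^ 2 * b ^ 2) + 1) / (ε / 2) ^ 2)
  have hN' : (0 : ℝ) < N := lt_of_le_of_lt (by positivity) hN
  have hN0 : 0 < N := by exact_mod_cast hN'
  have hS : 0 < √N := Real.sqrt_pos.2 hN'
  set δ := (N ^ 2 * (3 * M ^ 2 * b ^ 2 + 1))⁻¹ with hδ
  have hδ0 : 0 < δ := by positivity
  obtain ⟨P, hP, hL⟩ := exists_primes (Nat.factorial_ne_zero N) (δ ^ 2)⁻¹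
  have h1 : ∀ᶠ z : ℝ in atTop, ∀ k ∈ Icc 1 N, ∀ X : ℝ,
      ‖BB k (FX f X) (HK H N k) (√N * z) + ((∑ g ∈ P, (g : ℝ)⁻¹)⁻¹ : ℝ) *
        ∑ g ∈ P, (g : ℂ)⁻¹ * BB k (FX f (X / g)) (HK H N k) (√N * z / √g)‖ ≤
        3 * δ * M ^ 2 * b ^ 2 + δ := by
    refine (eventually_all_finset _).2 fun k hk => ?_
    obtain ⟨a1, a2⟩ := mem_Icc.1 hk
    exact (tendsto_id.const_mul_atTop hS).eventually (flip hf a1 (fun g hg => ⟨(hP g hg).1,
      (hP g hg).2.1, (hP g hg).2.2.of_dvd (Nat.dvd_factorial a1 a2)⟩) hδ0 hL (h.HK N k) hb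
      (norm_HK hM N k))
  filter_upwards [h1, tvp le_rfl h (inv_pos.2 hS) (half_pos hε), eventually_gt_atTop 0]
    with z h1 h2 hz X
  set L := ∑ g ∈ P, (g : ℝ)⁻¹ with hLd
  have hL0 : 0 < L := lt_of_lt_of_le (by positivity) hL
  have h3 : Off f H N z X + L⁻¹ * ∑ g ∈ P, (g : ℝ)⁻¹ * Off f H N (z / √g) (X / g) ≤ 1 := by
    have a1 : Off f H N z X + L⁻¹ * ∑ g ∈ P, (g : ℝ)⁻¹ * Off f H N (z / √g) (X / g) =
        ∑ i ∈ range N, ∑ i' ∈ range N, if i = i' then 0 else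
          (BB (Nat.dist i i') (FX f (Nat.dist i i' * X)) (HK H N (Nat.dist i i')) (√N * z) +
          (L⁻¹ : ℝ) * ∑ g ∈ P, (g : ℂ)⁻¹ * BB (Nat.dist i i') (FX f (Nat.dist i i' * X / g))
            (HK H N (Nat.dist i i')) (√N * z / √g)).re := by
      simp only [Off, mul_sum]
      rw [sum_comm (s := P), ← sum_add_distrib]
      refine sum_congr rfl fun i _ => ?_
      rw [sum_comm (s := P), ← sum_add_distrib]
      refine sum_congr rfl fun i' _ => ?_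
      split_ifs
      · simp
      · rw [Complex.add_re, Complex.re_sum]
        congr 1
        refine sum_congr rfl fun g _ => ?_
        rw [Complex.re_ofReal_mul, ← Complex.ofReal_natCast, ← Complex.ofReal_inv,
          Complex.re_ofReal_mul, mul_div_assoc, mul_div_assoc]
    rw [a1]
    refine (sum_le_card_nsmul _ _ (N * (3 * δ * M ^ 2 * b ^ 2 + δ)) fun i hi =>
      (sum_le_card_nsmul _ _ (3 * δ * M ^ 2 * b ^ 2 + δ) fun i' hi' => ?_).trans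
        (by rw [card_range, nsmul_eq_mul])).trans (le_of_eq ?_)
    · rw [mem_range] at hi hi'
      beta_reduce
      split_ifs with c
      · positivity
      · refine (Complex.re_le_norm _).trans (h1 _ (mem_Icc.2 ⟨Nat.dist_pos_of_ne c, ?_⟩) _)
        unfold Nat.dist
        omega
    · rw [card_range, nsmul_eq_mul, hδ]
      field_simp
  have h4 : -(M ^ 2 * b ^ 2) ≤ L⁻¹ * ∑ g ∈ P, (g : ℝ)⁻¹ * Off f H N (z / √g) (X / g) := by
    rw [le_inv_mul_iff₀ hL0, hLd, sum_mul]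
    refine sum_le_sum fun g hg => mul_le_mul_of_nonneg_left ?_ (by positivity)
    have hg0 : 0 < √g := Real.sqrt_pos.2 (by exact_mod_cast (hP g hg).1.pos)
    linarith [(gram hf h hb hM hN0 (div_pos hz hg0) (X / g)).1]
  have h5 := (gram hf h hb hM hN0 hz X).2
  have h6 := h2 _ (hf.norm_FX X) (hf.FX_zero X)
  set B' := BB 1 (FX f X) (fun s t => H ((√N)⁻¹ * s) (t / (√N)⁻¹)) z
  have h7 : ‖B'‖ ≤ ε / 2 := by
    refine (pow_le_pow_iff_left₀ (norm_nonneg _) (by positivity) two_ne_zero).1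
      (le_of_mul_le_mul_left (h5.trans ?_) hN')
    rw [div_lt_iff₀ (by positivity)] at hN
    exact le_trans (mul_le_mul_of_nonneg_left (by linarith) (by positivity)) hN.le
  have h8 := norm_sub_le B' (B' - BB 1 (FX f X) H z)
  rw [sub_sub_cancel] at h8
  linarith

end Pool.Agent.P.MP_26a8c3_nt.Inf
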