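import Pool.Agent.P.MP_26a8c3_nt.Inf.LB
import Pool.Agent.P.MP_26a8c3_nt.SelB

/-! The logarithms of the divisors of a typical product of two integers are smoothly
distributed. -/

namespace Pool.Agent.P.MP_26a8c3_nt.Inf

open Finset Filter Topology MeasureTheory Real
open scoped FourierTransform ContDiff

/-- The product of a set of primes. -/
def pr (U : Finset ℕ) : ℕ := ∏ p ∈ U, p

/-- Test functions whose Fourier transform vanishes at the origin. -/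
structure Tf (φ : ℝ → ℂ) (R : ℝ) (j : ℝ → ℝ) : Prop where
  sm : ContDiff ℝ ∞ φ
  supp : ∀ x, φ x ≠ 0 → |x| ≤ R
  R0 : 0 ≤ R
  jb : ∀ ξ, ‖𝓕 φ ξ‖ ^ 2 ≤ (2 * π * ξ) ^ 2 * j ξ
  j0 : ∀ ξ, 0 ≤ j ξ
  ji : Integrable fun ξ => j ξ * (1 + |2 * π * ξ|) ^ 4

/-- The twisted sum over the divisors of a product of primes. -/
noncomputable def FF {k : ℕ} (χ : DirichletCharacter ℂ k) (φ : ℝ → ℂ) (U : Finset ℕ) (w : ℝ) : ℂ :=
  ∑ A ∈ U.powerset, χ (pr A) * φ (w + Real.log (pr A))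

lemma pr_pos {U : Finset ℕ} (hU : ∀ p ∈ U, p.Prime) : 0 < pr U :=
  prod_pos fun p hp => (hU p hp).pos

lemma pr_cast (U : Finset ℕ) : (pr U : ℝ) = ∏ p ∈ U, (p : ℝ) := Nat.cast_prod _ _

lemma pr_le {U A : Finset ℕ} (hU : ∀ p ∈ U, p.Prime) (h : A ⊆ U) : pr A ≤ pr U :=
  Nat.le_of_dvd (pr_pos hU) (prod_dvd_prod_of_subset _ _ _ h)

lemma cpt_of_abs {φ : ℝ → ℂ} {R : ℝ} (h : ∀ x, φ x ≠ 0 → |x| ≤ R) : HasCompactSupport φ :=
  HasCompactSupport.intro (isCompact_Icc (a := -R) (b := R)) fun x hx => by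
    by_contra h0
    exact hx (abs_le.1 (h x h0))

lemma fourier_shift (φ : ℝ → ℂ) (l ξ : ℝ) :
    𝓕 (fun v => φ (v + l)) ξ = Complex.exp ((2 * π * ξ * l : ℝ) * Complex.I) * 𝓕 φ ξ := by
  rw [fourier_real_eq_integral_exp_smul, fourier_real_eq_integral_exp_smul, ← integral_const_mul,
    ← integral_add_right_eq_self (fun v => Complex.exp ((2 * π * ξ * l : ℝ) * Complex.I) *
      Complex.exp ((-2 * π * v * ξ : ℝ) * Complex.I) • φ v) l]
  refine integral_congr_ae (.of_forall fun v => ?_)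
  simp only [smul_eq_mul]
  rw [← mul_assoc, ← Complex.exp_add]
  congr 2
  push_cast
  ring

lemma planch {φ : ℝ → ℂ} {R : ℝ} (hs : ContDiff ℝ ∞ φ) (hR : ∀ x, φ x ≠ 0 → |x| ≤ R)
    {ι : Type} (s : Finset ι) (a : ι → ℂ) (l : ι → ℝ) :
    Integrable (fun ξ => ‖𝓕 φ ξ‖ ^ 2 *
      ‖∑ i ∈ s, a i * Complex.exp ((2 * π * ξ * l i : ℝ) * Complex.I)‖ ^ 2) ∧
    ∫ w, ‖∑ i ∈ s, a i * φ (w + l i)‖ ^ 2 = ∫ ξ, ‖𝓕 φ ξ‖ ^ 2 *
      ‖∑ i ∈ s, a i * Complex.exp ((2 * π * ξ * l i : ℝ) * Complex.I)‖ ^ 2 := by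
  have h0 : ∀ i, HasCompactSupport fun w => φ (w + l i) := fun i =>
    cpt_of_abs (R := R + |l i|) fun x hx => by
      have := abs_sub (x + l i) (l i)
      rw [add_sub_cancel_right] at this
      linarith [hR _ hx]
  have h1 : HasCompactSupport fun w => ∑ i ∈ s, a i * φ (w + l i) :=
    cpt_of_abs (R := R + ∑ i ∈ s, |l i|) fun x hx => by
      obtain ⟨i, hi, h⟩ := exists_ne_zero_of_sum_ne_zero hx
      have a1 := abs_sub (x + l i) (l i)
      rw [add_sub_cancel_right] at a1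
      have a2 := single_le_sum (f := fun i => |l i|) (fun _ _ => abs_nonneg _) hi
      linarith [hR _ (right_ne_zero_of_mul h)]
  have h2 : ContDiff ℝ ∞ fun w => ∑ i ∈ s, a i * φ (w + l i) :=
    ContDiff.sum fun i _ => contDiff_const.mul (hs.comp (contDiff_id.add contDiff_const))
  have h3 : ∀ ξ, ‖𝓕 (h1.toSchwartzMap h2) ξ‖ ^ 2 = ‖𝓕 φ ξ‖ ^ 2 *
      ‖∑ i ∈ s, a i * Complex.exp ((2 * π * ξ * l i : ℝ) * Complex.I)‖ ^ 2 := by
    intro ξ
    rw [← mul_pow, ← norm_mul, mul_sum]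
    congr 2
    change 𝓕 (fun w => ∑ i ∈ s, a i * φ (w + l i)) ξ = _
    rw [fourier_real_eq_integral_exp_smul]
    simp only [smul_eq_mul, mul_sum]
    rw [integral_finsetSum]
    · refine sum_congr rfl fun i _ => ?_
      rw [mul_comm (𝓕 φ ξ), mul_assoc, ← fourier_shift, fourier_real_eq_integral_exp_smul,
        ← integral_const_mul]
      refine integral_congr_ae (.of_forall fun v => ?_)
      simp only [smul_eq_mul]
      ring
    · intro i _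
      have := hs.continuous
      refine Continuous.integrable_of_hasCompactSupport (by fun_prop) ?_
      exact ((h0 i).mul_left (f := fun _ => a i)).mul_left
  refine ⟨?_, ?_⟩
  · have := ((𝓕 (h1.toSchwartzMap h2)).memLp ((2 : ℕ) : ENNReal) volume).integrable_norm_pow
      two_ne_zero
    exact this.congr (.of_forall h3)
  · have := (h1.toSchwartzMap h2).integral_norm_sq_fourier
    rw [integral_congr_ae (.of_forall h3)] at this
    exact this.symm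

lemma FF_planch {k : ℕ} (χ : DirichletCharacter ℂ k) {φ : ℝ → ℂ} {R : ℝ} {j : ℝ → ℝ}
    (h : Tf φ R j) {U : Finset ℕ} (hU : ∀ p ∈ U, p.Prime) :
    Integrable (fun ξ => ‖𝓕 φ ξ‖ ^ 2 *
      ∏ p ∈ U, ‖1 + χ p * (p : ℂ) ^ ((2 * π * ξ : ℝ) * Complex.I)‖ ^ 2) ∧
    ∫ w, ‖FF χ φ U w‖ ^ 2 = ∫ ξ, ‖𝓕 φ ξ‖ ^ 2 *
      ∏ p ∈ U, ‖1 + χ p * (p : ℂ) ^ ((2 * π * ξ : ℝ) * Complex.I)‖ ^ 2 := by
  have h1 := planch h.sm h.supp U.powerset (fun A => χ (pr A)) fun A => Real.log (pr A)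
  have h2 : ∀ ξ : ℝ, ‖∑ A ∈ U.powerset, χ (pr A) *
      Complex.exp ((2 * π * ξ * Real.log (pr A) : ℝ) * Complex.I)‖ ^ 2 =
      ∏ p ∈ U, ‖1 + χ p * (p : ℂ) ^ ((2 * π * ξ : ℝ) * Complex.I)‖ ^ 2 := by
    intro ξ
    rw [prod_pow, ← norm_prod, prod_one_add]
    congr 2
    refine sum_congr rfl fun A hA => ?_
    have hA' : ∀ p ∈ A, p.Prime := fun p hp => hU p (mem_powerset.1 hA hp)
    rw [prod_mul_distrib, pr_cast, Real.log_prod fun p hp => by
      exact_mod_cast (hA' p hp).ne_zero, pr, Nat.cast_prod, map_prod, mul_sum, Complex.ofReal_sum,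
      sum_mul, Complex.exp_sum]
    congr 1
    refine prod_congr rfl fun p hp => ?_
    rw [Complex.cpow_def_of_ne_zero (by exact_mod_cast (hA' p hp).ne_zero),
      ← Complex.natCast_log]
    congr 1
    push_cast
    ring
  simpa only [h2, FF] using h1

lemma sum_sq_le {k : ℕ} (hk : 1 ≤ k) (χ : DirichletCharacter ℂ k) {φ : ℝ → ℂ} {R : ℝ}
    {j : ℝ → ℝ} (h : Tf φ R j) {P : Finset ℕ} (hP : ∀ p ∈ P, p.Prime) {Λ : ℝ} (hΛ : 1 ≤ Λ) :
    ∑ U ∈ P.powerset, (pr U : ℝ) ^ (-(1 + Λ⁻¹)) * ∫ w, ‖FF χ φ U w‖ ^ 2 ≤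
      ((2 * Λ + 4) * (2 + 4 * k)) ^ 2 * ∫ ξ, j ξ * (1 + |2 * π * ξ|) ^ 4 := by
  have hU : ∀ U ∈ P.powerset, ∀ p ∈ U, p.Prime := fun U hU p hp => hP p (mem_powerset.1 hU hp)
  rw [sum_congr rfl fun U hU' => by rw [(FF_planch χ h (hU U hU')).2, ← integral_const_mul],
    ← integral_finsetSum _ fun U hU' => (FF_planch χ h (hU U hU')).1.const_mul _,
    ← integral_const_mul]
  refine integral_mono_of_nonneg (.of_forall fun ξ => sum_nonneg fun U _ => by positivity)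
    (h.ji.const_mul _) (.of_forall fun ξ => ?_)
  have e : ∀ U ∈ P.powerset, (pr U : ℝ) ^ (-(1 + Λ⁻¹)) * (‖𝓕 φ ξ‖ ^ 2 *
      ∏ p ∈ U, ‖1 + χ p * (p : ℂ) ^ ((2 * π * ξ : ℝ) * Complex.I)‖ ^ 2) = ‖𝓕 φ ξ‖ ^ 2 *
      ∏ p ∈ U, (‖1 + χ p * (p : ℂ) ^ ((2 * π * ξ : ℝ) * Complex.I)‖ ^ 2 *
        (p : ℝ) ^ (-(1 + Λ⁻¹))) := by
    intro U _
    rw [prod_mul_distrib, pr_cast, Real.finsetProd_rpow _ _ fun _ _ => by positivity]
    ring
  beta_reduce
  rw [sum_congr rfl e, ← mul_sum, ← prod_one_add]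
  have h1 := euler_bound hk χ hΛ (2 * π * ξ) P hP
  have h2 := h.j0 ξ
  refine (mul_le_mul_of_nonneg_right (h.jb ξ) (prod_nonneg fun _ _ => by positivity)).trans ?_
  nlinarith [mul_le_mul_of_nonneg_left h1 h2]

lemma FF_cont {k : ℕ} (χ : DirichletCharacter ℂ k) {φ : ℝ → ℂ} (h : Continuous φ)
    (U : Finset ℕ) : Continuous (FF χ φ U) := by
  unfold FF
  fun_prop

lemma FF_supp {k : ℕ} (χ : DirichletCharacter ℂ k) {φ : ℝ → ℂ} {R : ℝ}
    (h : ∀ x, φ x ≠ 0 → |x| ≤ R) {U : Finset ℕ} (hU : ∀ p ∈ U, p.Prime) {w : ℝ}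
    (hw : FF χ φ U w ≠ 0) : w ∈ Set.Icc (-R - Real.log (pr U)) R := by
  obtain ⟨A, hA, h1⟩ := exists_ne_zero_of_sum_ne_zero hw
  have h2 := abs_le.1 (h _ (right_ne_zero_of_mul h1))
  have h3 : (0 : ℝ) < pr A := by exact_mod_cast pr_pos fun p hp => hU p (mem_powerset.1 hA hp)
  have h4 : Real.log (pr A) ≤ Real.log (pr U) :=
    Real.log_le_log h3 (by exact_mod_cast pr_le hU (mem_powerset.1 hA))
  have h5 := Real.log_natCast_nonneg (pr A)
  constructor <;> linarith [h2.1, h2.2]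

lemma FF_cpt {k : ℕ} (χ : DirichletCharacter ℂ k) {φ : ℝ → ℂ} {R : ℝ}
    (h : ∀ x, φ x ≠ 0 → |x| ≤ R) {U : Finset ℕ} (hU : ∀ p ∈ U, p.Prime) :
    HasCompactSupport (FF χ φ U) :=
  HasCompactSupport.intro isCompact_Icc fun _ hx => by
    by_contra h0
    exact hx (FF_supp χ h hU h0)

lemma FF_triv {k : ℕ} (χ : DirichletCharacter ℂ k) {φ : ℝ → ℂ} {R : ℝ} {j : ℝ → ℝ}
    (h : Tf φ R j) (U : Finset ℕ) : ∫ w, ‖FF χ φ U w‖ ≤ 2 ^ U.card * ∫ w, ‖φ w‖ := by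
  have hi : Integrable fun w => ‖φ w‖ :=
    (h.sm.continuous.integrable_of_hasCompactSupport (cpt_of_abs h.supp)).norm
  have h1 : ∫ w, ‖FF χ φ U w‖ ≤ ∫ w, ∑ A ∈ U.powerset, ‖φ (w + Real.log (pr A))‖ := by
    refine integral_mono_of_nonneg (.of_forall fun _ => norm_nonneg _)
      (integrable_finsetSum _ fun A _ => hi.comp_add_right _) (.of_forall fun w => ?_)
    refine (norm_sum_le _ _).trans (sum_le_sum fun A _ => ?_)
    rw [norm_mul]
    exact mul_le_of_le_one_left (norm_nonneg _) (χ.norm_le_one _)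
  rw [integral_finsetSum _ fun A _ => hi.comp_add_right _] at h1
  simp only [integral_add_right_eq_self (fun w => ‖φ w‖)] at h1
  simpa using h1

lemma one_two {F : ℝ → ℂ} (hF : Continuous F) {α β e : ℝ} (hab : α ≤ β) (he : 0 < e)
    (h : ∀ w, F w ≠ 0 → w ∈ Set.Icc α β) :
    ∫ w, ‖F w‖ ≤ e * (β - α) + e⁻¹ * ∫ w, ‖F w‖ ^ 2 := by
  have hc : HasCompactSupport F := HasCompactSupport.intro isCompact_Icc fun _ hx => by
    by_contra h0
    exact hx (h _ h0)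
  have h1 : Integrable fun w => ‖F w‖ ^ 2 :=
    (hF.memLp_of_hasCompactSupport (p := ((2 : ℕ) : ENNReal)) hc).integrable_norm_pow two_ne_zero
  have h2 : Integrable ((Set.Icc α β).indicator fun _ : ℝ => e) :=
    (integrable_indicator_iff measurableSet_Icc).2 (continuous_const.integrableOn_Icc)
  have h3 : ∫ w, (Set.Icc α β).indicator (fun _ : ℝ => e) w = e * (β - α) := by
    rw [integral_indicator measurableSet_Icc, setIntegral_const, Real.volume_real_Icc_of_le hab,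
      smul_eq_mul, mul_comm]
  rw [← h3, ← integral_const_mul, ← integral_add h2 (h1.const_mul _)]
  refine integral_mono_of_nonneg (.of_forall fun _ => norm_nonneg _) (h2.add (h1.const_mul _))
    (.of_forall fun w => ?_)
  by_cases hw : F w = 0
  · simp only [hw, norm_zero]
    have := Set.indicator_nonneg (s := Set.Icc α β) (f := fun _ : ℝ => e) (fun _ _ => he.le) w
    positivity
  · simp only [Set.indicator_of_mem (h w hw)]
    have h4 : e⁻¹ * e = 1 := inv_mul_cancel₀ he.ne'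
    have h5 := inv_pos.2 he
    have h6 : e⁻¹ * (‖F w‖ - e) ^ 2 = e⁻¹ * ‖F w‖ ^ 2 - 2 * ‖F w‖ + e := by
      linear_combination (-2 * ‖F w‖ + e) * h4
    nlinarith [norm_nonneg (F w), mul_nonneg h5.le (sq_nonneg (‖F w‖ - e))]

end Pool.Agent.P.MP_26a8c3_nt.Inf
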