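import Pool.Agent.P.MP_26a8c3_nt.Inf.Dl

/-! The mean of the twisted divisor sums tends to zero. -/

namespace Pool.Agent.P.MP_26a8c3_nt.Inf

open Finset Filter Topology MeasureTheory Real
open scoped FourierTransform ContDiff

lemma prod_c (c : ℝ) (U : Finset ℕ) : ∏ p ∈ U, c * (p : ℝ)⁻¹ = c ^ U.card * (pr U : ℝ)⁻¹ := by
  rw [prod_mul_distrib, prod_const, pr_cast, prod_inv_distrib]

lemma sum_c {c : ℝ} (hc : 0 ≤ c) (P : Finset ℕ) :
    ∑ U ∈ P.powerset, c ^ U.card * (pr U : ℝ)⁻¹ ≤ Real.exp (c * ∑ p ∈ P, (p : ℝ)⁻¹) := by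
  simp only [← prod_c]
  rw [← prod_one_add, mul_sum, Real.exp_sum]
  exact prod_le_prod (fun _ _ => by positivity) fun p _ => by
    linarith [Real.add_one_le_exp (c * (p : ℝ)⁻¹)]

lemma exp_le_two_pow (u : ℕ) : Real.exp (69 / 100 * u) ≤ 2 ^ u := by
  rw [mul_comm, Real.exp_nat_mul]
  refine pow_le_pow_left₀ (Real.exp_pos _).le ?_ u
  rw [← Real.le_log_iff_exp_le two_pos]
  linarith [Real.log_two_gt_d9]

lemma pow_le_exp (u : ℕ) : (4 / 3 : ℝ) ^ u ≤ Real.exp (3 / 10 * u) := by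
  rw [mul_comm, Real.exp_nat_mul]
  refine pow_le_pow_left₀ (by norm_num) ?_ u
  have := Real.quadratic_le_exp_of_nonneg (x := 3 / 10) (by norm_num)
  linarith

lemma per_U {k : ℕ} (χ : DirichletCharacter ℂ k) {φ : ℝ → ℂ} {R : ℝ} {j : ℝ → ℝ}
    (h : Tf φ R j) {U : Finset ℕ} (hU : ∀ p ∈ U, p.Prime) {L l η : ℝ} (hL : 1 ≤ L) (hl : 1 ≤ l)
    (hUl : ∀ p ∈ U, Real.log p ≤ l) (hη : 0 < η) :
    (pr U : ℝ)⁻¹ * ∫ w, ‖FF χ φ U w‖ ≤
      (∫ w, ‖φ w‖) * Real.exp (45 / 100 * L) * ((3 / 2) ^ U.card * (pr U : ℝ)⁻¹) +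
      (∫ w, ‖φ w‖) * Real.exp (-(276 / 100 * L)) * (4 ^ U.card * (pr U : ℝ)⁻¹) +
      η * (2 ^ U.card * (pr U : ℝ)⁻¹) +
      η⁻¹ * Real.exp (1 - 1035 / 1000 * L) * (4 * L * l + 2 * R) *
        ((pr U : ℝ) ^ (-(1 + (4 * L * l)⁻¹)) * ∫ w, ‖FF χ φ U w‖ ^ 2) := by
  have hm : (0 : ℝ) < pr U := by exact_mod_cast pr_pos hU
  have hR := h.R0
  have hn : 0 ≤ ∫ w, ‖φ w‖ := integral_nonneg fun _ => norm_nonneg _
  have h2 : 0 ≤ ∫ w, ‖FF χ φ U w‖ ^ 2 := integral_nonneg fun _ => by positivity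
  have ht := mul_le_mul_of_nonneg_left (FF_triv χ h U) (inv_pos.2 hm).le
  set n := ∫ w, ‖φ w‖
  set u := U.card with hu
  set T₁ := n * Real.exp (45 / 100 * L) * ((3 / 2) ^ u * (pr U : ℝ)⁻¹) with hT₁
  set T₂ := n * Real.exp (-(276 / 100 * L)) * (4 ^ u * (pr U : ℝ)⁻¹) with hT₂
  set T₃ := η * (2 ^ u * (pr U : ℝ)⁻¹) with hT₃
  set T₄ := η⁻¹ * Real.exp (1 - 1035 / 1000 * L) * (4 * L * l + 2 * R) *
        ((pr U : ℝ) ^ (-(1 + (4 * L * l)⁻¹)) * ∫ w, ‖FF χ φ U w‖ ^ 2) with hT₄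
  have p₁ : 0 ≤ T₁ := by positivity
  have p₂ : 0 ≤ T₂ := by positivity
  have p₃ : 0 ≤ T₃ := by positivity
  have p₄ : 0 ≤ T₄ := by positivity
  by_cases c1 : (u : ℝ) ≤ 3 / 2 * L
  · have a1 : (2 : ℝ) ^ u ≤ Real.exp (45 / 100 * L) * (3 / 2) ^ u := by
      rw [show (2 : ℝ) ^ u = (4 / 3) ^ u * (3 / 2) ^ u by rw [← mul_pow]; norm_num]
      gcongr
      exact (pow_le_exp u).trans (Real.exp_le_exp.2 (by linarith))
    have a2 : (pr U : ℝ)⁻¹ * (2 ^ u * n) ≤ T₁ := by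
      rw [hT₁]
      nlinarith [mul_le_mul_of_nonneg_left a1 (mul_nonneg hn (inv_pos.2 hm).le)]
    linarith
  by_cases c2 : 4 * L ≤ (u : ℝ)
  · have a1 : (2 : ℝ) ^ u ≤ Real.exp (-(276 / 100 * L)) * 4 ^ u := by
      rw [show (4 : ℝ) ^ u = 2 ^ u * 2 ^ u by rw [← mul_pow]; norm_num, ← mul_assoc]
      refine le_mul_of_one_le_left (by positivity) ?_
      rw [Real.exp_neg, ← div_eq_inv_mul, one_le_div (Real.exp_pos _)]
      exact (Real.exp_le_exp.2 (by linarith)).trans (exp_le_two_pow u)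
    have a2 : (pr U : ℝ)⁻¹ * (2 ^ u * n) ≤ T₂ := by
      rw [hT₂]
      nlinarith [mul_le_mul_of_nonneg_left a1 (mul_nonneg hn (inv_pos.2 hm).le)]
    linarith
  have hΛ : 0 < 4 * L * l := by positivity
  have hlog : Real.log (pr U) ≤ 4 * L * l := by
    rw [pr_cast, Real.log_prod fun p hp => by exact_mod_cast (hU p hp).ne_zero]
    refine (sum_le_card_nsmul _ _ l hUl).trans ?_
    rw [nsmul_eq_mul]
    exact mul_le_mul_of_nonneg_right (not_le.1 c2).le (by linarith)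
  set Λ := 4 * L * l with hΛd
  have hlen : 0 < Λ + 2 * R := by positivity
  have a1 := one_two (FF_cont χ h.sm.continuous U) (α := -R - Λ) (β := R)
    (e := η * 2 ^ u / (Λ + 2 * R)) (by linarith) (by positivity) fun w hw => by
      have := FF_supp χ h.supp hU hw
      exact ⟨by linarith [this.1], this.2⟩
  have a2 : η * 2 ^ u / (Λ + 2 * R) * (R - (-R - Λ)) = η * 2 ^ u := by
    rw [show R - (-R - Λ) = Λ + 2 * R by ring]
    field_simp
  have a3 : ((2 : ℝ) ^ u)⁻¹ ≤ Real.exp (-(1035 / 1000 * L)) := by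
    rw [Real.exp_neg]
    exact inv_anti₀ (Real.exp_pos _)
      ((Real.exp_le_exp.2 (by linarith [not_le.1 c1])).trans (exp_le_two_pow u))
  have a4 : (pr U : ℝ)⁻¹ ≤ Real.exp 1 * (pr U : ℝ) ^ (-(1 + Λ⁻¹)) := by
    rw [Real.rpow_def_of_pos hm, ← Real.exp_add, ← Real.exp_log (inv_pos.2 hm), Real.log_inv]
    refine Real.exp_le_exp.2 ?_
    have : Real.log (pr U) * Λ⁻¹ ≤ 1 := by rwa [← div_eq_mul_inv, div_le_one hΛ]
    nlinarith
  have a5 : (pr U : ℝ)⁻¹ * ((η * 2 ^ u / (Λ + 2 * R))⁻¹ * ∫ w, ‖FF χ φ U w‖ ^ 2) ≤ T₄ := by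
    calc _ = η⁻¹ * (((2 : ℝ) ^ u)⁻¹ * (pr U : ℝ)⁻¹) * (Λ + 2 * R) * ∫ w, ‖FF χ φ U w‖ ^ 2 := by
          field_simp
      _ ≤ η⁻¹ * (Real.exp (-(1035 / 1000 * L)) * (Real.exp 1 * (pr U : ℝ) ^ (-(1 + Λ⁻¹)))) *
          (Λ + 2 * R) * ∫ w, ‖FF χ φ U w‖ ^ 2 := by gcongr
      _ = T₄ := by
          rw [hT₄, sub_eq_add_neg, Real.exp_add]
          ring
  have a6 := mul_le_mul_of_nonneg_left a1 (inv_pos.2 hm).le
  rw [a2, mul_add] at a6
  have a7 : (pr U : ℝ)⁻¹ * (η * 2 ^ u) = T₃ := by rw [hT₃]; ring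
  linarith

/-- The density of the integers free of the primes of `P`. -/
noncomputable def VV (P : Finset ℕ) : ℝ := ∏ p ∈ P, (1 - (p : ℝ)⁻¹)

/-- The mean of the twisted divisor sums. -/
noncomputable def DD {k : ℕ} (χ : DirichletCharacter ℂ k) (φ : ℝ → ℂ) (P : Finset ℕ) : ℝ :=
  VV P ^ 2 * ∑ U ∈ P.powerset, (pr U : ℝ)⁻¹ * ∫ w, ‖FF χ φ U w‖

lemma VV_pos {P : Finset ℕ} (hP : ∀ p ∈ P, p.Prime) : 0 < VV P :=
  prod_pos fun p hp => sub_pos.2 (inv_lt_one_of_one_lt₀ (by exact_mod_cast (hP p hp).one_lt))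

lemma VV_le {P : Finset ℕ} (hP : ∀ p ∈ P, p.Prime) :
    VV P ≤ Real.exp (-∑ p ∈ P, (p : ℝ)⁻¹) := by
  rw [← sum_neg_distrib, Real.exp_sum]
  exact prod_le_prod (fun p hp => sub_nonneg.2
    (inv_le_one_of_one_le₀ (by exact_mod_cast (hP p hp).one_le))) fun p _ => by
      linarith [Real.add_one_le_exp (-(p : ℝ)⁻¹)]

lemma DD_le {k : ℕ} (hk : 1 ≤ k) (χ : DirichletCharacter ℂ k) {φ : ℝ → ℂ} {R : ℝ} {j : ℝ → ℝ}
    (h : Tf φ R j) {c : ℝ} (hc : 1 ≤ c) : ∃ C : ℝ, ∀ (P : Finset ℕ) (l : ℝ), (∀ p ∈ P, p.Prime) →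
      1 ≤ ∑ p ∈ P, (p : ℝ)⁻¹ → 1 ≤ l → (∀ p ∈ P, Real.log p ≤ l) →
      l ≤ c * Real.exp (∑ p ∈ P, (p : ℝ)⁻¹) →
      DD χ φ P ≤ C * Real.exp (-(1 / 100 * ∑ p ∈ P, (p : ℝ)⁻¹)) := by
  set n := ∫ w, ‖φ w‖ with hn
  set I := ∫ ξ, j ξ * (1 + |2 * π * ξ|) ^ 4 with hI
  have hn0 : 0 ≤ n := integral_nonneg fun _ => norm_nonneg _
  have hI0 : 0 ≤ I := integral_nonneg fun ξ => mul_nonneg (h.j0 ξ) (by positivity)
  have hR := h.R0
  refine ⟨2 * n + 1 + Real.exp 1 * ((1 + 2 * R) * (6 * (2 + 4 * k)) ^ 2 * I) * (4 * c) ^ 3 *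
    (6 * 100 ^ 3), fun P l hP hL hl hPl hlc => ?_⟩
  set L := ∑ p ∈ P, (p : ℝ)⁻¹ with hLd
  set η := Real.exp (-(1 / 100 * L)) with hη
  have hη0 : 0 < η := Real.exp_pos _
  set Λ := 4 * L * l with hΛd
  have hΛ : 1 ≤ Λ := by nlinarith
  have h1 := sum_le_sum fun U (hU : U ∈ P.powerset) => per_U χ h
    (fun p hp => hP p (mem_powerset.1 hU hp)) hL hl (fun p hp => hPl p (mem_powerset.1 hU hp)) hη0
  simp only [sum_add_distrib, ← mul_sum] at h1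
  have h2 := sum_sq_le hk χ h hP hΛ
  have s1 := sum_c (c := 3 / 2) (by norm_num) P
  have s2 := sum_c (c := 4) (by norm_num) P
  have s3 := sum_c (c := 2) (by norm_num) P
  rw [← hLd] at s1 s2 s3
  rw [← hn, ← hΛd] at h1
  rw [← hI] at h2
  have h3 : ∑ U ∈ P.powerset, (pr U : ℝ)⁻¹ * ∫ w, ‖FF χ φ U w‖ ≤
      n * Real.exp (45 / 100 * L) * Real.exp (3 / 2 * L) +
      n * Real.exp (-(276 / 100 * L)) * Real.exp (4 * L) + η * Real.exp (2 * L) +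
      η⁻¹ * Real.exp (1 - 1035 / 1000 * L) * (Λ + 2 * R) *
        (((2 * Λ + 4) * (2 + 4 * k)) ^ 2 * I) := h1.trans (by gcongr)
  have hV : VV P ^ 2 ≤ Real.exp (-(2 * L)) := by
    refine (pow_le_pow_left₀ (VV_pos hP).le (VV_le hP) 2).trans (le_of_eq ?_)
    rw [← Real.exp_nat_mul]
    congr 1
    push_cast
    ring
  have h4 := mul_le_mul hV h3 (sum_nonneg fun U _ =>
    mul_nonneg (by positivity) (integral_nonneg fun _ => norm_nonneg _)) (Real.exp_pos _).le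
  refine h4.trans ?_
  have b1 : Real.exp (-(2 * L)) * (Real.exp (45 / 100 * L) * Real.exp (3 / 2 * L)) ≤ η := by
    rw [← Real.exp_add, ← Real.exp_add]
    exact Real.exp_le_exp.2 (by linarith)
  have b2 : Real.exp (-(2 * L)) * (Real.exp (-(276 / 100 * L)) * Real.exp (4 * L)) ≤ η := by
    rw [← Real.exp_add, ← Real.exp_add]
    exact Real.exp_le_exp.2 (by linarith)
  have b3 : Real.exp (-(2 * L)) * (η * Real.exp (2 * L)) = η := by
    rw [mul_left_comm, ← Real.exp_add]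
    simp
  have b4 : Λ ^ 3 ≤ (4 * c) ^ 3 * (6 * 100 ^ 3) * Real.exp (301 / 100 * L) := by
    have a1 := Real.pow_div_factorial_le_exp (1 / 100 * L) (by positivity) 3
    have a2 : L ^ 3 ≤ 6 * 100 ^ 3 * Real.exp (1 / 100 * L) := by
      norm_num [Nat.factorial] at a1 ⊢
      linarith
    calc Λ ^ 3 ≤ (4 * L * (c * Real.exp L)) ^ 3 := by rw [hΛd]; gcongr
      _ = (4 * c) ^ 3 * L ^ 3 * Real.exp L ^ 3 := by ring
      _ ≤ (4 * c) ^ 3 * (6 * 100 ^ 3 * Real.exp (1 / 100 * L)) * Real.exp L ^ 3 := by gcongr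
      _ = _ := by
        rw [← Real.exp_nat_mul, show 301 / 100 * L = 1 / 100 * L + (3 : ℕ) * L by push_cast; ring,
          Real.exp_add]
        ring
  have b5 : (Λ + 2 * R) * (((2 * Λ + 4) * (2 + 4 * k)) ^ 2 * I) ≤
      ((1 + 2 * R) * (6 * (2 + 4 * k)) ^ 2 * I) * Λ ^ 3 := by
    calc _ ≤ ((1 + 2 * R) * Λ) * (((6 * Λ) * (2 + 4 * k)) ^ 2 * I) := by
          gcongr
          · nlinarith
          · linarith
      _ = _ := by ring
  have b6 : Real.exp (-(2 * L)) * (η⁻¹ * Real.exp (1 - 1035 / 1000 * L)) *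
      Real.exp (301 / 100 * L) ≤ Real.exp 1 * η := by
    rw [hη, ← Real.exp_neg, ← Real.exp_add, ← Real.exp_add, ← Real.exp_add, ← Real.exp_add]
    exact Real.exp_le_exp.2 (by linarith)
  set K := (1 + 2 * R) * (6 * (2 + 4 * (k : ℝ))) ^ 2 * I with hK
  have hK0 : 0 ≤ K := by positivity
  have b7 : Real.exp (-(2 * L)) * (η⁻¹ * Real.exp (1 - 1035 / 1000 * L) * (Λ + 2 * R) *
      (((2 * Λ + 4) * (2 + 4 * k)) ^ 2 * I)) ≤
      Real.exp 1 * K * (4 * c) ^ 3 * (6 * 100 ^ 3) * η := by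
    calc _ = Real.exp (-(2 * L)) * (η⁻¹ * Real.exp (1 - 1035 / 1000 * L)) * ((Λ + 2 * R) *
          (((2 * Λ + 4) * (2 + 4 * k)) ^ 2 * I)) := by ring
      _ ≤ Real.exp (-(2 * L)) * (η⁻¹ * Real.exp (1 - 1035 / 1000 * L)) *
          (K * ((4 * c) ^ 3 * (6 * 100 ^ 3) * Real.exp (301 / 100 * L))) :=
          mul_le_mul_of_nonneg_left (b5.trans (mul_le_mul_of_nonneg_left b4 hK0)) (by positivity)
      _ = Real.exp (-(2 * L)) * (η⁻¹ * Real.exp (1 - 1035 / 1000 * L)) *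
          Real.exp (301 / 100 * L) * (K * (4 * c) ^ 3 * (6 * 100 ^ 3)) := by ring
      _ ≤ Real.exp 1 * η * (K * (4 * c) ^ 3 * (6 * 100 ^ 3)) := by gcongr
      _ = _ := by ring
  nlinarith [mul_le_mul_of_nonneg_left b1 hn0, mul_le_mul_of_nonneg_left b2 hn0]

/-- The primes in `(Q₁, Q]`. -/
def PP (Q₁ Q : ℕ) : Finset ℕ := (Ioc Q₁ Q).filter Nat.Prime

lemma PP_prime {Q₁ Q : ℕ} : ∀ p ∈ PP Q₁ Q, p.Prime := fun _ hp => (mem_filter.1 hp).2

lemma log_le_exp (Q₁ Q : ℕ) :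
    Real.log (Q + 1 : ℕ) ≤ Real.exp (Q₁ + 4) * Real.exp (∑ p ∈ PP Q₁ Q, (p : ℝ)⁻¹) := by
  have h1 := log_add_one_le_harmonic Q
  simp only [harmonic_eq_sum_Icc, Rat.cast_sum, Rat.cast_inv, Rat.cast_natCast] at h1
  have h2 := sum_inv_factored (U := PP 0 Q) PP_prime (Icc 1 Q) fun n hn => by
    have := mem_Icc.1 hn
    exact Nat.mem_factoredNumbers'.2 fun p hp hd => mem_filter.2
      ⟨mem_Ioc.2 ⟨hp.pos, (Nat.le_of_dvd this.1 hd).trans this.2⟩, hp⟩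
  have h3 : ∏ p ∈ PP 0 Q, (1 - (p : ℝ)⁻¹)⁻¹ ≤
      Real.exp (∑ p ∈ PP 0 Q, ((p : ℝ)⁻¹ + 2 * ((p : ℝ) ^ 2)⁻¹)) := by
    rw [Real.exp_sum]
    refine prod_le_prod (fun p hp => inv_nonneg.2 (sub_nonneg.2 (inv_le_one_of_one_le₀
      (by exact_mod_cast (PP_prime p hp).one_le)))) fun p hp => ?_
    have a1 : (p : ℝ)⁻¹ ≤ 2⁻¹ := inv_anti₀ two_pos (by exact_mod_cast (PP_prime p hp).two_le)
    have a2 : 0 ≤ (p : ℝ)⁻¹ := by positivity
    refine le_trans ?_ (Real.add_one_le_exp _)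
    rw [← inv_pow, ← one_div (1 - _), div_le_iff₀ (by linarith)]
    nlinarith [mul_nonneg (sq_nonneg (p : ℝ)⁻¹) (sub_nonneg.2 a1)]
  have h4 : ∑ p ∈ PP 0 Q, (p : ℝ)⁻¹ ≤ Q₁ + ∑ p ∈ PP Q₁ Q, (p : ℝ)⁻¹ := by
    have a1 : PP 0 Q ⊆ Ioc 0 Q₁ ∪ PP Q₁ Q := fun p hp => by
      simp only [PP, mem_union, mem_filter, mem_Ioc] at hp ⊢
      by_cases h : p ≤ Q₁
      · exact Or.inl ⟨hp.1.1, h⟩
      · exact Or.inr ⟨⟨not_le.1 h, hp.1.2⟩, hp.2⟩
    refine (sum_le_sum_of_subset_of_nonneg a1 fun _ _ _ => by positivity).trans ?_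
    rw [sum_union (disjoint_left.2 fun p h1 h2 => by
      simp only [PP, mem_filter, mem_Ioc] at h1 h2; omega)]
    have a2 := sum_le_card_nsmul (Ioc 0 Q₁) (fun p => (p : ℝ)⁻¹) 1 fun p hp =>
      inv_le_one_of_one_le₀ (by exact_mod_cast (mem_Ioc.1 hp).1)
    simp only [Nat.card_Ioc, tsub_zero, nsmul_eq_mul, mul_one] at a2
    linarith
  rw [← Real.exp_add]
  refine h1.trans (h2.trans (h3.trans (Real.exp_le_exp.2 ?_)))
  rw [sum_add_distrib, ← mul_sum]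
  linarith [sum_inv_sq_le (PP 0 Q)]

theorem DD_tendsto {k : ℕ} (hk : 1 ≤ k) (χ : DirichletCharacter ℂ k) {φ : ℝ → ℂ} {R : ℝ}
    {j : ℝ → ℝ} (h : Tf φ R j) (Q₁ : ℕ) :
    Tendsto (fun Q => DD χ φ (PP Q₁ Q)) atTop (𝓝 0) := by
  obtain ⟨C, hC⟩ := DD_le hk χ h (c := Real.exp (Q₁ + 4)) (Real.one_le_exp (by positivity))
  have h1 : Tendsto (fun Q : ℕ => Real.log (Q + 1 : ℕ)) atTop atTop :=
    Real.tendsto_log_atTop.comp (tendsto_natCast_atTop_atTop.comp (tendsto_add_atTop_nat 1))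
  have h2 : Tendsto (fun Q => ∑ p ∈ PP Q₁ Q, (p : ℝ)⁻¹) atTop atTop := by
    rw [← Real.tendsto_exp_comp_atTop, ← tendsto_const_mul_atTop_of_pos (Real.exp_pos (Q₁ + 4))]
    exact tendsto_atTop_mono (log_le_exp Q₁) h1
  have h3 := (Real.tendsto_exp_neg_atTop_nhds_zero.comp
    (h2.const_mul_atTop (r := 1 / 100) (by norm_num))).const_mul C
  rw [mul_zero] at h3
  refine squeeze_zero' (.of_forall fun Q => mul_nonneg (sq_nonneg _) (sum_nonneg fun U _ =>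
    mul_nonneg (by positivity) (integral_nonneg fun _ => norm_nonneg _))) ?_ h3
  filter_upwards [h1.eventually_ge_atTop 1, h2.eventually_ge_atTop 1] with Q a1 a2
  refine hC _ _ PP_prime a2 a1 (fun p hp => ?_) (log_le_exp Q₁ Q)
  have := mem_Ioc.1 (mem_filter.1 hp).1
  exact Real.log_le_log (by exact_mod_cast (PP_prime p hp).pos) (by exact_mod_cast by omega)

lemma exists_Tf {τ : ℝ → ℝ} (hs : ContDiff ℝ ∞ τ) (h1 : ∀ x, τ x ≠ 0 → |x| ≤ 1) (c : ℝ) :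
    ∃ j, Tf (fun x => ((τ (x + c) - τ x : ℝ) : ℂ)) (1 + |c|) j := by
  have a1 : ContDiff ℝ ∞ fun x => (τ x : ℂ) := Complex.ofRealCLM.contDiff.comp hs
  have a2 : HasCompactSupport fun x => (τ x : ℂ) :=
    cpt_of_abs (R := 1) fun x hx => h1 x (by simpa using hx)
  set S := 𝓕 (a2.toSchwartzMap a1) with hS
  have a3 : ∀ ξ, 𝓕 (fun x => ((τ (x + c) - τ x : ℝ) : ℂ)) ξ =
      (Complex.exp ((2 * π * ξ * c : ℝ) * Complex.I) - 1) * S ξ := by
    intro ξ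
    have b1 : S ξ = 𝓕 (fun x => (τ x : ℂ)) ξ := rfl
    have b2 := a1.continuous
    have b3 : HasCompactSupport fun x => (τ (x + c) : ℂ) :=
      cpt_of_abs (R := 1 + |c|) fun x hx => by
        have := abs_sub (x + c) c
        rw [add_sub_cancel_right] at this
        linarith [h1 (x + c) (by simpa using hx)]
    rw [sub_mul, one_mul, b1, ← fourier_shift]
    simp only [fourier_real_eq_integral_exp_smul, smul_eq_mul]
    rw [← integral_sub]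
    · refine integral_congr_ae (.of_forall fun v => ?_)
      push_cast
      ring
    · exact Continuous.integrable_of_hasCompactSupport (by fun_prop) b3.mul_left
    · exact Continuous.integrable_of_hasCompactSupport (by fun_prop) a2.mul_left
  obtain ⟨M, hM0, hM⟩ := S.decay 0 0
  simp only [pow_zero, one_mul, norm_iteratedFDeriv_zero] at hM
  refine ⟨fun ξ => c ^ 2 * M * ‖S ξ‖, Complex.ofRealCLM.contDiff.comp
    ((hs.comp (contDiff_id.add contDiff_const)).sub hs), fun x hx => ?_, by positivity,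
    fun ξ => ?_, fun ξ => by positivity, ?_⟩
  · by_cases h : τ x = 0
    · have := abs_sub (x + c) c
      rw [add_sub_cancel_right] at this
      linarith [h1 (x + c) (by simpa [h] using hx)]
    · linarith [h1 x h, abs_nonneg c]
  · rw [a3, norm_mul, mul_pow]
    have b1 := Real.norm_exp_I_mul_ofReal_sub_one_le (x := 2 * π * ξ * c)
    rw [mul_comm Complex.I] at b1
    have b2 := pow_le_pow_left₀ (norm_nonneg _) b1 2
    rw [Real.norm_eq_abs, sq_abs] at b2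
    calc _ ≤ (2 * π * ξ * c) ^ 2 * (M * ‖S ξ‖) := by
          rw [sq ‖S ξ‖]
          gcongr
          exact hM ξ
      _ = _ := by ring
  · have b1 := ((S.integrable_pow_mul volume 0).add
      ((S.integrable_pow_mul volume 4).const_mul ((2 * π) ^ 4))).const_mul (c ^ 2 * M * 8)
    refine b1.mono' (by fun_prop) (.of_forall fun ξ => ?_)
    rw [Real.norm_of_nonneg (by positivity)]
    simp only [Pi.add_apply, pow_zero, one_mul, Real.norm_eq_abs]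
    have b2 : (1 + |2 * π * ξ|) ^ 4 ≤ 8 * (1 + (2 * π) ^ 4 * |ξ| ^ 4) := by
      rw [abs_mul, abs_of_pos two_pi_pos, ← mul_pow]
      have := add_pow_le zero_le_one (mul_nonneg two_pi_pos.le (abs_nonneg ξ)) 4
      norm_num at this ⊢
      linarith
    calc _ ≤ c ^ 2 * M * ‖S ξ‖ * (8 * (1 + (2 * π) ^ 4 * |ξ| ^ 4)) := by gcongr
      _ = _ := by ring

end Pool.Agent.P.MP_26a8c3_nt.Inf
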