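import Mathlib

/-! Elementary upper bounds for Dirichlet series to the right of the line one. -/

namespace Pool.Agent.P.MP_26a8c3_nt.Inf

open Finset Filter Topology

lemma sum_inv_sq_tail (S : Finset ℕ) {Q : ℕ} (hQ : Q ≠ 0) (h : ∀ n ∈ S, Q < n) :
    ∑ n ∈ S, ((n : ℝ) ^ 2)⁻¹ ≤ (Q : ℝ)⁻¹ := by
  have h1 : S ⊆ Ioc Q (max Q (S.sup id)) := fun n hn =>
    mem_Ioc.2 ⟨h n hn, le_max_of_le_right (le_sup (f := id) hn)⟩
  refine (sum_le_sum_of_subset_of_nonneg h1 fun _ _ _ => by positivity).trans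
    ((sum_Ioc_inv_sq_le_sub hQ (le_max_left _ _)).trans ?_)
  exact sub_le_self _ (by positivity)

lemma sum_inv_sq_le (S : Finset ℕ) : ∑ n ∈ S, ((n : ℝ) ^ 2)⁻¹ ≤ 2 := by
  have h1 : S ⊆ insert 0 (Ioo 0 (S.sup id + 1)) := fun n hn => by
    have := le_sup (f := id) hn
    simp only [mem_insert, mem_Ioo, id] at this ⊢
    omega
  refine (sum_le_sum_of_subset_of_nonneg h1 fun _ _ _ => by positivity).trans ?_
  rw [sum_insert (by simp)]
  simpa using sum_Ioo_inv_sq_le (α := ℝ) 0 (S.sup id + 1)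

lemma taylor_step {s : ℂ} (hs : 1 < s.re) {n k : ℝ} (hn : 1 ≤ n) (hk : 0 ≤ k) :
    ‖(k : ℂ) * (s - 1) * (n : ℂ) ^ (-s) - ((n : ℂ) ^ (1 - s) - ((n + k : ℝ) : ℂ) ^ (1 - s))‖ ≤
      ‖s - 1‖ * ‖s‖ * k ^ 2 * (n ^ 2)⁻¹ := by
  have hs0 : -s ≠ 0 := fun h => by
    rw [neg_eq_zero] at h; rw [h] at hs; norm_num at hs
  have hs1 : 1 - s ≠ 0 := fun h => by
    rw [sub_eq_zero] at h; rw [← h] at hs; norm_num at hs
  have h1 : ∀ x ∈ Set.Icc n (n + k), ‖(x : ℂ) ^ (-s) - (n : ℂ) ^ (-s)‖ ≤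
      ‖s‖ * (n ^ 2)⁻¹ * (x - n) := by
    refine norm_image_sub_le_of_norm_deriv_le_segment' (f := fun x : ℝ => (x : ℂ) ^ (-s))
      (f' := fun x => -s * (x : ℂ) ^ (-s - 1)) (fun x hx => ?_) fun x hx => ?_
    · exact (hasDerivAt_ofReal_cpow_const (by linarith [hx.1]) hs0).hasDerivWithinAt
    · have hx1 : 1 ≤ x := hn.trans hx.1
      rw [norm_mul, norm_neg, Complex.norm_cpow_eq_rpow_re_of_pos (by linarith)]
      refine mul_le_mul_of_nonneg_left ?_ (norm_nonneg _)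
      calc x ^ (-s - 1).re ≤ x ^ (-2 : ℝ) :=
            Real.rpow_le_rpow_of_exponent_le hx1 (by simp; linarith)
        _ = (x ^ 2)⁻¹ := by rw [Real.rpow_neg (by linarith), Real.rpow_two]
        _ ≤ (n ^ 2)⁻¹ := by gcongr; exact hx.1
  have h2 := norm_image_sub_le_of_norm_deriv_le_segment' (a := n) (b := n + k)
    (f := fun x : ℝ => ((x - n : ℝ) : ℂ) * (s - 1) * (n : ℂ) ^ (-s) + (x : ℂ) ^ (1 - s))
    (f' := fun x => (s - 1) * ((n : ℂ) ^ (-s) - (x : ℂ) ^ (-s)))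
    (C := ‖s - 1‖ * (‖s‖ * (n ^ 2)⁻¹ * k)) (fun x hx => ?_) (fun x hx => ?_) (n + k)
    ⟨by linarith, le_rfl⟩
  · refine le_trans (le_of_eq ?_) (h2.trans (le_of_eq (by ring)))
    congr 1
    push_cast
    ring
  · have a1 := hasDerivAt_ofReal_cpow_const (x := x) (by linarith [hx.1]) hs1
    have a2 : HasDerivAt (fun x : ℝ => ((x - n : ℝ) : ℂ)) 1 x :=
      ((hasDerivAt_id x).sub_const n).ofReal_comp
    have a3 := ((a2.mul_const (s - 1)).mul_const ((n : ℂ) ^ (-s))).add a1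
    refine (a3.congr_deriv ?_).hasDerivWithinAt
    rw [show 1 - s - 1 = -s by ring]
    ring
  · rw [norm_mul, norm_sub_rev ((n : ℂ) ^ (-s))]
    refine mul_le_mul_of_nonneg_left ((h1 x ⟨hx.1, hx.2.le⟩).trans ?_) (norm_nonneg _)
    exact mul_le_mul_of_nonneg_left (by linarith [hx.2]) (by positivity)

lemma L_bound {χ : ℕ → ℂ} {k : ℕ} (hk : 1 ≤ k) (hp : ∀ n, χ (n + k) = χ n)
    (hb : ∀ n, ‖χ n‖ ≤ 1) {s : ℂ} (hs : 1 < s.re) :
    ‖s - 1‖ * ‖LSeries χ s‖ ≤ 2 + 2 * k * (‖s - 1‖ * ‖s‖) := by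
  have hk' : (1 : ℝ) ≤ k := by exact_mod_cast hk
  have hsum : LSeriesSummable χ s := LSeriesSummable_of_bounded_of_one_lt_re (fun n _ => hb n) hs
  have ht := ((hsum.hasSum.tendsto_sum_nat.comp (tendsto_add_atTop_nat 1)).const_mul
    ((k : ℂ) * (s - 1))).norm
  set T : ℕ → ℂ := fun n => χ (n + 1) * ((n + 1 : ℕ) : ℂ) ^ (1 - s) with hT
  have hT1 : ∀ n, ‖T n‖ ≤ 1 := fun n => by
    simp only [hT]
    rw [norm_mul, Complex.norm_natCast_cpow_of_pos (Nat.succ_pos n)]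
    refine mul_le_one₀ (hb _) (by positivity) ?_
    exact Real.rpow_le_one_of_one_le_of_nonpos (by simp) (by simp; linarith)
  have hT2 : ∀ f : ℕ → ℕ, ‖∑ n ∈ range k, T (f n)‖ ≤ k := fun f =>
    (norm_sum_le _ _).trans ((sum_le_card_nsmul _ _ 1 fun n _ => hT1 _).trans (by simp))
  have key : ∀ N, ‖(k : ℂ) * (s - 1) * ∑ n ∈ range (N + 1), LSeries.term χ s n‖ ≤
      k * (2 + 2 * k * (‖s - 1‖ * ‖s‖)) := by
    intro N
    rw [sum_range_succ', LSeries.term_zero, add_zero, mul_sum]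
    have e1 : ∑ n ∈ range N, (T n - T (k + n)) =
        ∑ n ∈ range k, T n - ∑ n ∈ range k, T (N + n) := by
      have a1 := sum_range_add T N k
      have a2 := sum_range_add T k N
      rw [add_comm k N, a1] at a2
      rw [sum_sub_distrib]
      linear_combination a2
    have e2 : ‖∑ n ∈ range N, ((k : ℂ) * (s - 1) * LSeries.term χ s (n + 1) -
        (T n - T (k + n)))‖ ≤ ‖s - 1‖ * ‖s‖ * k ^ 2 * 2 := by
      refine (norm_sum_le _ _).trans ?_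
      have a1 : ∑ n ∈ range N, (((n + 1 : ℕ) : ℝ) ^ 2)⁻¹ ≤ 2 := by
        rw [← sum_image (s := range N) (g := fun n => n + 1) (f := fun n : ℕ => ((n : ℝ) ^ 2)⁻¹)
          fun a _ b _ h => by simpa using h]
        exact sum_inv_sq_le _
      refine le_trans ?_ (mul_le_mul_of_nonneg_left a1 (by positivity))
      rw [mul_sum]
      refine sum_le_sum fun n _ => ?_
      have a2 := taylor_step hs (n := (n + 1 : ℕ)) (k := k) (by simp) (by positivity)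
      refine le_trans (le_of_eq ?_) ((mul_le_mul_of_nonneg_right (hb (n + 1))
        (norm_nonneg _)).trans ((one_mul _).le.trans a2))
      rw [← norm_mul, LSeries.term_of_ne_zero (Nat.succ_ne_zero n)]
      congr 1
      simp only [hT]
      rw [show k + n + 1 = n + 1 + k by ring, hp, Complex.cpow_neg]
      push_cast
      ring
    rw [sum_sub_distrib, e1] at e2
    have e3 := norm_sub_le (∑ n ∈ range k, T n) (∑ n ∈ range k, T (N + n))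
    have e4 := norm_le_norm_sub_add (∑ n ∈ range N, (k : ℂ) * (s - 1) * LSeries.term χ s (n + 1))
      (∑ n ∈ range k, T n - ∑ n ∈ range k, T (N + n))
    have e5 := hT2 fun n => n
    have e6 := hT2 fun n => N + n
    nlinarith
  have h1 := le_of_tendsto' ht key
  rw [norm_mul, norm_mul, Complex.norm_natCast, mul_assoc] at h1
  exact le_of_mul_le_mul_left h1 (by linarith)

lemma local_ineq {x : ℝ} {w : ℂ} (h0 : 0 ≤ x) (h1 : x ≤ 1 / 2) (hw : ‖w‖ ≤ 1) :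
    1 ≤ ‖(1 - (x : ℂ))⁻¹‖ * ‖(1 - w * x)⁻¹‖ ∧
    1 + ‖1 + w‖ ^ 2 * x ≤ (‖(1 - (x : ℂ))⁻¹‖ * ‖(1 - w * x)⁻¹‖) ^ 2 := by
  have e1 : ‖(1 - (x : ℂ))‖ = 1 - x := by
    rw [← Complex.ofReal_one, ← Complex.ofReal_sub, Complex.norm_real,
      Real.norm_of_nonneg (by linarith)]
  have hwx : ‖w * x‖ ≤ x := by
    rw [norm_mul, Complex.norm_real, Real.norm_of_nonneg h0]
    nlinarith
  have e2 : ‖1 - w * x‖ ≤ 1 + x := (norm_sub_le _ _).trans (by rw [norm_one]; linarith)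
  have e3 : 0 < ‖1 - w * x‖ := by
    have := norm_sub_norm_le (1 : ℂ) (w * x)
    rw [norm_one] at this
    linarith
  have hq : w.re ^ 2 + w.im ^ 2 ≤ 1 := by
    have := Complex.sq_norm w
    rw [Complex.normSq_apply] at this
    nlinarith [norm_nonneg w]
  have e4 : ‖1 - w * x‖ ^ 2 ≤ 1 - 2 * w.re * x + x ^ 2 := by
    rw [Complex.sq_norm, Complex.normSq_apply]
    simp only [Complex.sub_re, Complex.one_re, Complex.mul_re, Complex.ofReal_re,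
      Complex.ofReal_im, Complex.sub_im, Complex.one_im, Complex.mul_im]
    nlinarith [sq_nonneg x]
  have e5 : ‖1 + w‖ ^ 2 ≤ 2 + 2 * w.re := by
    rw [Complex.sq_norm, Complex.normSq_apply]
    simp only [Complex.add_re, Complex.one_re, Complex.add_im, Complex.one_im]
    nlinarith
  have hx : 0 < 1 - x := by linarith
  rw [norm_inv, norm_inv, e1, ← mul_inv, inv_pow]
  refine ⟨(one_le_inv₀ (by positivity)).2 (by nlinarith), ?_⟩
  rw [← one_div, le_div_iff₀ (by positivity)]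
  set u := ‖1 - w * x‖
  set A := 1 + ‖1 + w‖ ^ 2 * x
  have hA0 : 0 ≤ A := by positivity
  have hA : A + u ^ 2 ≤ 2 * (1 + x + x ^ 2 / 2) := by
    simp only [A]
    nlinarith
  have hAB : A * u ^ 2 ≤ (1 + x + x ^ 2 / 2) ^ 2 := by
    nlinarith [sq_nonneg (A - u ^ 2), sq_nonneg u]
  have hC : (1 + x + x ^ 2 / 2) * (1 - x) ≤ 1 := by nlinarith [mul_nonneg h0 (sq_nonneg x)]
  calc A * ((1 - x) * u) ^ 2 = A * u ^ 2 * (1 - x) ^ 2 := by ring
    _ ≤ (1 + x + x ^ 2 / 2) ^ 2 * (1 - x) ^ 2 := by gcongr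
    _ = ((1 + x + x ^ 2 / 2) * (1 - x)) ^ 2 := by ring
    _ ≤ 1 := pow_le_one₀ (by positivity) hC

lemma euler_le {k : ℕ} (χ : DirichletCharacter ℂ k) {σ : ℝ} (hσ : 1 < σ) (t : ℝ)
    (P : Finset ℕ) (hP : ∀ p ∈ P, p.Prime) :
    ∏ p ∈ P, (1 + ‖1 + χ p * (p : ℂ) ^ (t * Complex.I)‖ ^ 2 * (p : ℝ) ^ (-σ)) ≤
      (‖LSeries (fun _ => 1) σ‖ * ‖LSeries (fun n => χ n) (σ - t * Complex.I)‖) ^ 2 := by
  have h1 := (riemannZeta_eulerProduct_hasProd (s := σ) (by simpa using hσ)).norm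
  rw [← LSeries_one_eq_riemannZeta (by simpa using hσ)] at h1
  have h2 := (χ.LSeries_eulerProduct_hasProd (s := σ - t * Complex.I) (by simpa using hσ)).norm
  set u : ℕ → ℝ := fun p => ‖(1 - (p : ℂ) ^ (-(σ : ℂ)))⁻¹‖ *
    ‖(1 - χ p * (p : ℂ) ^ (-(σ - t * Complex.I)))⁻¹‖ with hu
  have h3 : HasProd (fun p : Nat.Primes => u p) _ := h1.mul h2
  have hl : ∀ p : ℕ, p.Prime → 1 ≤ u p ∧
      1 + ‖1 + χ p * (p : ℂ) ^ (t * Complex.I)‖ ^ 2 * (p : ℝ) ^ (-σ) ≤ u p ^ 2 := by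
    intro p hp
    have hp2 : (2 : ℝ) ≤ p := by exact_mod_cast hp.two_le
    have a1 : (p : ℂ) ^ (-(σ : ℂ)) = (((p : ℝ) ^ (-σ) : ℝ) : ℂ) := by
      rw [Complex.ofReal_cpow (by positivity)]; simp
    have a2 : (p : ℂ) ^ (-(σ - t * Complex.I)) =
        (p : ℂ) ^ (t * Complex.I) * (((p : ℝ) ^ (-σ) : ℝ) : ℂ) := by
      rw [← a1, ← Complex.cpow_add _ _ (by exact_mod_cast hp.ne_zero)]
      ring_nf
    simp only [hu]
    rw [a1, a2, ← mul_assoc]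
    refine local_ineq (by positivity) ?_ ?_
    · calc (p : ℝ) ^ (-σ) ≤ (p : ℝ) ^ (-1 : ℝ) :=
            Real.rpow_le_rpow_of_exponent_le (by linarith) (by linarith)
        _ ≤ 1 / 2 := by rw [Real.rpow_neg_one, one_div]; gcongr
    · rw [norm_mul, Complex.norm_natCast_cpow_of_pos hp.pos]
      simpa using χ.norm_le_one p
  have h4 : ∏ p ∈ P, u p ≤
      ‖LSeries (fun _ => 1) σ‖ * ‖LSeries (fun n => χ n) (σ - t * Complex.I)‖ := by
    rw [← prod_subtype_of_mem u hP]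
    refine ge_of_tendsto h3 ((eventually_ge_atTop (P.subtype Nat.Prime)).mono fun S hS => ?_)
    exact prod_le_prod_of_subset_of_one_le hS (fun p _ => zero_le_one.trans (hl p p.2).1)
      fun p _ _ => (hl p p.2).1
  calc _ ≤ ∏ p ∈ P, u p ^ 2 := prod_le_prod (fun p _ => by positivity) fun p hp => (hl p (hP p hp)).2
    _ = (∏ p ∈ P, u p) ^ 2 := prod_pow _ _ _
    _ ≤ _ := pow_le_pow_left₀ (prod_nonneg fun p hp => zero_le_one.trans (hl p (hP p hp)).1) h4 2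

lemma euler_bound {k : ℕ} (hk : 1 ≤ k) (χ : DirichletCharacter ℂ k) {Λ : ℝ} (hΛ : 1 ≤ Λ) (t : ℝ)
    (P : Finset ℕ) (hP : ∀ p ∈ P, p.Prime) :
    t ^ 2 * ∏ p ∈ P, (1 + ‖1 + χ p * (p : ℂ) ^ (t * Complex.I)‖ ^ 2 * (p : ℝ) ^ (-(1 + Λ⁻¹))) ≤
      ((2 * Λ + 4) * (2 + 4 * k)) ^ 2 * (1 + |t|) ^ 4 := by
  have hi0 : 0 < Λ⁻¹ := by positivity
  have hi1 : Λ⁻¹ ≤ 1 := inv_le_one_of_one_le₀ hΛ
  have h0 := euler_le χ (σ := 1 + Λ⁻¹) (by linarith) t P hP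
  have h1 := L_bound (χ := fun _ => 1) (k := 1) le_rfl (fun _ => rfl) (fun _ => by simp)
    (s := ((1 + Λ⁻¹ : ℝ) : ℂ)) (by simpa using hi0)
  have h2 := L_bound (χ := fun n => χ n) hk (fun n => by simp) (fun n => χ.norm_le_one n)
    (s := ((1 + Λ⁻¹ : ℝ) : ℂ) - t * Complex.I) (by simpa using hi0)
  have e1 : ‖((1 + Λ⁻¹ : ℝ) : ℂ) - 1‖ = Λ⁻¹ := by
    rw [← Complex.ofReal_one, ← Complex.ofReal_sub, Complex.norm_real,
      Real.norm_of_nonneg (by linarith)]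
    ring
  have e2 : ‖((1 + Λ⁻¹ : ℝ) : ℂ)‖ = 1 + Λ⁻¹ := by
    rw [Complex.norm_real, Real.norm_of_nonneg (by linarith)]
  have e3 : ‖(t : ℂ) * Complex.I‖ = |t| := by simp
  set s := ((1 + Λ⁻¹ : ℝ) : ℂ) - t * Complex.I with hs
  have e4 : ‖s‖ ≤ 2 * (1 + |t|) := (norm_sub_le _ _).trans (by rw [e2, e3]; linarith [abs_nonneg t])
  have e5 : ‖s - 1‖ ≤ 1 + |t| := by
    rw [show s - 1 = (((1 + Λ⁻¹ : ℝ) : ℂ) - 1) - t * Complex.I by rw [hs]; ring]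
    exact (norm_sub_le _ _).trans (by rw [e1, e3]; linarith)
  have e6 : |t| ≤ ‖s - 1‖ := by
    have := Complex.abs_im_le_norm (s - 1)
    simpa [hs] using this
  rw [e1, e2] at h1
  set Z := ‖LSeries (fun _ => (1 : ℂ)) ((1 + Λ⁻¹ : ℝ) : ℂ)‖
  set W := ‖LSeries (fun n => χ n) s‖
  have hZ : Z ≤ 2 * Λ + 4 := by
    have a1 : Λ * (Λ⁻¹ * Z) ≤ Λ * (2 + 2 * (Λ⁻¹ * 2)) := by
      refine mul_le_mul_of_nonneg_left (h1.trans ?_) (by linarith)
      push_cast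
      nlinarith
    rw [← mul_assoc, mul_inv_cancel₀ (by linarith), one_mul] at a1
    refine a1.trans (le_of_eq ?_)
    field_simp
    ring
  have hW : |t| * W ≤ (2 + 4 * k) * (1 + |t|) ^ 2 := by
    have a1 : ‖s - 1‖ * ‖s‖ ≤ (1 + |t|) * (2 * (1 + |t|)) := by gcongr
    have a2 : |t| * W ≤ ‖s - 1‖ * W := by gcongr
    have a3 : (0 : ℝ) ≤ k := by positivity
    nlinarith [mul_le_mul_of_nonneg_left a1 a3, abs_nonneg t, sq_nonneg |t|]
  calc _ ≤ t ^ 2 * (Z * W) ^ 2 := by gcongr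
    _ = (Z * (|t| * W)) ^ 2 := by rw [← sq_abs t]; ring
    _ ≤ ((2 * Λ + 4) * ((2 + 4 * k) * (1 + |t|) ^ 2)) ^ 2 := by gcongr
    _ = _ := by ring

end Pool.Agent.P.MP_26a8c3_nt.Inf
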