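import Pool.Agent.P.MP_26a8c3_nt.Inf.Co2

/-! Selberg's diagonalisation for general weights. -/

namespace Pool.Agent.P.MP_26a8c3_nt.Inf

open Finset
open scoped ArithmeticFunction.Moebius

lemma mob {Z r g : ℕ} (hg : g ∈ Ioc 0 Z) (hr : 0 < r) :
    ∑ j ∈ Ioc 0 Z, (if r * j ∣ g then (μ j : ℤ) else 0) = if g = r then 1 else 0 := by
  obtain ⟨h0, h1⟩ := mem_Ioc.1 hg
  by_cases h : r ∣ g
  · obtain ⟨t, rfl⟩ := h
    have ht : 0 < t := Nat.pos_of_mul_pos_left h0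
    simp only [Nat.mul_dvd_mul_iff_left hr]
    have e : (Ioc 0 Z).filter (· ∣ t) = t.divisors := by
      ext j
      simp only [mem_filter, mem_Ioc, Nat.mem_divisors]
      exact ⟨fun h => ⟨h.2, ht.ne'⟩, fun h => ⟨⟨Nat.pos_of_dvd_of_pos h.1 ht,
        (Nat.le_of_dvd ht h.1).trans ((Nat.le_mul_of_pos_left t hr).trans h1)⟩, h.1⟩⟩
    rw [← sum_filter, e, ← ArithmeticFunction.coe_mul_zeta_apply,
      ArithmeticFunction.moebius_mul_coe_zeta, ArithmeticFunction.one_apply]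
    exact if_congr (by rw [mul_right_eq_self₀]; omega) rfl rfl
  · rw [sum_eq_zero fun j _ => if_neg fun h2 => h ((dvd_mul_right r j).trans h2),
      if_neg fun h2 : g = r => h (h2 ▸ dvd_rfl)]

lemma mob_cast {K : Type} [Ring K] {Z r g : ℕ} (hg : g ∈ Ioc 0 Z) (hr : 0 < r) :
    ∑ j ∈ Ioc 0 Z, (if r * j ∣ g then (μ j : K) else 0) = if g = r then 1 else 0 := by
  exact_mod_cast congrArg (Int.cast : ℤ → K) (mob hg hr)

/-- The divisor sum attached to a system of weights. -/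
def aa (Z : ℕ) (l : ℕ → ℝ) (n : ℕ) : ℝ := ∑ d ∈ Ioc 0 Z, l d * if d ∣ n then 1 else 0

/-- The bilinear form in two systems of weights. -/
def QF (Z : ℕ) (l l' r : ℕ → ℝ) : ℝ :=
  ∑ d ∈ Ioc 0 Z, ∑ e ∈ Ioc 0 Z, l d * l' e * r (Nat.lcm d e)

/-- The weights attached to diagonal coordinates. -/
def lam (Z : ℕ) (y : ℕ → ℝ) (d : ℕ) : ℝ := d * ∑ m ∈ Ioc 0 Z, μ m * y (d * m)

lemma bil_sum (Z : ℕ) (l l' w : ℕ → ℝ) (I : Finset ℕ) :
    ∑ n ∈ I, w n * (aa Z l n * aa Z l' n) =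
      QF Z l l' fun D => ∑ n ∈ I, w n * if D ∣ n then 1 else 0 := by
  simp only [aa, QF, sum_mul_sum]
  simp only [mul_sum]
  rw [sum_comm]
  refine sum_congr rfl fun d _ => ?_
  rw [sum_comm]
  refine sum_congr rfl fun e _ => sum_congr rfl fun n _ => ?_
  by_cases a : d ∣ n <;> by_cases b : e ∣ n <;> simp [Nat.lcm_dvd_iff, a, b]
  ring

lemma lam_inv {Z : ℕ} {y : ℕ → ℝ} (hy : ∀ n, y n ≠ 0 → n ∈ Ioc 0 Z) {r : ℕ} (hr : r ∈ Ioc 0 Z) :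
    ∑ d ∈ Ioc 0 Z, (if r ∣ d then lam Z y d / d else 0) = y r := by
  have h1 : ∀ d ∈ Ioc 0 Z, (if r ∣ d then lam Z y d / d else 0) =
      ∑ m ∈ Ioc 0 Z, if r ∣ d then μ m * y (d * m) else 0 := by
    intro d hd
    have : (d : ℝ) ≠ 0 := by exact_mod_cast (mem_Ioc.1 hd).1.ne'
    split_ifs
    · rw [lam, mul_div_cancel_left₀ _ this]
    · simp
  have h2 : ∀ m ∈ Ioc 0 Z, ∑ d ∈ Ioc 0 Z, (if r ∣ d then μ m * y (d * m) else 0) =
      ∑ n ∈ Ioc 0 Z, (if r * m ∣ n then (μ m : ℝ) else 0) * y n := by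
    intro m hm
    have hm0 := (mem_Ioc.1 hm).1
    rw [sum_reidx (Ioc 0 Z) (Ioc 0 Z) (e := fun d => d * m)
      (F := fun n => (if r * m ∣ n then (μ m : ℝ) else 0) * y n)]
    · simp only [Nat.mul_dvd_mul_iff_right hm0, ite_mul, zero_mul]
    · exact fun a b h => Nat.eq_of_mul_eq_mul_right hm0 h
    · intro n hn
      have a1 := hy n (right_ne_zero_of_mul hn)
      have a2 : m ∣ n := by
        by_contra hc
        exact left_ne_zero_of_mul hn (if_neg fun h => hc ((dvd_mul_left m r).trans h))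
      obtain ⟨a3, a4⟩ := mem_Ioc.1 a1
      exact ⟨a1, n / m, mem_Ioc.2 ⟨Nat.div_pos (Nat.le_of_dvd a3 a2) hm0,
        (Nat.div_le_self _ _).trans a4⟩, Nat.div_mul_cancel a2⟩
  rw [sum_congr rfl h1, sum_comm, sum_congr rfl h2, sum_comm]
  simp only [← sum_mul]
  rw [sum_congr rfl fun n hn => by rw [mob_cast hn (mem_Ioc.1 hr).1]]
  simp only [ite_mul, one_mul, zero_mul]
  rw [sum_ite_eq', if_pos hr]

lemma diag {Z : ℕ} {y y' : ℕ → ℝ} (hy : ∀ n, y n ≠ 0 → n ∈ Ioc 0 Z)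
    (hy' : ∀ n, y' n ≠ 0 → n ∈ Ioc 0 Z) :
    QF Z (lam Z y) (lam Z y') (fun D => (D : ℝ)⁻¹) =
      ∑ r ∈ Ioc 0 Z, r.totient * (y r * y' r) := by
  rw [sum_congr rfl fun r hr => by rw [← lam_inv hy hr, ← lam_inv hy' hr, sum_mul_sum]]
  simp only [mul_sum, QF]
  symm
  rw [sum_comm]
  refine sum_congr rfl fun d hd => ?_
  rw [sum_comm]
  refine sum_congr rfl fun e he => ?_
  obtain ⟨a1, a2⟩ := mem_Ioc.1 hd
  have a3 := (mem_Ioc.1 he).1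
  have hg := Nat.gcd_pos_of_pos_left e a1
  have e1 : (Ioc 0 Z).filter (· ∣ Nat.gcd d e) = (Nat.gcd d e).divisors := by
    ext j
    simp only [mem_filter, mem_Ioc, Nat.mem_divisors]
    exact ⟨fun h => ⟨h.2, hg.ne'⟩, fun h => ⟨⟨Nat.pos_of_dvd_of_pos h.1 hg,
      (Nat.le_of_dvd a1 (h.1.trans (Nat.gcd_dvd_left _ _))).trans a2⟩, h.1⟩⟩
  have e2 : ∀ r : ℕ, r.totient * ((if r ∣ d then lam Z y d / d else 0) *
      (if r ∣ e then lam Z y' e / e else 0)) =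
      (if r ∣ Nat.gcd d e then (r.totient : ℝ) else 0) * (lam Z y d / d * (lam Z y' e / e)) := by
    intro r
    by_cases a : r ∣ d <;> by_cases b : r ∣ e <;> simp [Nat.dvd_gcd_iff, a, b]
  rw [sum_congr rfl fun r _ => e2 r, ← sum_mul, ← sum_filter, e1, ← Nat.cast_sum, Nat.sum_totient]
  have e3 : (Nat.gcd d e : ℝ) * Nat.lcm d e = d * e := by exact_mod_cast Nat.gcd_mul_lcm d e
  have b1 : (d : ℝ) ≠ 0 := by exact_mod_cast a1.ne'
  have b2 : (e : ℝ) ≠ 0 := by exact_mod_cast a3.ne'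
  have b3 : (Nat.lcm d e : ℝ) ≠ 0 := by exact_mod_cast (Nat.lcm_pos a1 a3).ne'
  field_simp
  linear_combination lam Z y d * lam Z y' e * e3

lemma aa_sifted {Z n : ℕ} (hZ : 1 ≤ Z) (y : ℕ → ℝ) (hn : ∀ p, p.Prime → p ≤ Z → ¬ p ∣ n) :
    aa Z (lam Z y) n = ∑ m ∈ Ioc 0 Z, μ m * y m := by
  rw [aa, sum_eq_single_of_mem 1 (mem_Ioc.2 ⟨one_pos, hZ⟩)]
  · simp [lam]
  · intro d hd h1
    obtain ⟨p, hp, hpd⟩ := Nat.exists_prime_and_dvd h1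
    obtain ⟨a1, a2⟩ := mem_Ioc.1 hd
    rw [if_neg fun h => hn p hp ((Nat.le_of_dvd a1 hpd).trans a2) (hpd.trans h), mul_zero]

lemma QF_split {Z : ℕ} {l l' c r : ℕ → ℝ} {m : ℝ}
    (h : ∀ d ∈ Ioc 0 Z, ∀ e ∈ Ioc 0 Z, l d ≠ 0 → l' e ≠ 0 →
      c (Nat.lcm d e) = m * (Nat.lcm d e : ℝ)⁻¹ + r (Nat.lcm d e)) :
    QF Z l l' c = m * QF Z l l' (fun D => (D : ℝ)⁻¹) + QF Z l l' r := by
  simp only [QF, mul_sum, ← sum_add_distrib]
  refine sum_congr rfl fun d hd => sum_congr rfl fun e he => ?_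
  by_cases a : l d = 0
  · simp [a]
  by_cases b : l' e = 0
  · simp [b]
  rw [h d hd e he a b]
  ring

lemma QF_le {Z : ℕ} {l l' r : ℕ → ℝ} {M s s' : ℝ} (hM : 0 ≤ M)
    (h : ∀ d ∈ Ioc 0 Z, ∀ e ∈ Ioc 0 Z, l d ≠ 0 → l' e ≠ 0 → |r (Nat.lcm d e)| ≤ M)
    (hs : ∑ d ∈ Ioc 0 Z, |l d| ≤ s) (hs' : ∑ d ∈ Ioc 0 Z, |l' d| ≤ s') :
    |QF Z l l' r| ≤ s * s' * M := by
  have h0 := sum_nonneg fun d (_ : d ∈ Ioc 0 Z) => abs_nonneg (l' d)
  have h1 := sum_nonneg fun d (_ : d ∈ Ioc 0 Z) => abs_nonneg (l d)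
  refine le_trans ?_ (mul_le_mul_of_nonneg_right (mul_le_mul hs hs' h0 (h1.trans hs)) hM)
  rw [sum_mul_sum, sum_mul]
  refine (abs_sum_le_sum_abs _ _).trans (sum_le_sum fun d hd => ?_)
  rw [sum_mul]
  refine (abs_sum_le_sum_abs _ _).trans (sum_le_sum fun e he => ?_)
  by_cases a : l d = 0
  · simp [a]
  by_cases b : l' e = 0
  · simp [b]
  rw [abs_mul, abs_mul]
  exact mul_le_mul_of_nonneg_left (h d hd e he a b) (by positivity)

lemma lam_ne {Z : ℕ} {y : ℕ → ℝ} {d : ℕ} (h : lam Z y d ≠ 0) : ∃ m, 0 < m ∧ y (d * m) ≠ 0 := by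
  obtain ⟨m, hm, h1⟩ := exists_ne_zero_of_sum_ne_zero (right_ne_zero_of_mul h)
  exact ⟨m, (mem_Ioc.1 hm).1, right_ne_zero_of_mul h1⟩

lemma abs_mu (m : ℕ) : |(μ m : ℝ)| ≤ 1 := by
  exact_mod_cast ArithmeticFunction.abs_moebius_le_one

lemma lam_l1 {Z : ℕ} {y : ℕ → ℝ} (hy : ∀ n, y n ≠ 0 → n ∈ Ioc 0 Z) :
    ∑ d ∈ Ioc 0 Z, |lam Z y d| ≤ ∑ n ∈ Ioc 0 Z, |y n| * ∑ d ∈ n.divisors, (d : ℝ) := by
  have h1 : ∀ d ∈ Ioc 0 Z, |lam Z y d| ≤
      ∑ n ∈ Ioc 0 Z, |y n| * if d ∣ n then (d : ℝ) else 0 := by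
    intro d hd
    have hd0 := (mem_Ioc.1 hd).1
    rw [sum_reidx (Ioc 0 Z) (Ioc 0 Z) (e := fun m => d * m)
      (F := fun n => |y n| * if d ∣ n then (d : ℝ) else 0), lam, mul_sum]
    · refine (abs_sum_le_sum_abs _ _).trans (sum_le_sum fun m _ => ?_)
      rw [if_pos (dvd_mul_right _ _), abs_mul, abs_mul, Nat.abs_cast, mul_comm]
      exact mul_le_mul_of_nonneg_right (mul_le_of_le_one_left (abs_nonneg _) (abs_mu m))
        (by positivity)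
    · exact fun a b h => Nat.eq_of_mul_eq_mul_left hd0 h
    · intro n hn
      have a1 := hy n (abs_ne_zero.1 (left_ne_zero_of_mul hn))
      have a2 : d ∣ n := by
        by_contra hc
        exact right_ne_zero_of_mul hn (if_neg hc)
      obtain ⟨a3, a4⟩ := mem_Ioc.1 a1
      exact ⟨a1, n / d, mem_Ioc.2 ⟨Nat.div_pos (Nat.le_of_dvd a3 a2) hd0,
        (Nat.div_le_self _ _).trans a4⟩, Nat.mul_div_cancel' a2⟩
  refine (sum_le_sum h1).trans ?_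
  rw [sum_comm]
  refine sum_le_sum fun n hn => ?_
  rw [← mul_sum, ← sum_filter]
  refine mul_le_mul_of_nonneg_left (sum_le_sum_of_subset_of_nonneg (fun d hd => ?_)
    fun _ _ _ => by positivity) (abs_nonneg _)
  exact Nat.mem_divisors.2 ⟨(mem_filter.1 hd).2, (mem_Ioc.1 hn).1.ne'⟩

end Pool.Agent.P.MP_26a8c3_nt.Inf
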