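import Pool.Agent.P.MP_26a8c3_nt.Inf.Sv1

/-! The two systems of weights and their numerical data. -/

namespace Pool.Agent.P.MP_26a8c3_nt.Inf

open Finset
open scoped ArithmeticFunction.Moebius ArithmeticFunction.Omega

/-- The Liouville function on the odd integers. -/
def fo (n : ℕ) : ℝ := if Odd n then (-1) ^ Ω n else 0

lemma fo_Mf : Mf fo := by
  refine ⟨fun a b => ?_, fun n => ?_, by simp [fo], fun p hp h2 => ?_⟩
  · unfold fo
    by_cases ha : Odd a <;> by_cases hb : Odd b <;> simp only [Nat.odd_mul, ha, hb, and_self,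
      and_true, and_false, if_true, if_false, mul_zero, zero_mul]
    rw [ArithmeticFunction.cardFactors_mul ha.pos.ne' hb.pos.ne', pow_add]
  · unfold fo
    split_ifs <;> simp
  · rw [fo, if_pos (hp.odd_of_ne_two h2), ArithmeticFunction.cardFactors_apply_prime hp, pow_one]

lemma mu_fo (m : ℕ) : μ m * fo m = if Odd m ∧ Squarefree m then 1 else 0 := by
  unfold fo
  by_cases a : Squarefree m
  · rw [ArithmeticFunction.moebius_apply_of_squarefree a]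
    by_cases b : Odd m
    · simp [a, b, ← mul_pow]
    · simp [b]
  · simp [ArithmeticFunction.moebius_eq_zero_of_not_squarefree a, a]

lemma fo_odd {n : ℕ} (h : fo n ≠ 0) : Odd n := by
  by_contra hc
  exact h (if_neg hc)

/-- A trapezoidal cutoff. -/
noncomputable def kap (η s : ℝ) : ℝ := max 0 (min 1 (min (s / η - 1) (2 - 2 * s)))

lemma kap_cont (η : ℝ) : Continuous (kap η) := by unfold kap; fun_prop

lemma kap_nonneg (η s : ℝ) : 0 ≤ kap η s := le_max_left _ _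

lemma kap_le (η s : ℝ) : kap η s ≤ 1 := max_le zero_le_one (min_le_left _ _)

lemma kap_ne {η s : ℝ} (hη : 0 < η) (h : kap η s ≠ 0) : η < s ∧ s < 1 := by
  have h1 := (kap_nonneg η s).lt_of_ne' h
  simp only [kap, lt_max_iff, lt_irrefl, false_or, lt_min_iff, sub_pos, one_lt_div hη] at h1
  exact ⟨h1.2.1, by linarith [h1.2.2]⟩

lemma kap_one {η s : ℝ} (hη : 0 < η) (h1 : 2 * η ≤ s) (h2 : s ≤ 1 / 2) : kap η s = 1 := by
  have : 2 ≤ s / η := (le_div_iff₀ hη).2 h1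
  rw [kap, min_eq_left (le_min (by linarith) (by linarith)), max_eq_right zero_le_one]

/-- The odd squarefree integers up to `z`. -/
def T0 (z : ℕ) : Finset ℕ := (Ioc 0 z).filter fun n => Squarefree n ∧ Nat.Coprime n 2

/-- Selberg's diagonal coordinates. -/
noncomputable def y1 (z r : ℕ) : ℝ := if r ∈ T0 z then μ r / r.totient else 0

/-- Selberg's normalising sum. -/
noncomputable def G0 (z : ℕ) : ℝ := ∑ r ∈ T0 z, (r.totient : ℝ)⁻¹

lemma T0_sum (z : ℕ) (F : Finset ℕ → ℝ) : ∑ n ∈ T0 z, F n.primeFactors = ∑ U ∈ LL 2 z, F U := by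
  refine sum_nbij' Nat.primeFactors (fun U => ∏ p ∈ U, p) (fun n hn => ?_) (fun U hU => ?_)
    (fun n hn => ?_) (fun U hU => ?_) fun _ _ => rfl
  · obtain ⟨a, -, c⟩ := mem_filter.1 hn
    exact primeFactors_mem_LL (mem_filter.2 ⟨a, c⟩)
  · obtain ⟨a, b⟩ := mem_filter.1 (prod_mem hU)
    refine mem_filter.2 ⟨a, ?_, b⟩
    refine squarefree_prod_of_pairwise_isCoprime (fun p hp q hq hpq => ?_)
      fun p hp => (QQ_prop p (LL_sub U hU hp)).1.squarefree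
    exact Nat.coprime_iff_isRelPrime.1 ((Nat.coprime_primes (QQ_prop p (LL_sub U hU hp)).1
      (QQ_prop q (LL_sub U hU hq)).1).2 hpq)
  · exact Nat.prod_primeFactors_of_squarefree (mem_filter.1 hn).2.1
  · exact Nat.primeFactors_prod fun p hp => (QQ_prop p (LL_sub U hU hp)).1

lemma totient_sqfree {n : ℕ} (h : Squarefree n) :
    (n.totient : ℝ) = ∏ p ∈ n.primeFactors, ((p : ℝ) - 1) := by
  have h1 := Nat.totient_mul_prod_primeFactors n
  rw [Nat.prod_primeFactors_of_squarefree h, mul_comm] at h1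
  rw [Nat.eq_of_mul_eq_mul_left (Nat.pos_of_ne_zero h.ne_zero) h1, Nat.cast_prod]
  exact prod_congr rfl fun p hp => by
    rw [Nat.cast_sub (Nat.prime_of_mem_primeFactors hp).one_le, Nat.cast_one]

lemma G0_ge (z : ℕ) : HH 2 z ≤ G0 z := by
  refine (HH_le 2 z).trans (le_of_eq ?_)
  rw [← T0_sum z fun U => ∏ p ∈ U, ((p : ℝ) - 1)⁻¹]
  exact sum_congr rfl fun n hn => by
    rw [totient_sqfree (mem_filter.1 hn).2.1, prod_inv_distrib]

lemma y1_ne {z r : ℕ} (h : y1 z r ≠ 0) : r ∈ Ioc 0 z ∧ Odd r := by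
  have : r ∈ T0 z := by
    by_contra hc
    exact h (if_neg hc)
  exact ⟨(mem_filter.1 this).1, Nat.coprime_two_right.1 (mem_filter.1 this).2.2⟩

lemma sum_T0 {z Z : ℕ} (h : z ≤ Z) (F : ℕ → ℝ) :
    ∑ r ∈ Ioc 0 Z, (if r ∈ T0 z then F r else 0) = ∑ r ∈ T0 z, F r := by
  rw [sum_ite_mem, inter_eq_right.2
    (show T0 z ⊆ Ioc 0 Z from (filter_subset _ _).trans (Ioc_subset_Ioc_right h))]

lemma mu_sq {z r : ℕ} (h : r ∈ T0 z) : (μ r : ℝ) * μ r = 1 := by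
  rw [← sq]
  exact_mod_cast ArithmeticFunction.moebius_sq_eq_one_of_squarefree (mem_filter.1 h).2.1

lemma y1_mu {z Z : ℕ} (h : z ≤ Z) : ∑ m ∈ Ioc 0 Z, μ m * y1 z m = G0 z := by
  simp only [y1, mul_ite, mul_zero]
  rw [sum_T0 h]
  exact sum_congr rfl fun r hr => by rw [← mul_div_assoc, mu_sq hr, one_div]

lemma y1_sq {z Z : ℕ} (h : z ≤ Z) : ∑ r ∈ Ioc 0 Z, r.totient * (y1 z r * y1 z r) = G0 z := by
  rw [G0, ← sum_T0 h]
  refine sum_congr rfl fun r hr => ?_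
  unfold y1
  split_ifs with c
  · have : (r.totient : ℝ) ≠ 0 := by exact_mod_cast (Nat.totient_pos.2 (mem_Ioc.1 hr).1).ne'
    rw [div_mul_div_comm, mu_sq c]
    field_simp
  · simp

lemma y1_l1 {z Z : ℕ} (h : z ≤ Z) : ∑ d ∈ Ioc 0 Z, |lam Z (y1 z) d| ≤ Real.exp 8 * z := by
  refine (lam_l1 fun n hn => Ioc_subset_Ioc_right h (y1_ne hn).1).trans ?_
  have h1 : ∑ n ∈ Ioc 0 Z, |y1 z n| * ∑ d ∈ n.divisors, (d : ℝ) =
      ∑ U ∈ LL 2 z, ∏ p ∈ U, (((p : ℝ) + 1) * ((p : ℝ) - 1)⁻¹) := by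
    rw [← T0_sum z fun U => ∏ p ∈ U, (((p : ℝ) + 1) * ((p : ℝ) - 1)⁻¹), ← sum_T0 h]
    refine sum_congr rfl fun n _ => ?_
    unfold y1
    split_ifs with c
    · have a1 := (mem_filter.1 c).2.1
      have a2 := ArithmeticFunction.isMultiplicative_id.prodPrimeFactors_one_add_of_squarefree a1
      simp only [ArithmeticFunction.id_apply] at a2
      have a3 : |(μ n : ℝ)| = 1 := by
        exact_mod_cast ArithmeticFunction.abs_moebius_eq_one_of_squarefree a1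
      rw [abs_div, a3, Nat.abs_cast, ← Nat.cast_sum, ← a2, totient_sqfree a1, prod_mul_distrib,
        prod_inv_distrib]
      push_cast
      simp only [add_comm (1 : ℝ)]
      ring
    · simp
  have h2 : (cop 2 0 z : ℝ) ≤ z := by
    have := card_filter_le (Ioc 0 z) fun m => Nat.Coprime m 2
    rw [Nat.card_Ioc] at this
    exact_mod_cast this
  have h3 : ∏ p ∈ QQ 2 z, (1 + 2 / ((p : ℝ) * (p - 1))) ≤ Real.exp 8 := by
    refine le_trans ?_ (Real.exp_le_exp.2 (show ∑ p ∈ QQ 2 z, 4 * ((p : ℝ) ^ 2)⁻¹ ≤ 8 by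
      rw [← mul_sum]; linarith [sum_inv_sq_le (QQ 2 z)]))
    rw [Real.exp_sum]
    refine prod_le_prod (fun p hp => ?_) fun p hp => ?_
    · have := two_le_cast hp
      have : (0 : ℝ) < p - 1 := by linarith
      positivity
    · have a1 := two_le_cast hp
      have a2 : 2 / ((p : ℝ) * (p - 1)) ≤ 4 * ((p : ℝ) ^ 2)⁻¹ := by
        rw [← div_eq_mul_inv, div_le_div_iff₀ (mul_pos (by linarith) (by linarith))
          (by positivity)]
        nlinarith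
      linarith [Real.add_one_le_exp (4 * ((p : ℝ) ^ 2)⁻¹)]
  rw [h1]
  refine (sig_le 2 z).trans ?_
  nlinarith [mul_le_mul_of_nonneg_left h3 (Nat.cast_nonneg (α := ℝ) z)]

/-- The diagonal coordinates of the long weights. -/
noncomputable def y2 (η z : ℝ) (r : ℕ) : ℝ := fo r * kap η (r / z) / r

lemma y2_ne {η z : ℝ} (hη : 0 < η) (hz : 0 < z) {r : ℕ} (h : y2 η z r ≠ 0) :
    Odd r ∧ η * z < r ∧ (r : ℝ) < z := by
  have h1 := (div_ne_zero_iff.1 h).1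
  have h2 := kap_ne hη (right_ne_zero_of_mul h1)
  exact ⟨fo_odd (left_ne_zero_of_mul h1), (lt_div_iff₀ hz).1 h2.1, (div_lt_one hz).1 h2.2⟩

lemma y2_mem {η z : ℝ} (hη : 0 < η) (hz : 0 < z) (r : ℕ) (h : y2 η z r ≠ 0) : r ∈ Ioc 0 ⌊z⌋₊ :=
  mem_seg.2 ⟨(y2_ne hη hz h).1.pos, (y2_ne hη hz h).2.2.le⟩

lemma abs_y2 (η z : ℝ) (r : ℕ) : |y2 η z r| ≤ (r : ℝ)⁻¹ := by
  rw [y2, abs_div, abs_mul, Nat.abs_cast, abs_of_nonneg (kap_nonneg _ _), div_eq_mul_inv]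
  exact mul_le_of_le_one_left (by positivity)
    (mul_le_one₀ (fo_Mf.bd r) (kap_nonneg _ _) (kap_le _ _))

lemma y2_l1 {η z : ℝ} (hη : 0 < η) (hz : 0 < z) :
    ∑ d ∈ Ioc 0 ⌊z⌋₊, |lam ⌊z⌋₊ (y2 η z) d| ≤ 2 * z := by
  refine (lam_l1 (y2_mem hη hz)).trans ?_
  have h1 : ∀ n ∈ Ioc 0 ⌊z⌋₊, |y2 η z n| * ∑ d ∈ n.divisors, (d : ℝ) ≤
      ∑ d ∈ Ioc 0 ⌊z⌋₊, (d : ℝ)⁻¹ * if d ∣ n then 1 else 0 := by
    intro n hn
    obtain ⟨a1, a2⟩ := mem_Ioc.1 hn
    refine (mul_le_mul_of_nonneg_right (abs_y2 η z n) (by positivity)).trans ?_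
    simp only [mul_ite, mul_one, mul_zero]
    rw [← sum_filter, ← Nat.sum_div_divisors n fun d => (d : ℝ), mul_sum]
    refine le_trans (le_of_eq (sum_congr rfl fun d hd => ?_))
      (sum_le_sum_of_subset_of_nonneg (fun d hd => ?_) fun _ _ _ => by positivity)
    · have b1 : (d : ℝ) ≠ 0 := by exact_mod_cast (Nat.pos_of_mem_divisors hd).ne'
      have b2 : (n : ℝ) ≠ 0 := by exact_mod_cast a1.ne'
      rw [Nat.cast_div (Nat.dvd_of_mem_divisors hd) b1]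
      field_simp
    · exact mem_filter.2 ⟨mem_Ioc.2 ⟨Nat.pos_of_mem_divisors hd,
        (Nat.divisor_le hd).trans a2⟩, Nat.dvd_of_mem_divisors hd⟩
  refine (sum_le_sum h1).trans ?_
  rw [sum_comm]
  simp only [← mul_sum]
  refine (sum_le_sum fun d _ => mul_le_mul_of_nonneg_left (seg_dvd hz.le d)
    (by positivity)).trans ?_
  rw [sum_congr rfl fun (d : ℕ) _ => show (d : ℝ)⁻¹ * (z / d) = ((d : ℝ) ^ 2)⁻¹ * z by ring,
    ← sum_mul]
  exact mul_le_mul_of_nonneg_right (sum_inv_sq_le _) hz.le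

/-- The harmonic sum over the odd integers of an interval. -/
noncomputable def HO (a b : ℕ) : ℝ := ∑ m ∈ Ioc a b, if Odd m then (m : ℝ)⁻¹ else 0

lemma HO_HH (n : ℕ) : HO 0 n = HH 2 n := by
  rw [HO, HH, sum_filter]
  simp only [Nat.coprime_two_right]

lemma HO_bounds (n : ℕ) : Real.log (n + 1 : ℕ) / 2 ≤ HO 0 n ∧ HO 0 n ≤ 2 + Real.log n / 2 := by
  have h1 : ∀ n : ℕ, Real.log (n + 1 : ℕ) ≤ ∑ m ∈ Ioc 0 n, (m : ℝ)⁻¹ ∧
      ∑ m ∈ Ioc 0 n, (m : ℝ)⁻¹ ≤ 1 + Real.log n := fun n => by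
    have a1 := log_add_one_le_harmonic n
    have a2 := harmonic_le_one_add_log n
    simp only [harmonic_eq_sum_Icc, Rat.cast_sum, Rat.cast_inv, Rat.cast_natCast] at a1 a2
    exact ⟨a1, a2⟩
  have h2 : ∑ m ∈ Ioc 0 n, (m : ℝ)⁻¹ = HO 0 n + (∑ m ∈ Ioc 0 (n / 2), (m : ℝ)⁻¹) / 2 := by
    have a1 := sum_reidx (Ioc 0 n) (Ioc 0 (n / 2)) (e := fun m => 2 * m)
      (F := fun m => if m ∈ Ioc 0 n ∧ Even m then (m : ℝ)⁻¹ else 0)
      (fun a b h => by simpa using h) fun m hm => by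
        have b1 : m ∈ Ioc 0 n ∧ Even m := by
          by_contra hc
          exact hm (if_neg hc)
        obtain ⟨b2, c, rfl⟩ := b1
        exact ⟨b2, c, by simp only [mem_Ioc] at b2 ⊢; omega, by ring⟩
    rw [sum_div, sum_congr rfl fun (m : ℕ) hm => show (m : ℝ)⁻¹ / 2 =
      if 2 * m ∈ Ioc 0 n ∧ Even (2 * m) then ((2 * m : ℕ) : ℝ)⁻¹ else 0 by
        rw [if_pos ⟨by simp only [mem_Ioc] at hm ⊢; omega, even_two_mul m⟩]; push_cast; ring,
      ← a1, HO, ← sum_add_distrib]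
    refine sum_congr rfl fun m hm => ?_
    rcases Nat.even_or_odd m with c | c
    · rw [if_neg (Nat.not_odd_iff_even.2 c), if_pos ⟨hm, c⟩, zero_add]
    · rw [if_pos c, if_neg fun h => Nat.not_even_iff_odd.2 c h.2, add_zero]
  have h3 : ∑ m ∈ Ioc 0 (n / 2), (m : ℝ)⁻¹ ≤ ∑ m ∈ Ioc 0 n, (m : ℝ)⁻¹ :=
    sum_le_sum_of_subset_of_nonneg (Ioc_subset_Ioc_right (Nat.div_le_self _ _))
      fun _ _ _ => by positivity
  refine ⟨by linarith [(h1 n).1], ?_⟩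
  rcases n.eq_zero_or_pos with rfl | hn
  · simp [HO]
  have h4 : Real.log n ≤ Real.log 2 + Real.log (n / 2 + 1 : ℕ) := by
    rw [← Real.log_mul (by norm_num) (by positivity)]
    exact Real.log_le_log (by exact_mod_cast hn) (by exact_mod_cast (by omega))
  linarith [(h1 n).2, (h1 (n / 2)).1, Real.log_two_lt_d9]

lemma HO_ge0 {x : ℝ} (hx : 0 < x) : Real.log x / 2 ≤ HO 0 ⌊x⌋₊ := by
  have := Real.log_le_log hx (Nat.lt_floor_add_one x).le
  have h2 := (HO_bounds ⌊x⌋₊).1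
  push_cast at h2
  linarith

lemma HO_le0 {x : ℝ} (hx : 1 ≤ x) : HO 0 ⌊x⌋₊ ≤ 2 + Real.log x / 2 := by
  have := Real.log_le_log (by exact_mod_cast Nat.floor_pos.2 hx) (Nat.floor_le (by linarith : 0 ≤ x))
  linarith [(HO_bounds ⌊x⌋₊).2]

lemma HO_sub {a b : ℕ} (h : a ≤ b) : HO a b = HO 0 b - HO 0 a := by
  rw [HO, HO, HO, ← sum_Ioc_consecutive _ (Nat.zero_le a) h, add_sub_cancel_left]

lemma HO_le {α β : ℝ} (h0 : 0 < α) (h : α ≤ β) : HO ⌊α⌋₊ ⌊β⌋₊ ≤ 2 + Real.log (β / α) / 2 := by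
  have h1 := Real.log_le_log h0 h
  rw [Real.log_div (by linarith) h0.ne']
  by_cases c : 1 ≤ β
  · rw [HO_sub (Nat.floor_le_floor h)]
    linarith [HO_ge0 h0, HO_le0 c]
  · rw [Nat.floor_eq_zero.2 (not_le.1 c), HO, Ioc_eq_empty (by simp), sum_empty]
    linarith

lemma HO_ge {α β : ℝ} (h0 : 1 ≤ α) (h : α ≤ β) : Real.log (β / α) / 2 - 2 ≤ HO ⌊α⌋₊ ⌊β⌋₊ := by
  rw [Real.log_div (by linarith) (by linarith), HO_sub (Nat.floor_le_floor h)]
  linarith [HO_ge0 (x := β) (by linarith), HO_le0 h0]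

lemma top_le {η z : ℝ} (hη : 0 < η) (hη1 : η ≤ 1) (hz : 0 < z) {F : ℕ → ℝ}
    (h1 : ∀ r, F r ≤ (r : ℝ)⁻¹) (h2 : ∀ r, F r ≠ 0 → y2 η z r ≠ 0) :
    ∑ r ∈ Ioc 0 ⌊z⌋₊, F r ≤ 2 - Real.log η / 2 := by
  have h3 := HO_le (α := η * z) (β := z) (by positivity) (by nlinarith)
  rw [show z / (η * z) = η⁻¹ by field_simp, Real.log_inv, HO] at h3
  refine le_trans ?_ (h3.trans (le_of_eq (by ring)))
  rw [← sum_filter_ne_zero]
  refine le_trans (sum_le_sum fun r hr => ?_) (sum_le_sum_of_subset_of_nonneg (fun r hr => ?_)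
    fun _ _ _ => by positivity)
  · rw [if_pos (y2_ne hη hz (h2 r (mem_filter.1 hr).2)).1]
    exact h1 r
  · exact mem_Ioc.2 ⟨(Nat.floor_lt (by positivity)).2 (y2_ne hη hz (h2 r (mem_filter.1 hr).2)).2.1,
      (mem_Ioc.1 (mem_filter.1 hr).1).2⟩

lemma N2_le {η z : ℝ} (hη : 0 < η) (hη1 : η ≤ 1) (hz : 0 < z) :
    ∑ r ∈ Ioc 0 ⌊z⌋₊, r.totient * (y2 η z r * y2 η z r) ≤ 2 - Real.log η / 2 := by
  refine top_le hη hη1 hz (fun r => ?_) fun r hr => left_ne_zero_of_mul (right_ne_zero_of_mul hr)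
  have a1 := abs_y2 η z r
  have a2 : (r.totient : ℝ) ≤ r := by exact_mod_cast Nat.totient_le r
  rw [← abs_mul_abs_self]
  calc _ ≤ (r : ℝ) * ((r : ℝ)⁻¹ * (r : ℝ)⁻¹) := by gcongr
    _ ≤ _ := by
      rw [← mul_assoc]
      exact mul_le_of_le_one_left (by positivity) mul_inv_le_one

lemma h1_le {η z : ℝ} (hη : 0 < η) (hη1 : η ≤ 1) (hz : 0 < z) :
    ∑ r ∈ Ioc 0 ⌊z⌋₊, μ r * y2 η z r ≤ 2 - Real.log η / 2 := by
  refine top_le hη hη1 hz (fun r => (le_abs_self _).trans ?_) fun r hr => right_ne_zero_of_mul hr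
  rw [abs_mul]
  exact (mul_le_of_le_one_left (abs_nonneg _) (abs_mu r)).trans (abs_y2 η z r)

lemma sum_odd_sq (n : ℕ) : ∑ i ∈ Ioc 0 n, (((2 * i + 1 : ℕ) : ℝ) ^ 2)⁻¹ ≤ 1 / 4 := by
  have : ∑ i ∈ Ioc 0 n, (((2 * i + 1 : ℕ) : ℝ) ^ 2)⁻¹ ≤ 1 / 4 - 1 / (4 * (n + 1)) := by
    induction n with
    | zero => simp
    | succ n ih =>
      rw [sum_Ioc_succ_top (Nat.zero_le n)]
      have : (((2 * (n + 1) + 1 : ℕ) : ℝ) ^ 2)⁻¹ ≤
          1 / (4 * (n + 1)) - 1 / (4 * ((n + 1 : ℕ) + 1)) := by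
        push_cast
        rw [div_sub_div _ _ (by positivity) (by positivity), ← one_div,
          div_le_div_iff₀ (by positivity) (by positivity)]
        have : (0 : ℝ) ≤ n := by positivity
        nlinarith [sq_nonneg (n : ℝ)]
      linarith
  exact this.trans (sub_le_self _ (by positivity))

lemma h1_ge {η z : ℝ} (hη : 0 < η) (hη1 : 4 * η ≤ 1) (hz : 1 ≤ 2 * η * z) :
    -(3 / 8 * Real.log (4 * η)) - 5 / 2 ≤ ∑ r ∈ Ioc 0 ⌊z⌋₊, μ r * y2 η z r := by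
  have hz0 : 0 < z := by
    by_contra hc
    nlinarith [mul_nonneg hη.le (neg_nonneg.2 (not_lt.1 hc))]
  have hab : 2 * η * z ≤ z / 2 := by nlinarith
  have e0 : Real.log (z / 2 / (2 * η * z)) = -Real.log (4 * η) := by
    rw [← Real.log_inv]
    congr 1
    field_simp
    norm_num
  have e1 : ∀ r, μ r * y2 η z r = (if Odd r ∧ Squarefree r then 1 else 0) * kap η (r / z) / r := by
    intro r
    rw [y2, ← mu_fo]
    ring
  have h1 : ∑ r ∈ Ioc ⌊2 * η * z⌋₊ ⌊z / 2⌋₊, ((if Odd r then (r : ℝ)⁻¹ else 0) -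
      ∑ i ∈ Ioc 0 ⌊z⌋₊, if Odd r ∧ (2 * i + 1) ^ 2 ∣ r then (r : ℝ)⁻¹ else 0) ≤
      ∑ r ∈ Ioc 0 ⌊z⌋₊, μ r * y2 η z r := by
    have hsub : Ioc ⌊2 * η * z⌋₊ ⌊z / 2⌋₊ ⊆ Ioc 0 ⌊z⌋₊ :=
      Ioc_subset_Ioc (Nat.zero_le _) (Nat.floor_le_floor (by linarith))
    refine le_trans (sum_le_sum fun r hr => ?_) (sum_le_sum_of_subset_of_nonneg hsub
      fun r _ _ => by rw [e1]; have := kap_nonneg η (r / z); positivity)
    obtain ⟨a1, a2⟩ := mem_Ioc.1 hr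
    have a3 := (Nat.floor_lt (by positivity)).1 a1
    have a4 := (Nat.le_floor_iff (by positivity)).1 a2
    rw [e1, kap_one hη ((le_div_iff₀ hz0).2 a3.le) ((div_le_iff₀ hz0).2 (by linarith)), mul_one]
    have a5 : 0 ≤ ∑ i ∈ Ioc 0 ⌊z⌋₊, if Odd r ∧ (2 * i + 1) ^ 2 ∣ r then (r : ℝ)⁻¹ else 0 :=
      sum_nonneg fun _ _ => by positivity
    by_cases c : Odd r
    swap
    · simp [c]
    by_cases c2 : Squarefree r
    · rw [if_pos c, if_pos ⟨c, c2⟩, one_div]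
      linarith
    rw [if_pos c, if_neg fun h => c2 h.2, zero_div, sub_nonpos]
    rw [Nat.squarefree_iff_prime_squarefree] at c2
    push Not at c2
    obtain ⟨p, hp, hpr⟩ := c2
    obtain ⟨i, rfl⟩ := Odd.of_dvd_nat c ((dvd_mul_right p p).trans hpr)
    have a6 := Nat.le_of_dvd c.pos ((dvd_mul_right _ _).trans hpr)
    have a7 := (mem_Ioc.1 (hsub hr)).2
    have a8 := hp.two_le
    refine le_trans (le_of_eq ?_) (single_le_sum (f := fun i => if Odd r ∧ (2 * i + 1) ^ 2 ∣ r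
      then (r : ℝ)⁻¹ else 0) (fun _ _ => by positivity) (mem_Ioc.2 ⟨by omega, by omega⟩ :
        i ∈ Ioc 0 ⌊z⌋₊))
    rw [if_pos ⟨c, by rwa [sq]⟩]
  have h2 : ∀ i ∈ Ioc 0 ⌊z⌋₊, ∑ r ∈ Ioc ⌊2 * η * z⌋₊ ⌊z / 2⌋₊,
      (if Odd r ∧ (2 * i + 1) ^ 2 ∣ r then (r : ℝ)⁻¹ else 0) ≤
      (((2 * i + 1 : ℕ) : ℝ) ^ 2)⁻¹ * (2 - Real.log (4 * η) / 2) := by
    intro i _
    set q := (2 * i + 1) ^ 2 with hq
    have hq0 : 0 < q := by positivity
    have hq' : (0 : ℝ) < q := by exact_mod_cast hq0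
    have a1 := HO_le (α := 2 * η * z / q) (β := z / 2 / q) (by positivity) (by gcongr)
    rw [div_div_div_cancel_right₀ hq'.ne', e0, Nat.floor_div_natCast, Nat.floor_div_natCast] at a1
    rw [← Nat.cast_pow, ← hq, ← sum_filter, le_inv_mul_iff₀ hq', mul_sum]
    refine le_trans ?_ (a1.trans (le_of_eq (by ring)))
    rw [HO, ← sum_filter]
    refine le_trans (le_of_eq ?_) (sum_le_sum_of_subset_of_nonneg (s := image (fun r => r / q)
      ((Ioc ⌊2 * η * z⌋₊ ⌊z / 2⌋₊).filter fun r => Odd r ∧ q ∣ r)) ?_ fun _ _ _ => by positivity)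
    · rw [sum_image]
      · refine sum_congr rfl fun r hr => ?_
        obtain ⟨-, -, c, rfl⟩ := mem_filter.1 hr
        rw [Nat.mul_div_cancel_left _ hq0]
        push_cast
        rw [mul_inv, mul_inv_cancel_left₀ hq'.ne']
      · intro a ha b hb h
        rw [← Nat.div_mul_cancel (mem_filter.1 ha).2.2, ← Nat.div_mul_cancel (mem_filter.1 hb).2.2]
        exact congrArg (· * q) h
    · intro a ha
      obtain ⟨r, hr, rfl⟩ := mem_image.1 ha
      obtain ⟨b1, b2, c, rfl⟩ := mem_filter.1 hr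
      obtain ⟨b3, b4⟩ := mem_Ioc.1 b1
      rw [Nat.mul_div_cancel_left _ hq0]
      exact mem_filter.2 ⟨mem_Ioc.2 ⟨(Nat.div_lt_iff_lt_mul hq0).2 (by rwa [mul_comm c]),
        (Nat.le_div_iff_mul_le hq0).2 (by rwa [mul_comm c])⟩, (Nat.odd_mul.1 b2).2⟩
  rw [sum_sub_distrib, sum_comm] at h1
  have h3 := sum_le_sum h2
  rw [← sum_mul] at h3
  have h4 : Real.log (4 * η) ≤ 0 := Real.log_nonpos (by positivity) hη1
  have h5 := mul_le_mul_of_nonneg_right (sum_odd_sq ⌊z⌋₊)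
    (show 0 ≤ 2 - Real.log (4 * η) / 2 by linarith)
  have h6 := HO_ge hz hab
  rw [e0, HO] at h6
  linarith

end Pool.Agent.P.MP_26a8c3_nt.Inf
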