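import Pool.Agent.P.MP_26a8c3_nt.Inf.Sv2

/-! The smoothed remainder of the long weights is negligible. -/

namespace Pool.Agent.P.MP_26a8c3_nt.Inf

open Finset Filter Topology
open scoped ArithmeticFunction.Moebius FourierTransform ContDiff
open Hyb (ee ee_add norm_ee)

/-- Bounded by `M`, and tending to zero uniformly in the second variable. -/
def UB (u : ℝ → ℝ → ℂ) (M : ℝ) : Prop :=
  (∀ ε, 0 < ε → ∀ᶠ z : ℝ in atTop, ∀ X, ‖u z X‖ ≤ ε) ∧ ∀ z, 0 < z → ∀ X, ‖u z X‖ ≤ M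

lemma UB.sum {u : ℕ → ℝ → ℝ → ℂ} {M M' : ℝ} (e : M' = 2 * M)
    (h : ∀ k, 0 < k → UB (u k) (M * ((k : ℝ) ^ 2)⁻¹)) :
    UB (fun z X => ∑ k ∈ Ioc 0 ⌊z⌋₊, u k z X) M' := by
  have hM : 0 ≤ M := by simpa using (norm_nonneg _).trans ((h 1 one_pos).2 1 one_pos 0)
  refine ⟨fun ε hε => ?_, fun z hz X => (norm_sum_le _ _).trans ((sum_le_sum fun k hk =>
    (h k (mem_Ioc.1 hk).1).2 z hz X).trans ?_)⟩
  · obtain ⟨K, hK⟩ := exists_nat_gt (2 * M / ε)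
    have hK0 : (0 : ℝ) < K := lt_of_le_of_lt (by positivity) hK
    have h1 := (eventually_all_finset (Ioc 0 K)).2 fun k hk =>
      (h k (mem_Ioc.1 hk).1).1 (ε / 2 / K) (by positivity)
    filter_upwards [h1, eventually_gt_atTop 0] with z hz hz0 X
    rw [← sum_filter_add_sum_filter_not _ (· ≤ K), ← add_halves ε]
    refine norm_add_le_of_le ((norm_sum_le _ _).trans ?_) ((norm_sum_le _ _).trans ?_)
    · refine (sum_le_sum_of_subset_of_nonneg (t := Ioc 0 K) (fun k hk => mem_Ioc.2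
        ⟨(mem_Ioc.1 (mem_filter.1 hk).1).1, (mem_filter.1 hk).2⟩) fun _ _ _ => norm_nonneg _).trans
        ((sum_le_card_nsmul _ _ _ fun k hk => hz k hk X).trans (le_of_eq ?_))
      rw [Nat.card_Ioc, Nat.sub_zero, nsmul_eq_mul, mul_div_cancel₀ _ hK0.ne']
    · refine (sum_le_sum fun k hk => (h k (mem_Ioc.1 (mem_filter.1 hk).1).1).2 z hz0 X).trans ?_
      rw [← mul_sum]
      refine (mul_le_mul_of_nonneg_left (sum_inv_sq_tail _ (Q := K) (by exact_mod_cast hK0.ne')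
        fun k hk => not_le.1 (mem_filter.1 hk).2) hM).trans ?_
      rw [div_lt_iff₀ hε] at hK
      rw [← div_eq_mul_inv, div_le_iff₀ hK0]
      linarith
  · rw [← mul_sum, e, mul_comm]
    exact mul_le_mul_of_nonneg_right (sum_inv_sq_le _) hM

lemma UB.mul {u : ℝ → ℝ → ℂ} {M M' c' : ℝ} {c : ℂ} (h : UB u M) (hc : ‖c‖ ≤ c') (hc1 : c' ≤ 1)
    (e : M' = c' * M) : UB (fun z X => c * u z X) M' := by
  refine ⟨fun ε hε => (h.1 ε hε).mono fun z hz X => ?_, fun z hz X => ?_⟩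
  · rw [norm_mul]
    exact (mul_le_of_le_one_left (norm_nonneg _) (hc.trans hc1)).trans (hz X)
  · rw [norm_mul, e]
    exact mul_le_mul hc (h.2 z hz X) (norm_nonneg _) ((norm_nonneg _).trans hc)

/-- The window of one term. -/
noncomputable def HW (η : ℝ) (w : ℝ → ℂ) (α β γ s t : ℝ) : ℂ :=
  kap η (α * s) * kap η (β * t) * w (γ * (s * t))

lemma HW_ne {η : ℝ} (hη : 0 < η) {w : ℝ → ℂ} {α β γ s t : ℝ} (h : HW η w α β γ s t ≠ 0) :
    (η < α * s ∧ α * s < 1) ∧ η < β * t ∧ β * t < 1 := by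
  have h1 := left_ne_zero_of_mul h
  exact ⟨kap_ne hη (Complex.ofReal_ne_zero.1 (left_ne_zero_of_mul h1)),
    kap_ne hη (Complex.ofReal_ne_zero.1 (right_ne_zero_of_mul h1))⟩

lemma HW_adm {η : ℝ} (hη : 0 < η) {w : ℝ → ℂ} (hw : Continuous w) {α β : ℝ} (γ : ℝ) (hα : 1 ≤ α)
    (hβ : 1 ≤ β) : Adm (HW η w α β γ) (η / (α * β)) 1 := by
  have hk := kap_cont η
  have h1 : ∀ {α β s : ℝ}, 1 ≤ α → 1 ≤ β → η < α * s → α * s < 1 → η / (α * β) ≤ s ∧ s ≤ 1 := by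
    intro α β s a b c d
    have : 0 < s := (mul_pos_iff_of_pos_left (by linarith)).1 (hη.trans c)
    rw [div_le_iff₀ (by positivity)]
    constructor <;> nlinarith [mul_pos this (zero_lt_one.trans_le a)]
  refine ⟨by positivity, by unfold HW; fun_prop, fun s t h => ?_⟩
  obtain ⟨⟨a, b⟩, c, d⟩ := HW_ne hη h
  exact ⟨h1 hα hβ a b, mul_comm α β ▸ h1 hβ hα c d⟩

lemma HW_UB {η M : ℝ} (hη : 0 < η) {w : ℝ → ℂ} (hw : Continuous w)
    (hM : ∀ u, 0 ≤ u → u ≤ 1 → ‖w u‖ ≤ M) {α β γ : ℝ} (hα : 1 ≤ α) (hβ : 1 ≤ β) (hγ0 : 0 ≤ γ)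
    (hγ : γ ≤ α * β) :
    UB (fun z X => BB 1 (FX fo (X / γ)) (HW η w α β γ) z) (M * (α * β)⁻¹) := by
  refine ⟨fun ε hε => (core fo_Mf (HW_adm hη hw γ hα hβ) one_pos hε).mono fun z hz X => hz _,
    fun z hz X => ?_⟩
  have hM0 : 0 ≤ M := (norm_nonneg _).trans (hM 0 le_rfl zero_le_one)
  have ha : 0 < α := by linarith
  have hb : 0 < β := by linarith
  have h1 : ∑ p ∈ box (1 * z) (1 * z), tm 1 (FX fo (X / γ)) (HW η w α β γ) z p =
      ∑ p ∈ box (z / α) (z / β), tm 1 (FX fo (X / γ)) (HW η w α β γ) z (id p) := by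
    refine sum_reidx _ _ Function.injective_id fun p hp => ?_
    have a1 := tm_supp (HW_adm hη hw γ hα hβ) hz hp
    obtain ⟨a2, a3⟩ := mem_box.1 a1
    rw [tm, if_pos Nat.modEq_one] at hp
    obtain ⟨⟨-, b1⟩, -, b2⟩ := HW_ne hη (right_ne_zero_of_mul hp)
    rw [← mul_div_assoc, div_lt_one hz, mul_comm] at b1 b2
    exact ⟨a1, p, mem_box.2 ⟨⟨a2.1, (le_div_iff₀ ha).2 b1.le⟩, a3.1, (le_div_iff₀ hb).2 b2.le⟩, rfl⟩
  simp only
  rw [BB_eq (HW_adm hη hw γ hα hβ) hz, h1, norm_mul, norm_inv, norm_pow, Complex.norm_real,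
    Real.norm_of_nonneg hz.le, inv_mul_le_iff₀ (by positivity)]
  refine (norm_sum_box (by positivity) (by positivity) hM0 fun p hp => ?_).trans
    (le_of_eq (by field_simp))
  obtain ⟨⟨-, a1⟩, -, a2⟩ := mem_box.1 hp
  have a3 : γ * (p.1 / z * (p.2 / z)) ≤ 1 :=
    calc _ ≤ α * β * (z / α / z * (z / β / z)) := by gcongr
      _ = 1 := by field_simp
  rw [id, tm, if_pos Nat.modEq_one, HW, norm_mul, norm_mul, norm_mul, Complex.norm_real,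
    Complex.norm_real, Real.norm_of_nonneg (kap_nonneg _ _), Real.norm_of_nonneg (kap_nonneg _ _)]
  exact (mul_le_of_le_one_left (mul_nonneg (mul_nonneg (kap_nonneg _ _) (kap_nonneg _ _))
    (norm_nonneg _)) (fo_Mf.norm_FX _ _)).trans ((mul_le_of_le_one_left (norm_nonneg _)
    (mul_le_one₀ (kap_le _ _) (kap_nonneg _ _) (kap_le _ _))).trans (hM _ (by positivity) a3))

/-- The bilinear form of the long weights against an oscillating function of the lcm. -/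
noncomputable def Ph (η : ℝ) (w : ℝ → ℂ) (z X : ℝ) : ℂ :=
  ((z : ℂ) ^ 2)⁻¹ * ∑ p ∈ box z z, (lam ⌊z⌋₊ (y2 η z) p.1 * lam ⌊z⌋₊ (y2 η z) p.2 : ℝ) *
    (w (Nat.lcm p.1 p.2 / z ^ 2) * ee (X / Nat.lcm p.1 p.2))

/-- The coefficient in the expansion of the long weights. -/
noncomputable def cf (m : ℕ) : ℝ := μ m * fo m / m

lemma abs_cf (m : ℕ) : |cf m| ≤ (m : ℝ)⁻¹ := by
  rw [cf, abs_div, abs_mul, Nat.abs_cast, div_eq_mul_inv]
  exact mul_le_of_le_one_left (by positivity)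
    (mul_le_one₀ (abs_mu m) (abs_nonneg _) (fo_Mf.bd m))

lemma lam_y2 (η z : ℝ) {d : ℕ} (hd : 0 < d) : lam ⌊z⌋₊ (y2 η z) d =
    ∑ m ∈ Ioc 0 ⌊z⌋₊, cf m * (fo d * kap η (d * m / z)) := by
  rw [lam, mul_sum]
  refine sum_congr rfl fun m hm => ?_
  have a1 : (d : ℝ) ≠ 0 := by exact_mod_cast hd.ne'
  rw [y2, cf, fo_Mf.mul]
  push_cast
  field_simp

lemma lcm_exp {Z d e : ℕ} (hd : d ∈ Ioc 0 Z) (F : ℝ → ℂ) :
    ∑ r ∈ Ioc 0 Z, ∑ j ∈ Ioc 0 Z, (if r * j ∣ Nat.gcd d e then (μ j : ℂ) else 0) *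
      F (d * e / r) = F (Nat.lcm d e) := by
  obtain ⟨a1, a2⟩ := mem_Ioc.1 hd
  have hg := Nat.gcd_pos_of_pos_left e a1
  have hg2 : Nat.gcd d e ∈ Ioc 0 Z := mem_Ioc.2 ⟨hg, (Nat.gcd_le_left e a1).trans a2⟩
  simp only [← sum_mul]
  rw [sum_congr rfl fun r hr => by rw [mob_cast hg2 (mem_Ioc.1 hr).1]]
  simp only [ite_mul, one_mul, zero_mul]
  rw [sum_ite_eq, if_pos hg2, show (d * e / Nat.gcd d e : ℝ) = Nat.lcm d e from
    div_eq_of_eq_mul (by exact_mod_cast hg.ne')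
      (by exact_mod_cast ((mul_comm _ _).trans (Nat.gcd_mul_lcm d e)).symm)]

lemma term_eq {η z : ℝ} (hη : 0 < η) (hz : 0 < z) {w : ℝ → ℂ} (hw : Continuous w) (X : ℝ)
    {r j m m' : ℕ} (hr : 0 < r) (hj : 0 < j) (hm : 0 < m) (hm' : 0 < m') :
    ((z : ℂ) ^ 2)⁻¹ * ∑ p ∈ box z z, (if r * j ∣ Nat.gcd p.1 p.2 then (μ j : ℂ) else 0) *
      (w (p.1 * p.2 / r / z ^ 2) * ee (X / (p.1 * p.2 / r))) *
      ((cf m * (fo p.1 * kap η (p.1 * m / z)) : ℝ) * (cf m' * (fo p.2 * kap η (p.2 * m' / z)) : ℝ)) =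
    (μ j * fo (r * j * (r * j)) * (cf m * cf m') : ℝ) *
      BB 1 (FX fo (X / (r * j ^ 2))) (HW η w (r * j * m) (r * j * m') (r * j ^ 2)) z := by
  have h1 : ∀ {m : ℕ}, 0 < m → (1 : ℝ) ≤ r * j * m := fun h => by
    exact_mod_cast Nat.mul_pos (Nat.mul_pos hr hj) h
  have hq := Nat.mul_pos hr hj
  have hr' : (r : ℝ) ≠ 0 := by exact_mod_cast hr.ne'
  have h2 : ∀ {d m : ℕ}, 0 < m → cf m * (fo d * kap η (d * m / z)) ≠ 0 → 0 < d ∧ (d : ℝ) ≤ z := by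
    intro d m h h0
    have a1 := right_ne_zero_of_mul h0
    have a2 := (div_lt_one hz).1 (kap_ne hη (right_ne_zero_of_mul a1)).2
    exact ⟨(fo_odd (left_ne_zero_of_mul a1)).pos, (le_mul_of_one_le_right (by positivity)
      (by exact_mod_cast h)).trans a2.le⟩
  rw [BB_eq (HW_adm hη hw _ (h1 hm) (h1 hm')) hz, one_mul, mul_left_comm _ ((z : ℂ) ^ 2)⁻¹]
  congr 1
  rw [mul_sum, sum_reidx (box z z) (box z z) (e := fun p => (r * j * p.1, r * j * p.2))]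
  · refine sum_congr rfl fun p _ => ?_
    rw [if_pos (Nat.dvd_gcd (dvd_mul_right _ _) (dvd_mul_right _ _)), tm, if_pos Nat.modEq_one,
      HW, FX]
    simp only [fo_Mf.mul, Nat.cast_mul]
    rw [show (r * j * p.1 * (r * j * p.2) / r / z ^ 2 : ℝ) = r * j ^ 2 * (p.1 / z * (p.2 / z)) by
        field_simp,
      show X / (r * j * p.1 * (r * j * p.2) / r : ℝ) = X / (r * j ^ 2) / (p.1 * p.2) by
        rw [div_div]; congr 1; field_simp,
      show (r * j * p.1 * m / z : ℝ) = r * j * m * (p.1 / z) by ring,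
      show (r * j * p.2 * m' / z : ℝ) = r * j * m' * (p.2 / z) by ring]
    push_cast
    ring
  · intro a b h
    obtain ⟨b1, b2⟩ := Prod.ext_iff.1 h
    exact Prod.ext (Nat.eq_of_mul_eq_mul_left hq b1) (Nat.eq_of_mul_eq_mul_left hq b2)
  · intro p hp
    have a1 := right_ne_zero_of_mul hp
    have a2 := h2 hm (Complex.ofReal_ne_zero.1 (left_ne_zero_of_mul a1))
    have a3 := h2 hm' (Complex.ofReal_ne_zero.1 (right_ne_zero_of_mul a1))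
    have a4 : r * j ∣ Nat.gcd p.1 p.2 := by
      by_contra hc
      exact left_ne_zero_of_mul (left_ne_zero_of_mul hp) (if_neg hc)
    have a5 := a4.trans (Nat.gcd_dvd_left _ _)
    have a6 := a4.trans (Nat.gcd_dvd_right _ _)
    exact ⟨mem_box.2 ⟨a2, a3⟩, (p.1 / (r * j), p.2 / (r * j)), mem_box.2
      ⟨⟨Nat.div_pos (Nat.le_of_dvd a2.1 a5) hq, (Nat.cast_le.2 (Nat.div_le_self _ _)).trans a2.2⟩,
        Nat.div_pos (Nat.le_of_dvd a3.1 a6) hq, (Nat.cast_le.2 (Nat.div_le_self _ _)).trans a3.2⟩,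
      Prod.ext (Nat.mul_div_cancel' a5) (Nat.mul_div_cancel' a6)⟩

lemma Ph_eq {η z : ℝ} (hη : 0 < η) (hz : 0 < z) {w : ℝ → ℂ} (hw : Continuous w) (X : ℝ) :
    Ph η w z X = ∑ r ∈ Ioc 0 ⌊z⌋₊, ∑ j ∈ Ioc 0 ⌊z⌋₊, ∑ m ∈ Ioc 0 ⌊z⌋₊, ∑ m' ∈ Ioc 0 ⌊z⌋₊,
      (μ j * fo (r * j * (r * j)) * (cf m * cf m') : ℝ) *
      BB 1 (FX fo (X / (r * j ^ 2))) (HW η w (r * j * m) (r * j * m') (r * j ^ 2)) z := by
  rw [sum_congr rfl fun r hr => sum_congr rfl fun j hj => sum_congr rfl fun m hm =>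
    sum_congr rfl fun m' hm' => (term_eq hη hz hw X (mem_Ioc.1 hr).1 (mem_Ioc.1 hj).1
      (mem_Ioc.1 hm).1 (mem_Ioc.1 hm').1).symm]
  simp only [← mul_sum, sum_comm (t := box z z)]
  rw [Ph]
  congr 1
  refine sum_congr rfl fun p hp => ?_
  obtain ⟨a1, a2⟩ := mem_box.1 hp
  rw [lam_y2 η z a1.1, lam_y2 η z a2.1, ← lcm_exp (mem_seg.2 a1) fun x => w (x / z ^ 2) * ee (X / x),
    Complex.ofReal_mul, Complex.ofReal_sum, Complex.ofReal_sum, mul_comm]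
  simp only [← sum_mul]

theorem Ph_small {η M : ℝ} (hη : 0 < η) {w : ℝ → ℂ} (hw : Continuous w)
    (hM : ∀ u, 0 ≤ u → u ≤ 1 → ‖w u‖ ≤ M) {ε : ℝ} (hε : 0 < ε) :
    ∀ᶠ z : ℝ in atTop, ∀ X, ‖Ph η w z X‖ ≤ ε := by
  have h : UB (fun z X => ∑ r ∈ Ioc 0 ⌊z⌋₊, ∑ j ∈ Ioc 0 ⌊z⌋₊, ∑ m ∈ Ioc 0 ⌊z⌋₊, ∑ m' ∈ Ioc 0 ⌊z⌋₊,
      (μ j * fo (r * j * (r * j)) * (cf m * cf m') : ℝ) *
      BB 1 (FX fo (X / (r * j ^ 2))) (HW η w (r * j * m) (r * j * m') (r * j ^ 2)) z)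
      (2 * (8 * M)) := by
    refine UB.sum rfl fun r hr => UB.sum (M := 4 * M * ((r : ℝ) ^ 2)⁻¹) (by ring) fun j hj =>
      UB.sum (M := 2 * M * ((r : ℝ) ^ 2)⁻¹ * ((j : ℝ) ^ 2)⁻¹) (by ring) fun m hm =>
      UB.sum (M := M * ((r : ℝ) ^ 2)⁻¹ * ((j : ℝ) ^ 2)⁻¹ * ((m : ℝ) ^ 2)⁻¹) (by ring)
        fun m' hm' => ?_
    have a1 : (1 : ℝ) ≤ r := by exact_mod_cast hr
    have a2 : (1 : ℝ) ≤ j := by exact_mod_cast hj
    have a3 : (1 : ℝ) ≤ m := by exact_mod_cast hm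
    have a4 : (1 : ℝ) ≤ m' := by exact_mod_cast hm'
    have a5 := one_le_mul_of_one_le_of_one_le a1 a2
    refine (HW_UB hη hw hM (one_le_mul_of_one_le_of_one_le a5 a3)
      (one_le_mul_of_one_le_of_one_le a5 a4) (by positivity) ?_).mul
      (c' := (m : ℝ)⁻¹ * (m' : ℝ)⁻¹) ?_
      (mul_le_one₀ (inv_le_one_of_one_le₀ a3) (by positivity) (inv_le_one_of_one_le₀ a4))
      (by field_simp)
    · calc _ = r * j * 1 * (1 * j * 1 : ℝ) := by ring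
        _ ≤ _ := by gcongr
    · rw [Complex.norm_real, Real.norm_eq_abs, abs_mul, abs_mul, abs_mul]
      exact (mul_le_of_le_one_left (by positivity) (mul_le_one₀ (abs_mu j) (abs_nonneg _)
        (fo_Mf.bd _))).trans (mul_le_mul (abs_cf m) (abs_cf m') (abs_nonneg _) (by positivity))
  filter_upwards [h.1 ε hε, eventually_gt_atTop 0] with z h1 hz X
  rw [Ph_eq hη hz hw]
  exact h1 X

lemma hat_cont {g : ℝ → ℝ} {C : ℝ} (hg : Hyb.Good g C) : Continuous (Hyb.hat g) := by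
  have h3 : HasCompactSupport fun v => ((g v : ℝ) : ℂ) :=
    Hyb.cpt_of hg.supp one_pos fun u hu => by simpa using hu
  have h4 : ContDiff ℝ ∞ fun v => ((g v : ℝ) : ℂ) := Complex.ofRealCLM.contDiff.comp hg.smooth
  exact (𝓕 (h3.toSchwartzMap h4)).continuous.congr (Hyb.fourier_eq_hat g)

/-- The amplitude of a dual term. -/
noncomputable def WW (g : ℝ → ℝ) (h : ℤ) (v : ℝ) : ℂ := (v⁻¹ : ℝ) * Hyb.hat g (h / v)

lemma norm_WW {g : ℝ → ℝ} {C : ℝ} (hg : Hyb.Good g C) {h : ℤ} (hh : h ≠ 0) (v : ℝ) :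
    ‖WW g h v‖ ≤ C * |v| := by
  rcases eq_or_ne v 0 with rfl | hv
  · simp [WW]
  have a1 : (h : ℝ) ≠ 0 := by exact_mod_cast hh
  have a2 : (1 : ℝ) ≤ h ^ 2 := by exact_mod_cast (sq_pos_iff.2 hh : 0 < h ^ 2)
  have a3 := abs_pos.2 hv
  have a4 := hg.pos
  rw [WW, norm_mul, Complex.norm_real, Real.norm_eq_abs, abs_inv, inv_mul_le_iff₀ a3]
  refine (hg.decay _ (div_ne_zero a1 hv)).trans ?_
  rw [div_pow, div_div_eq_mul_div, ← sq_abs v]
  exact (div_le_self (by positivity) a2).trans (le_of_eq (by ring))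

lemma WW_cont {g : ℝ → ℝ} {C : ℝ} (hg : Hyb.Good g C) {h : ℤ} (hh : h ≠ 0) :
    Continuous (WW g h) := by
  refine continuous_iff_continuousAt.2 fun v => ?_
  rcases eq_or_ne v 0 with rfl | hv
  · rw [ContinuousAt, show WW g h 0 = 0 by simp [WW]]
    exact squeeze_zero_norm (norm_WW hg hh)
      (Continuous.tendsto' (f := fun v => C * |v|) (by fun_prop) 0 0 (by simp))
  · exact (Complex.continuous_ofReal.continuousAt.comp (continuousAt_inv₀ hv)).mul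
      ((hat_cont hg).continuousAt.comp (continuousAt_const.div continuousAt_id hv))

lemma lam_odd {Z : ℕ} {y : ℕ → ℝ} (hy : ∀ r, y r ≠ 0 → Odd r) {d : ℕ} (h : lam Z y d ≠ 0) :
    Odd d := by
  obtain ⟨m, -, hm⟩ := lam_ne h
  exact (Nat.odd_mul.1 (hy _ hm)).1

lemma odd_lcm {d e : ℕ} (hd : Odd d) (he : Odd e) : Odd (Nat.lcm d e) :=
  Odd.of_dvd_nat (hd.mul he) (Nat.lcm_dvd_mul d e)

lemma lcm_le {d e : ℕ} {a b : ℝ} (hd : d ∈ Ioc 0 ⌊a⌋₊) (he : e ∈ Ioc 0 ⌊b⌋₊) :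
    (Nat.lcm d e : ℝ) ≤ a * b := by
  obtain ⟨a1, a2⟩ := mem_seg.1 hd
  obtain ⟨a3, a4⟩ := mem_seg.1 he
  have : (Nat.lcm d e : ℝ) ≤ d * e := by
    exact_mod_cast Nat.le_of_dvd (Nat.mul_pos a1 a3) (Nat.lcm_dvd_mul d e)
  exact this.trans (mul_le_mul a2 a4 (by positivity) (le_trans (by positivity) a2))

theorem R22 {g : ℝ → ℝ} {C : ℝ} (hg : Hyb.Good g C) {η A : ℝ} (hη : 0 < η) (hA : 0 < A) :
    ∀ᶠ y : ℝ in atTop, ∀ x₀ : ℝ, |QF ⌊A * √y⌋₊ (lam ⌊A * √y⌋₊ (y2 η (A * √y)))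
      (lam ⌊A * √y⌋₊ (y2 η (A * √y))) (Hyb.rem g 2 1 x₀ y)| ≤ y := by
  have hC := hg.pos
  obtain ⟨H, hH⟩ := exists_nat_gt (32 * C * A ^ 4)
  have hH0 : (0 : ℝ) < H := lt_trans (by positivity) hH
  set w : ℤ → ℝ → ℂ := fun h u => Hyb.ch 2 h * WW g h (2 * A ^ 2 * u) with hw
  have h1 : ∀ h : ℤ, h ≠ 0 → ∀ᶠ y : ℝ in atTop, ∀ X,
      ‖Ph η (w h) (A * √y) X‖ ≤ 1 / (4 * H * A ^ 2) := by
    intro h hh
    have := WW_cont hg hh
    refine (Real.tendsto_sqrt_atTop.const_mul_atTop hA).eventually (Ph_small hη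
      (by simp only [hw]; fun_prop) (M := C * (2 * A ^ 2)) (fun u a b => ?_) (by positivity))
    rw [hw, norm_mul, AddChar.norm_apply, one_mul]
    refine (norm_WW hg hh _).trans ?_
    rw [abs_of_nonneg (by positivity)]
    exact mul_le_mul_of_nonneg_left (mul_le_of_le_one_right (by positivity) b) hC.le
  have h2 := (eventually_all_finset (range H)).2 fun n _ =>
    (h1 (n + 1) (by positivity)).and (h1 (-(n + 1)) (neg_ne_zero.2 (by positivity)))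
  filter_upwards [h2, eventually_gt_atTop 0] with y hy hy0 x₀
  have hs := Real.sqrt_pos.2 hy0
  have hz2 : (A * √y) ^ 2 = A ^ 2 * y := by rw [mul_pow, Real.sq_sqrt hy0.le]
  have hz : 0 < A * √y := by positivity
  generalize A * √y = z at *
  set l := lam ⌊z⌋₊ (y2 η z) with hl
  have ho : ∀ d, l d ≠ 0 → Odd d := fun d => lam_odd fun r hr => (y2_ne hη hz hr).1
  have h3 : ∀ h : ℤ, ∑ p ∈ box z z, (l p.1 * l p.2 : ℝ) * Hyb.trm g 2 1 x₀ y (Nat.lcm p.1 p.2) h =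
      (z : ℂ) ^ 2 * Ph η (w h) z (-(h * x₀ / 2)) := by
    intro h
    rw [Ph, mul_inv_cancel_left₀ (pow_ne_zero 2 (Complex.ofReal_ne_zero.2 hz.ne'))]
    refine sum_congr rfl fun p _ => ?_
    by_cases c : l p.1 * l p.2 = 0
    · simp only [← hl, c, Complex.ofReal_zero, zero_mul]
    have a1 := odd_lcm (ho _ (left_ne_zero_of_mul c)) (ho _ (right_ne_zero_of_mul c))
    have a2 : (Nat.lcm p.1 p.2 : ℝ) ≠ 0 := by exact_mod_cast a1.pos.ne'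
    simp only [Hyb.trm, hw, WW, hz2]
    rw [ZMod.natCast_eq_one_iff_odd.2 a1, ZMod.inv_one, mul_one, mul_one,
      show 2 * A ^ 2 * (Nat.lcm p.1 p.2 / (A ^ 2 * y)) = (y / ((2 : ℕ) * Nat.lcm p.1 p.2))⁻¹ by
        push_cast; field_simp, inv_inv, div_inv_eq_mul, ← mul_div_assoc, neg_div, div_div]
    push_cast
    ring
  set S : ℕ → ℂ := fun D => ∑ n ∈ range H, (Hyb.trm g 2 1 x₀ y D (n + 1) +
    Hyb.trm g 2 1 x₀ y D (-(n + 1))) with hS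
  have h4 : QF ⌊z⌋₊ l l (Hyb.rem g 2 1 x₀ y) =
      QF ⌊z⌋₊ l l (fun D => (Hyb.rem g 2 1 x₀ y D - S D).re) +
      (∑ n ∈ range H, ((z : ℂ) ^ 2 * Ph η (w (n + 1)) z (-(((n + 1 : ℤ) : ℝ) * x₀ / 2)) +
        (z : ℂ) ^ 2 * Ph η (w (-(n + 1))) z (-(((-(n + 1) : ℤ) : ℝ) * x₀ / 2)))).re := by
    simp only [← h3, ← sum_add_distrib, ← mul_add]
    rw [sum_comm, Complex.re_sum, box, sum_product, QF, QF, ← sum_add_distrib]
    refine sum_congr rfl fun d _ => ?_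
    rw [← sum_add_distrib]
    refine sum_congr rfl fun e _ => ?_
    rw [← mul_sum, Complex.re_ofReal_mul, Complex.sub_re, Complex.ofReal_re]
    ring
  have h5 : |QF ⌊z⌋₊ l l (fun D => (Hyb.rem g 2 1 x₀ y D - S D).re)| ≤
      2 * z * (2 * z) * (4 * C * A ^ 2 / H) := by
    refine QF_le (by positivity) (fun d hd e he a b => ?_) (y2_l1 hη hz) (y2_l1 hη hz)
    have a1 := odd_lcm (ho _ a) (ho _ b)
    refine (Complex.abs_re_le_norm _).trans ((Hyb.rem_approx hg 2 1 x₀ hy0 a1.pos.ne'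
      (Nat.coprime_two_right.2 a1) (by exact_mod_cast hH0)).trans ?_)
    calc _ ≤ 2 * (C * (z * z) / (y / (2 : ℕ))) / H := by gcongr; exact lcm_le hd he
      _ = _ := by rw [← sq, hz2]; push_cast; field_simp; norm_num
  have h6 : ∀ h X, ‖Ph η (w h) z X‖ ≤ 1 / (4 * H * A ^ 2) →
      ‖(z : ℂ) ^ 2 * Ph η (w h) z X‖ ≤ y / (4 * H) := by
    intro h X hX
    rw [norm_mul, norm_pow, Complex.norm_real, Real.norm_of_nonneg hz.le, hz2]
    exact (mul_le_mul_of_nonneg_left hX (by positivity)).trans (le_of_eq (by field_simp))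
  rw [h4]
  refine ((abs_add_le _ _).trans (add_le_add (h5.trans ?_) ((Complex.abs_re_le_norm _).trans
    ((norm_sum_le _ _).trans ((sum_le_card_nsmul _ _ _ fun n hn => norm_add_le_of_le
      (h6 _ _ ((hy n hn).1 _)) (h6 _ _ ((hy n hn).2 _))).trans (le_of_eq ?_)))))).trans
    (add_halves y).le
  · rw [show 2 * z * (2 * z) * (4 * C * A ^ 2 / H) = z ^ 2 * (16 * C * A ^ 2) / H by ring, hz2,
      div_le_iff₀ hH0]
    nlinarith
  · rw [card_range, nsmul_eq_mul]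
    field_simp
    norm_num

end Pool.Agent.P.MP_26a8c3_nt.Inf
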