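import Pool.Agent.P.MP_26a8c3_nt.Inf.Dm

/-! Counting tools: boxes, characters, integers free of small primes. -/

namespace Pool.Agent.P.MP_26a8c3_nt.Inf

open Finset Filter Topology MeasureTheory Real

/-- Pairs of positive integers below given bounds. -/
noncomputable def box (x y : ℝ) : Finset (ℕ × ℕ) := Ioc 0 ⌊x⌋₊ ×ˢ Ioc 0 ⌊y⌋₊

lemma mem_seg {x : ℝ} {d : ℕ} : d ∈ Ioc 0 ⌊x⌋₊ ↔ 0 < d ∧ (d : ℝ) ≤ x := by
  rw [mem_Ioc]
  exact and_congr_right fun h => Nat.le_floor_iff' h.ne'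

lemma mem_box {x y : ℝ} {p : ℕ × ℕ} :
    p ∈ box x y ↔ (0 < p.1 ∧ (p.1 : ℝ) ≤ x) ∧ (0 < p.2 ∧ (p.2 : ℝ) ≤ y) := by
  rw [box, mem_product, mem_seg, mem_seg]

lemma card_seg {x : ℝ} (hx : 0 ≤ x) : ((Ioc 0 ⌊x⌋₊).card : ℝ) ≤ x := by
  simpa using Nat.floor_le hx

lemma card_box {x y : ℝ} (hx : 0 ≤ x) (hy : 0 ≤ y) : ((box x y).card : ℝ) ≤ x * y := by
  rw [box, card_product, Nat.cast_mul]
  exact mul_le_mul (card_seg hx) (card_seg hy) (by positivity) hx

lemma norm_sum_box {F : ℕ × ℕ → ℂ} {x y M : ℝ} (hx : 0 ≤ x) (hy : 0 ≤ y) (hM : 0 ≤ M)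
    (h : ∀ p ∈ box x y, ‖F p‖ ≤ M) : ‖∑ p ∈ box x y, F p‖ ≤ M * (x * y) := by
  refine (norm_sum_le _ _).trans ((sum_le_card_nsmul _ _ M h).trans ?_)
  rw [nsmul_eq_mul, mul_comm]
  exact mul_le_mul_of_nonneg_left (card_box hx hy) hM

lemma sum_reidx {α β E : Type} [DecidableEq α] [AddCommMonoid E] {F : α → E} (s : Finset α)
    (t : Finset β) {e : β → α} (he : Function.Injective e)
    (h : ∀ p, F p ≠ 0 → p ∈ s ∧ ∃ q ∈ t, e q = p) : ∑ p ∈ s, F p = ∑ q ∈ t, F (e q) := by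
  rw [← sum_image (f := F) fun a _ b _ hab => he hab]
  refine sum_congr_of_eq_on_inter (fun a _ ha => ?_) (fun a _ ha => ?_) fun _ _ _ => rfl
  · by_contra h0
    exact ha (mem_image.2 (h a h0).2)
  · by_contra h0
    exact ha (h a h0).1

lemma seg_dvd {x : ℝ} (hx : 0 ≤ x) (q : ℕ) :
    ∑ d ∈ Ioc 0 ⌊x⌋₊, (if q ∣ d then (1 : ℝ) else 0) ≤ x / q := by
  rw [sum_boole, Nat.Ioc_filter_dvd_card_eq_div]
  exact Nat.cast_div_le.trans (div_le_div_of_nonneg_right (Nat.floor_le hx) (by positivity))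

lemma char_bound {k : ℕ} [NeZero k] {ι : Type} (s : Finset ι) (b : ι → ZMod k)
    (hb : ∀ i ∈ s, IsUnit (b i)) (x : ι → ℂ) (ψ : ZMod k → Prop) [DecidablePred ψ] :
    ‖∑ i ∈ s, (if ψ (b i) then x i else 0)‖ ≤
      ∑ χ : DirichletCharacter ℂ k, ‖∑ i ∈ s, χ (b i) * x i‖ := by
  have hφ : (0 : ℝ) < k.totient := by exact_mod_cast Nat.totient_pos.2 (NeZero.pos k)
  have hφ' : (k.totient : ℂ) ≠ 0 := by exact_mod_cast hφ.ne'
  have h1 : ∑ i ∈ s, (if ψ (b i) then x i else 0) = ∑ u : (ZMod k)ˣ, (if ψ u then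
      (k.totient : ℂ)⁻¹ * ∑ χ : DirichletCharacter ℂ k, χ (u : ZMod k)⁻¹ * ∑ i ∈ s, χ (b i) * x i
      else 0) := by
    have h2 : ∀ u : (ZMod k)ˣ, (k.totient : ℂ)⁻¹ * ∑ χ : DirichletCharacter ℂ k,
        χ (u : ZMod k)⁻¹ * ∑ i ∈ s, χ (b i) * x i = ∑ i ∈ s, if (u : ZMod k) = b i then x i else 0 := by
      intro u
      simp only [mul_sum]
      rw [sum_comm]
      refine sum_congr rfl fun i _ => ?_
      simp only [← mul_assoc (_ : ℂ) _ (x i)]
      rw [← sum_mul, ← mul_sum, DirichletCharacter.sum_char_inv_mul_char_eq ℂ u.isUnit]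
      split_ifs
      · rw [inv_mul_cancel₀ hφ', one_mul]
      · simp
    simp only [h2]
    have h3 : ∀ u : (ZMod k)ˣ, (if ψ u then ∑ i ∈ s, (if (u : ZMod k) = b i then x i else 0)
        else 0) = ∑ i ∈ s, if (u : ZMod k) = b i then (if ψ (b i) then x i else 0) else 0 := by
      intro u
      split_ifs with h
      · refine sum_congr rfl fun i _ => ?_
        split_ifs with h4 h5
        · rfl
        · exact absurd (h4 ▸ h) h5
        · rfl
      · refine (sum_eq_zero fun i _ => ?_).symm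
        split_ifs with h4 h5
        · exact absurd (h4 ▸ h5) h
        · rfl
        · rfl
    simp only [h3]
    rw [sum_comm]
    refine sum_congr rfl fun i hi => ?_
    obtain ⟨u, hu⟩ := hb i hi
    rw [sum_eq_single u, if_pos hu]
    · intro v _ hv
      rw [if_neg fun h => hv (Units.ext (h.trans hu.symm))]
    · simp
  rw [h1]
  refine (norm_sum_le _ _).trans ((sum_le_card_nsmul _ _ ((k.totient : ℝ)⁻¹ *
    ∑ χ : DirichletCharacter ℂ k, ‖∑ i ∈ s, χ (b i) * x i‖) fun u _ => ?_).trans (le_of_eq ?_))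
  · split_ifs
    · rw [norm_mul, norm_inv, Complex.norm_natCast]
      refine mul_le_mul_of_nonneg_left ((norm_sum_le _ _).trans (sum_le_sum fun χ _ => ?_))
        (by positivity)
      rw [norm_mul]
      exact mul_le_of_le_one_left (norm_nonneg _) (χ.norm_le_one _)
    · rw [norm_zero]
      positivity
  · rw [card_univ, ZMod.card_units_eq_totient, nsmul_eq_mul, ← mul_assoc,
      mul_inv_cancel₀ hφ.ne', one_mul]

lemma cnt_free {P : Finset ℕ} (hP : ∀ p ∈ P, p.Prime) {y : ℝ} (hy : pr P / VV P ≤ y)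
    (S : Finset ℕ) (hS : ∀ n ∈ S, 0 < n ∧ (n : ℝ) ≤ y ∧ Nat.Coprime n (pr P)) :
    (S.card : ℝ) ≤ 2 * VV P * y := by
  have hW := pr_pos hP
  have hW' : (0 : ℝ) < pr P := by exact_mod_cast hW
  have hV := VV_pos hP
  have hy0 : 0 ≤ y := le_trans (by positivity) hy
  have h1 : S ⊆ (Ico 1 (1 + ⌊y⌋₊)).filter fun x => (pr P).Coprime x := fun n hn => by
    obtain ⟨a, b, c⟩ := hS n hn
    have := Nat.le_floor b
    exact mem_filter.2 ⟨mem_Ico.2 ⟨a, by omega⟩, c.symm⟩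
  have h2 : (S.card : ℝ) ≤ (pr P).totient * ((⌊y⌋₊ / pr P : ℕ) + 1) := by
    exact_mod_cast (card_le_card h1).trans (Nat.Ico_filter_coprime_le 1 _ hW.ne')
  have h3 : ((pr P).totient : ℝ) = pr P * VV P := by
    have := Nat.totient_eq_mul_prod_factors (pr P)
    rw [pr, Nat.primeFactors_prod hP] at this
    have h4 := congrArg (Rat.cast : ℚ → ℝ) this
    push_cast at h4
    rw [pr, h4, VV]
    push_cast
    rfl
  have h4 : ((⌊y⌋₊ / pr P : ℕ) : ℝ) ≤ y / pr P :=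
    Nat.cast_div_le.trans (div_le_div_of_nonneg_right (Nat.floor_le hy0) hW'.le)
  have h5 : ((pr P).totient : ℝ) ≤ pr P := by exact_mod_cast Nat.totient_le _
  rw [div_le_iff₀ hV] at hy
  calc (S.card : ℝ) ≤ (pr P).totient * (y / pr P) + (pr P).totient := by
        refine h2.trans ?_
        rw [mul_add, mul_one]
        gcongr
    _ = VV P * y + (pr P).totient := by rw [h3]; field_simp
    _ ≤ _ := by linarith

/-- The part of `d` made of the primes of `P` is the product over `A`. -/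
def cond (P A : Finset ℕ) (d : ℕ) : Prop := pr A ∣ d ∧ Nat.Coprime (d / pr A) (pr P)

instance (P A : Finset ℕ) (d : ℕ) : Decidable (cond P A d) := by
  unfold cond; infer_instance

lemma cond_eq {P A : Finset ℕ} (hP : ∀ p ∈ P, p.Prime) (hA : A ⊆ P) {d : ℕ} (h : cond P A d) :
    A = P.filter (· ∣ d) := by
  ext p
  rw [mem_filter]
  refine ⟨fun hp => ⟨hA hp, (dvd_prod_of_mem _ hp).trans h.1⟩, fun ⟨h1, h2⟩ => ?_⟩
  rw [← Nat.mul_div_cancel' h.1] at h2
  rcases (Nat.Prime.dvd_mul (hP p h1)).1 h2 with h3 | h3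
  · obtain ⟨q, hq, hpq⟩ := (Prime.dvd_finsetProd_iff (hP p h1).prime _).1 h3
    rwa [(Nat.prime_dvd_prime_iff_eq (hP p h1) (hP q (hA hq))).1 hpq]
  · exact absurd (Nat.eq_one_of_dvd_coprimes h.2 h3 (dvd_prod_of_mem _ h1)) (hP p h1).one_lt.ne'

lemma cond_filter {P : Finset ℕ} (hP : ∀ p ∈ P, p.Prime) {d : ℕ}
    (h : ∀ p ∈ P, ¬ p ^ 2 ∣ d) : cond P (P.filter (· ∣ d)) d := by
  have h1 : pr (P.filter (· ∣ d)) ∣ d :=
    prod_primes_dvd d (fun p hp => (hP p (mem_filter.1 hp).1).prime) fun p hp => (mem_filter.1 hp).2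
  refine ⟨h1, Nat.Coprime.prod_right fun p hp => ((Nat.Prime.coprime_iff_not_dvd (hP p hp)).2
    fun h2 => h p hp ?_).symm⟩
  have h3 : p ∣ d := h2.trans (Nat.div_dvd_of_dvd h1)
  rw [← Nat.mul_div_cancel' h1, sq]
  exact Nat.mul_dvd_mul (dvd_prod_of_mem _ (mem_filter.2 ⟨hp, h3⟩)) h2

lemma ind_le {P : Finset ℕ} (hP : ∀ p ∈ P, p.Prime) (d d' : ℕ) :
    ‖1 - ∑ U ∈ P.powerset, ∑ A ∈ U.powerset,
      (if cond P A d ∧ cond P (U \ A) d' then (1 : ℂ) else 0)‖ ≤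
      ∑ p ∈ P, if p ^ 2 ∣ d * d' then (1 : ℝ) else 0 := by
  set A₀ := P.filter (· ∣ d)
  set B₀ := P.filter (· ∣ d')
  have h1 : ∀ U ∈ P.powerset, ∀ A ∈ U.powerset, cond P A d ∧ cond P (U \ A) d' →
      U = A₀ ∪ B₀ ∧ A = A₀ := by
    intro U hU A hA h
    have a1 := cond_eq hP ((mem_powerset.1 hA).trans (mem_powerset.1 hU)) h.1
    have a2 := cond_eq hP (sdiff_subset.trans (mem_powerset.1 hU)) h.2
    exact ⟨by rw [← union_sdiff_of_subset (mem_powerset.1 hA), a2, a1], a1⟩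
  have hU₀ : A₀ ∪ B₀ ∈ P.powerset :=
    mem_powerset.2 (union_subset (filter_subset _ _) (filter_subset _ _))
  rw [sum_eq_single_of_mem _ hU₀ fun U hU hne => sum_eq_zero fun A hA =>
      if_neg fun h => hne (h1 U hU A hA h).1,
    sum_eq_single_of_mem _ (mem_powerset.2 subset_union_left) fun A hA hne =>
      if_neg fun h => hne (h1 _ hU₀ A hA h).2]
  by_cases h : ∃ p ∈ P, p ^ 2 ∣ d * d'
  · obtain ⟨p, hp, h2⟩ := h
    refine le_trans ?_ (single_le_sum (f := fun p => if p ^ 2 ∣ d * d' then (1 : ℝ) else 0)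
      (fun _ _ => by positivity) hp)
    rw [if_pos h2]
    split_ifs <;> simp
  · push Not at h
    rw [if_pos, sub_self, norm_zero]
    · positivity
    · rw [union_sdiff_cancel_left]
      · exact ⟨cond_filter hP fun p hp h2 => h p hp (h2.mul_right _),
          cond_filter hP fun p hp h2 => h p hp (h2.mul_left _)⟩
      · refine disjoint_left.2 fun p h2 h3 => h p (mem_filter.1 h2).1 ?_
        rw [sq]
        exact Nat.mul_dvd_mul (mem_filter.1 h2).2 (mem_filter.1 h3).2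

lemma sq_count {p : ℕ} (hp : p.Prime) {x : ℝ} (hx : 0 ≤ x) :
    ∑ q ∈ box x x, (if p ^ 2 ∣ q.1 * q.2 then (1 : ℝ) else 0) ≤ 3 * x ^ 2 * ((p : ℝ) ^ 2)⁻¹ := by
  have h1 : ∀ q : ℕ × ℕ, (if p ^ 2 ∣ q.1 * q.2 then (1 : ℝ) else 0) ≤
      (if p ^ 2 ∣ q.1 then (1 : ℝ) else 0) * (if 1 ∣ q.2 then (1 : ℝ) else 0) +
      (if 1 ∣ q.1 then (1 : ℝ) else 0) * (if p ^ 2 ∣ q.2 then (1 : ℝ) else 0) +
      (if p ∣ q.1 then (1 : ℝ) else 0) * (if p ∣ q.2 then (1 : ℝ) else 0) := by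
    intro q
    simp only [one_dvd, if_true, mul_one, one_mul]
    by_cases h : p ^ 2 ∣ q.1 * q.2
    · rw [if_pos h]
      by_cases a : p ∣ q.1
      · by_cases b : p ∣ q.2
        · simp only [a, b, if_true]
          split_ifs <;> norm_num
        · have : p ^ 2 ∣ q.1 := (((Nat.Prime.coprime_iff_not_dvd hp).2 b).pow_left 2
            ).dvd_of_dvd_mul_right h
          simp only [this, if_true]
          split_ifs <;> norm_num
      · have : p ^ 2 ∣ q.2 := (((Nat.Prime.coprime_iff_not_dvd hp).2 a).pow_left 2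
          ).dvd_of_dvd_mul_left h
        simp only [this, if_true]
        split_ifs <;> norm_num
    · rw [if_neg h]
      positivity
  have h2 : ∀ a b : ℕ, ∑ q ∈ box x x, (if a ∣ q.1 then (1 : ℝ) else 0) *
      (if b ∣ q.2 then (1 : ℝ) else 0) ≤ x / a * (x / b) := by
    intro a b
    rw [box, sum_product, ← sum_mul_sum (f := fun d => if a ∣ d then (1 : ℝ) else 0)
      (g := fun d => if b ∣ d then (1 : ℝ) else 0)]
    exact mul_le_mul (seg_dvd hx a) (seg_dvd hx b) (sum_nonneg fun _ _ => by positivity)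
      (by positivity)
  refine (sum_le_sum fun q _ => h1 q).trans ?_
  rw [sum_add_distrib, sum_add_distrib]
  refine (add_le_add (add_le_add (h2 _ _) (h2 _ _)) (h2 _ _)).trans (le_of_eq ?_)
  push_cast
  ring

end Pool.Agent.P.MP_26a8c3_nt.Inf
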