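import Pool.Agent.P.MP_26a8c3_nt.Inf.Tv1

/-! The main estimate for the change of the ratio of the two variables. -/

namespace Pool.Agent.P.MP_26a8c3_nt.Inf

open Finset Filter Topology MeasureTheory Real
open scoped ContDiff

/-- Windows in logarithmic coordinates. -/
structure Kad (K : ℝ → ℝ → ℂ) (ρ M : ℝ) : Prop where
  cont : Continuous fun p : ℝ × ℝ => K p.1 p.2
  supp : ∀ u v, K u v ≠ 0 → |u| ≤ ρ ∧ |v| ≤ ρ
  bd : ∀ u v, ‖K u v‖ ≤ M
  r0 : 0 ≤ ρ

/-- Convolution in the first variable. -/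
noncomputable def Phi (K : ℝ → ℝ → ℂ) (φ : ℝ → ℂ) (u v : ℝ) : ℂ := ∫ w, K (u - w) v * φ w

lemma smooth_K {K : ℝ → ℝ → ℂ} {ρ M : ℝ} (h : Kad K ρ M) {ε : ℝ} (hε : 0 < ε) :
    ∃ τ : ℝ → ℝ, ContDiff ℝ ∞ τ ∧ (∀ x, τ x ≠ 0 → |x| ≤ 1) ∧ ∀ c u v,
      ‖K (u + c) v - K u v - Phi K (fun x => ((τ (x + c) - τ x : ℝ) : ℂ)) u v‖ ≤ 2 * ε := by
  have hc : HasCompactSupport fun p : ℝ × ℝ => K p.1 p.2 :=
    HasCompactSupport.intro ((isCompact_Icc (a := -ρ) (b := ρ)).prod
      (isCompact_Icc (a := -ρ) (b := ρ))) fun p hp => by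
      by_contra h0
      exact hp ⟨abs_le.1 (h.supp _ _ h0).1, abs_le.1 (h.supp _ _ h0).2⟩
  obtain ⟨δ, hδ, hu⟩ := Metric.uniformContinuous_iff.1
    (hc.uniformContinuous_of_continuous h.cont) ε hε
  have hm : 0 < min δ 1 := lt_min hδ one_pos
  let f : ContDiffBump (0 : ℝ) := ⟨min δ 1 / 2, min δ 1, by positivity, by linarith⟩
  have hs : ∀ x, f.normed volume x ≠ 0 → |x| < min δ 1 := fun x hx => by
    have : x ∈ Metric.ball (0 : ℝ) f.rOut := f.support_normed_eq (μ := volume) ▸ hx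
    rwa [mem_ball_zero_iff] at this
  have hK : ∀ u v, Continuous fun w => K (u - w) v := fun u v =>
    h.cont.comp (f := fun w => (u - w, v)) (by fun_prop)
  have hf := f.continuous_normed (μ := volume)
  have hf2 : HasCompactSupport fun w => (f.normed volume w : ℂ) :=
    cpt_of_abs (R := min δ 1) fun x hx => (hs x (by simpa using hx)).le
  have hi : ∀ u v, Integrable fun w => K (u - w) v * (f.normed volume w : ℂ) := fun u v =>
    Continuous.integrable_of_hasCompactSupport ((hK u v).mul (by fun_prop)) hf2.mul_left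
  have key : ∀ u v, ‖K u v - ∫ w, K (u - w) v * (f.normed volume w : ℂ)‖ ≤ ε := by
    intro u v
    have a1 : K u v = ∫ w, K u v * (f.normed volume w : ℂ) := by
      rw [integral_const_mul, integral_complex_ofReal, f.integral_normed]
      simp
    have a2 : Integrable fun w => K u v * (f.normed volume w : ℂ) :=
      Continuous.integrable_of_hasCompactSupport (by fun_prop) hf2.mul_left
    rw [a1, ← integral_sub a2 (hi u v)]
    refine (norm_integral_le_of_norm_le (f.integrable_normed.const_mul ε)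
      (.of_forall fun w => ?_)).trans ?_
    · rw [← sub_mul, norm_mul, Complex.norm_real, Real.norm_of_nonneg (f.nonneg_normed w)]
      by_cases hw : f.normed volume w = 0
      · simp [hw]
      · refine mul_le_mul_of_nonneg_right ?_ (f.nonneg_normed w)
        have := hu (a := (u, v)) (b := (u - w, v)) (by
          simpa [Prod.dist_eq, hδ] using (hs w hw).trans_le (min_le_left _ _))
        rw [dist_eq_norm] at this
        exact this.le
    · rw [integral_const_mul, f.integral_normed, mul_one]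
  refine ⟨f.normed volume, f.contDiff_normed, fun x hx => (hs x hx).le.trans (min_le_right _ _),
    fun c u v => ?_⟩
  have a1 : Phi K (fun x => ((f.normed volume (x + c) - f.normed volume x : ℝ) : ℂ)) u v =
      (∫ w, K (u + c - w) v * (f.normed volume w : ℂ)) -
        ∫ w, K (u - w) v * (f.normed volume w : ℂ) := by
    rw [← integral_add_right_eq_self (fun w => K (u + c - w) v * (f.normed volume w : ℂ)) c,
      ← integral_sub ((hi (u + c) v).comp_add_right c) (hi u v), Phi]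
    refine integral_congr_ae (.of_forall fun w => ?_)
    simp only [add_sub_add_right_eq_sub]
    push_cast
    ring
  rw [a1]
  have a2 := norm_sub_le (K (u + c) v - ∫ w, K (u + c - w) v * (f.normed volume w : ℂ))
    (K u v - ∫ w, K (u - w) v * (f.normed volume w : ℂ))
  refine le_trans (le_of_eq ?_) (a2.trans (by linarith [key (u + c) v, key u v]))
  congr 1
  ring

lemma Phi_supp {K : ℝ → ℝ → ℂ} {ρ M : ℝ} (h : Kad K ρ M) {φ : ℝ → ℂ} {R : ℝ}
    (hR : ∀ x, φ x ≠ 0 → |x| ≤ R) {u v : ℝ} (h0 : Phi K φ u v ≠ 0) : |u| ≤ ρ + R ∧ |v| ≤ ρ := by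
  obtain ⟨w, hw⟩ : ∃ w, K (u - w) v * φ w ≠ 0 := by
    by_contra hc
    push Not at hc
    simp [Phi, hc] at h0
  have a1 := h.supp _ _ (left_ne_zero_of_mul hw)
  have a2 := hR _ (right_ne_zero_of_mul hw)
  have a3 := abs_add_le (u - w) w
  rw [sub_add_cancel] at a3
  exact ⟨by linarith [a1.1], a1.2⟩

/-- The general term. -/
noncomputable def TT (k : ℕ) (G : ℕ → ℂ) (Φ : ℝ → ℝ → ℂ) (Z : ℝ) (p : ℕ × ℕ) : ℂ :=
  if p.1 ≡ p.2 [MOD k] then
    G (p.1 * p.2) * Φ (Real.log (p.1 / Z)) (Real.log ((p.1 * p.2 : ℕ) / Z ^ 2)) else 0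

lemma inner_le {k : ℕ} [NeZero k] {K : ℝ → ℝ → ℂ} {ρ M : ℝ} (h : Kad K ρ M) {φ : ℝ → ℂ} {R : ℝ}
    {j : ℝ → ℝ} (hφ : Tf φ R j) {U : Finset ℕ} (hU : ∀ p ∈ U, p.Prime ∧ Nat.Coprime p k)
    {G : ℕ → ℂ} (hG : ∀ n, ‖G n‖ ≤ 1) {Z : ℝ} (hZ : 0 < Z) {d d' : ℕ} (hd : 0 < d) (hd' : 0 < d') :
    ‖∑ A ∈ U.powerset, TT k G (Phi K φ) Z (pr A * d, pr (U \ A) * d')‖ ≤
      (if ((pr U * d * d' : ℕ) : ℝ) ≤ Real.exp ρ * Z ^ 2 then M else 0) *
        ∫ w, (Set.Icc (Real.log (d / Z) - ρ) (Real.log (d / Z) + ρ)).indicator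
          (fun w => ∑ χ : DirichletCharacter ℂ k, ‖FF χ φ U w‖) w := by
  have hU1 : ∀ p ∈ U, p.Prime := fun p hp => (hU p hp).1
  set u₀ := Real.log (d / Z) with hu₀
  set v := Real.log ((pr U * d * d' : ℕ) / Z ^ 2) with hv
  have hφc := hφ.sm.continuous
  have hK : Continuous fun w => K (u₀ - w) v := h.cont.comp (f := fun w => (u₀ - w, v)) (by fun_prop)
  set ψ : ZMod k → Prop := fun b => b * b * d = pr U * d' with hψ
  have h1 : ∀ A ∈ U.powerset, TT k G (Phi K φ) Z (pr A * d, pr (U \ A) * d') =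
      G (pr U * d * d') * ∫ w, K (u₀ - w) v *
        (if ψ (pr A) then φ (w + Real.log (pr A)) else 0) := by
    intro A hA
    have hAU := mem_powerset.1 hA
    have e1 : pr (U \ A) * pr A = pr U := prod_sdiff hAU
    have e2 : pr A * d * (pr (U \ A) * d') = pr U * d * d' := by rw [← e1]; ring
    have hA0 : (0 : ℝ) < pr A := by exact_mod_cast pr_pos fun p hp => hU1 p (hAU hp)
    have e3 : Real.log ((pr A * d : ℕ) / Z) = u₀ + Real.log (pr A) := by
      rw [hu₀, ← Real.log_mul (by positivity) hA0.ne']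
      push_cast
      ring_nf
    have hun : IsUnit (pr A : ZMod k) := (ZMod.isUnit_iff_coprime _ _).2
      (Nat.Coprime.prod_left fun p hp => (hU p (hAU hp)).2)
    have e4 : pr A * d ≡ pr (U \ A) * d' [MOD k] ↔ ψ (pr A) := by
      rw [← ZMod.natCast_eq_natCast_iff, ← hun.mul_right_inj]
      simp only [hψ]
      rw [← e1]
      push_cast
      constructor <;> intro h <;> linear_combination h
    simp only [TT, e2, e3, e4, ← hv]
    split_ifs
    · rw [Phi, ← integral_add_right_eq_self _ (Real.log (pr A))]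
      simp only [add_sub_add_right_eq_sub]
    · simp
  have hcs : ∀ l, HasCompactSupport fun w => φ (w + l) := fun l =>
    cpt_of_abs (R := R + |l|) fun x hx => by
      have := abs_sub (x + l) l
      rw [add_sub_cancel_right] at this
      linarith [hφ.supp _ hx]
  rw [sum_congr rfl h1, ← mul_sum, ← integral_finsetSum, norm_mul, ← integral_const_mul]
  · refine (mul_le_of_le_one_left (norm_nonneg _) (hG _)).trans
      (norm_integral_le_of_norm_le (Integrable.const_mul (Integrable.indicator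
        (integrable_finsetSum _ fun χ _ => ((FF_cont χ hφc U).integrable_of_hasCompactSupport
          (FF_cpt χ hφ.supp hU1)).norm) measurableSet_Icc) _) (.of_forall fun w => ?_))
    rw [← mul_sum, norm_mul]
    by_cases hw : K (u₀ - w) v = 0
    · rw [hw, norm_zero, zero_mul]
      refine mul_nonneg ?_ (Set.indicator_nonneg (fun _ _ => by positivity) _)
      have := (norm_nonneg _).trans (h.bd 0 0)
      positivity
    · obtain ⟨a1, a2⟩ := h.supp _ _ hw
      have hm : (0 : ℝ) < (pr U * d * d' : ℕ) := by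
        have := pr_pos hU1
        positivity
      rw [Set.indicator_of_mem (show w ∈ Set.Icc (u₀ - ρ) (u₀ + ρ) from
        ⟨by linarith [(abs_le.1 a1).2], by linarith [(abs_le.1 a1).1]⟩), if_pos]
      · refine mul_le_mul (h.bd _ _) ?_ (norm_nonneg _) ((norm_nonneg _).trans (h.bd 0 0))
        exact char_bound U.powerset (fun A => (pr A : ZMod k)) (fun A hA =>
          (ZMod.isUnit_iff_coprime _ _).2 (Nat.Coprime.prod_left fun p hp =>
            (hU p (mem_powerset.1 hA hp)).2)) (fun A => φ (w + Real.log (pr A))) ψ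
      · rw [← div_le_iff₀ (by positivity), ← Real.log_le_iff_le_exp (by positivity)]
        exact (le_abs_self _).trans a2
  · intro A _
    by_cases hA : ψ (pr A)
    · simp only [hA, if_true]
      exact Continuous.integrable_of_hasCompactSupport (hK.mul (by fun_prop)) (hcs _).mul_left
    · simp [hA]

lemma outer_le {P : Finset ℕ} (hP : ∀ p ∈ P, p.Prime) {g : ℝ → ℝ} (hg : Integrable g)
    (hg0 : ∀ w, 0 ≤ g w) {Z ρ : ℝ} (hZ : 0 < Z)
    (hs : ∀ w, g w ≠ 0 → pr P / VV P ≤ Z * Real.exp (w + ρ)) (S : Finset ℕ)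
    (hS : ∀ d ∈ S, 0 < d ∧ Nat.Coprime d (pr P)) :
    ∑ d ∈ S, (d : ℝ)⁻¹ * ∫ w, (Set.Icc (Real.log (d / Z) - ρ) (Real.log (d / Z) + ρ)).indicator
      g w ≤ 2 * VV P * Real.exp (2 * ρ) * ∫ w, g w := by
  simp only [← integral_const_mul]
  rw [← integral_finsetSum _ fun d _ => (hg.indicator measurableSet_Icc).const_mul _]
  refine integral_mono_of_nonneg (.of_forall fun w => sum_nonneg fun d _ =>
    mul_nonneg (by positivity) (Set.indicator_nonneg (fun _ _ => hg0 _) _)) (hg.const_mul _)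
    (.of_forall fun w => ?_)
  by_cases hw : g w = 0
  · simp [Set.indicator, hw]
  simp only [Set.indicator, mul_ite, mul_zero]
  rw [← sum_filter, ← sum_mul]
  refine mul_le_mul_of_nonneg_right ?_ (hg0 w)
  set S' := S.filter fun d : ℕ => w ∈ Set.Icc (Real.log (d / Z) - ρ) (Real.log (d / Z) + ρ)
  have h1 : ∀ d ∈ S', Z * Real.exp (w - ρ) ≤ d ∧ (d : ℝ) ≤ Z * Real.exp (w + ρ) := by
    intro d hd
    obtain ⟨a, b, c⟩ := mem_filter.1 hd
    have hd0 : (0 : ℝ) < d := by exact_mod_cast (hS d a).1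
    rw [← le_div_iff₀' hZ, ← div_le_iff₀' hZ, ← Real.le_log_iff_exp_le (by positivity),
      ← Real.log_le_iff_le_exp (by positivity)]
    constructor <;> linarith
  have h2 := cnt_free hP (hs w hw) S' fun d hd =>
    ⟨(hS d (mem_filter.1 hd).1).1, (h1 d hd).2, (hS d (mem_filter.1 hd).1).2⟩
  refine (sum_le_card_nsmul _ _ (Z * Real.exp (w - ρ))⁻¹ fun d hd =>
    inv_anti₀ (by positivity) (h1 d hd).1).trans ?_
  rw [nsmul_eq_mul, ← div_eq_mul_inv, div_le_iff₀ (by positivity)]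
  refine h2.trans (le_of_eq ?_)
  rw [show w + ρ = 2 * ρ + (w - ρ) by ring, Real.exp_add]
  ring

lemma main_U {k : ℕ} [NeZero k] {K : ℝ → ℝ → ℂ} {ρ M : ℝ} (h : Kad K ρ M) {φ : ℝ → ℂ} {R : ℝ}
    {j : ℝ → ℝ} (hφ : Tf φ R j) {P U : Finset ℕ} (hP : ∀ p ∈ P, p.Prime ∧ Nat.Coprime p k)
    (hU : U ⊆ P) {G : ℕ → ℂ} (hG : ∀ n, ‖G n‖ ≤ 1) {Z : ℝ}
    (hZ : pr P / VV P * (pr P * Real.exp (2 * ρ + R)) ≤ Z) :
    ‖∑ A ∈ U.powerset, ∑ q ∈ box (Real.exp (2 * ρ + R) * Z) (Real.exp (2 * ρ + R) * Z),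
      (if Nat.Coprime q.1 (pr P) ∧ Nat.Coprime q.2 (pr P) then
        TT k G (Phi K φ) Z (pr A * q.1, pr (U \ A) * q.2) else 0)‖ ≤
      4 * M * Real.exp (3 * ρ) * Z ^ 2 * (VV P ^ 2 * ((pr U : ℝ)⁻¹ *
        ∑ χ : DirichletCharacter ℂ k, ∫ w, ‖FF χ φ U w‖)) := by
  have hP1 : ∀ p ∈ P, p.Prime := fun p hp => (hP p hp).1
  have hU1 : ∀ p ∈ U, p.Prime := fun p hp => hP1 p (hU hp)
  have hW : (0 : ℝ) < pr P := by exact_mod_cast pr_pos hP1
  have hm : (0 : ℝ) < pr U := by exact_mod_cast pr_pos hU1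
  have hmW : (pr U : ℝ) ≤ pr P := by exact_mod_cast pr_le hP1 hU
  have hV := VV_pos hP1
  have hZ0 : 0 < Z := lt_of_lt_of_le (by positivity) hZ
  have hM : 0 ≤ M := (norm_nonneg _).trans (h.bd 0 0)
  have hρ := h.r0
  have hR := hφ.R0
  set B := Real.exp (2 * ρ + R) with hB
  have hB0 : 0 < B := Real.exp_pos _
  set g : ℝ → ℝ := fun w => ∑ χ : DirichletCharacter ℂ k, ‖FF χ φ U w‖ with hg
  have hgi : ∀ χ : DirichletCharacter ℂ k, Integrable fun w => ‖FF χ φ U w‖ := fun χ =>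
    ((FF_cont χ hφ.sm.continuous U).integrable_of_hasCompactSupport (FF_cpt χ hφ.supp hU1)).norm
  have hg0 : ∀ w, 0 ≤ g w := fun w => by positivity
  set J : ℕ → ℝ := fun d =>
    ∫ w, (Set.Icc (Real.log (d / Z) - ρ) (Real.log (d / Z) + ρ)).indicator g w with hJ
  have hJ0 : ∀ d, 0 ≤ J d := fun d =>
    integral_nonneg fun w => Set.indicator_nonneg (fun _ _ => hg0 _) _
  set S := (Ioc 0 ⌊B * Z⌋₊).filter fun d => Nat.Coprime d (pr P) with hS
  have hZ' : pr P / VV P ≤ Z / (pr P * B) := by rwa [le_div_iff₀ (by positivity)]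
  have h1 := outer_le hP1 (integrable_finsetSum _ fun χ _ => hgi χ) hg0 hZ0 (ρ := ρ)
    (fun w hw => ?_) S fun d hd => ⟨(mem_Ioc.1 (mem_filter.1 hd).1).1, (mem_filter.1 hd).2⟩
  · rw [integral_finsetSum _ fun χ _ => hgi χ] at h1
    rw [sum_comm]
    have h2 : ∀ q ∈ box (B * Z) (B * Z), ‖∑ A ∈ U.powerset,
        (if Nat.Coprime q.1 (pr P) ∧ Nat.Coprime q.2 (pr P) then
          TT k G (Phi K φ) Z (pr A * q.1, pr (U \ A) * q.2) else 0)‖ ≤
        (if Nat.Coprime q.1 (pr P) then M * J q.1 else 0) * (if Nat.Coprime q.2 (pr P) ∧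
          ((pr U * q.1 * q.2 : ℕ) : ℝ) ≤ Real.exp ρ * Z ^ 2 then 1 else 0) := by
      intro q hq
      obtain ⟨⟨a1, -⟩, a2, -⟩ := mem_box.1 hq
      by_cases c : Nat.Coprime q.1 (pr P) ∧ Nat.Coprime q.2 (pr P)
      · rw [sum_congr rfl fun A _ => if_pos c, if_pos c.1]
        refine (inner_le h hφ (fun p hp => hP p (hU hp)) hG hZ0 a1 a2).trans (le_of_eq ?_)
        by_cases c2 : ((pr U * q.1 * q.2 : ℕ) : ℝ) ≤ Real.exp ρ * Z ^ 2
        · rw [if_pos c2, if_pos ⟨c.2, c2⟩, mul_one]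
        · rw [if_neg c2, if_neg fun h => c2 h.2, mul_zero, zero_mul]
      · rw [sum_congr rfl fun A _ => if_neg c, sum_const_zero, norm_zero]
        have := hJ0 q.1
        positivity
    refine (norm_sum_le _ _).trans ((sum_le_sum h2).trans ?_)
    rw [box, sum_product]
    simp only [← mul_sum]
    simp only [ite_mul, zero_mul]
    rw [← sum_filter, ← hS]
    have h3 : ∀ d ∈ S, M * J d * ∑ d' ∈ Ioc 0 ⌊B * Z⌋₊, (if Nat.Coprime d' (pr P) ∧
        ((pr U * d * d' : ℕ) : ℝ) ≤ Real.exp ρ * Z ^ 2 then (1 : ℝ) else 0) ≤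
        M * (2 * VV P * (Real.exp ρ * Z ^ 2)) * (pr U : ℝ)⁻¹ * ((d : ℝ)⁻¹ * J d) := by
      intro d hd
      obtain ⟨a1, a2⟩ := mem_seg.1 (mem_filter.1 hd).1
      have hd0 : (0 : ℝ) < d := by exact_mod_cast a1
      rw [sum_boole]
      have a3 := cnt_free hP1 (y := Real.exp ρ * Z ^ 2 / (pr U * d)) (hZ'.trans ?_)
        ((Ioc 0 ⌊B * Z⌋₊).filter fun d' => Nat.Coprime d' (pr P) ∧
          ((pr U * d * d' : ℕ) : ℝ) ≤ Real.exp ρ * Z ^ 2) fun n hn => ?_
      · refine (mul_le_mul_of_nonneg_left a3 (mul_nonneg hM (hJ0 d))).trans (le_of_eq ?_)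
        field_simp
      · rw [div_le_div_iff₀ (by positivity) (by positivity)]
        calc Z * (pr U * d) ≤ Z * (pr P * (B * Z)) := by gcongr
          _ = 1 * Z ^ 2 * (pr P * B) := by ring
          _ ≤ _ := by gcongr; exact Real.one_le_exp hρ
      · obtain ⟨b1, b2, b3⟩ := mem_filter.1 hn
        refine ⟨(mem_Ioc.1 b1).1, ?_, b2⟩
        rw [le_div_iff₀' (by positivity)]
        exact_mod_cast b3
    refine (sum_le_sum h3).trans ?_
    rw [← mul_sum]
    refine (mul_le_mul_of_nonneg_left h1 (by positivity)).trans (le_of_eq ?_)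
    rw [show 3 * ρ = ρ + 2 * ρ by ring, Real.exp_add]
    ring
  · obtain ⟨χ, -, hχ⟩ := exists_ne_zero_of_sum_ne_zero hw
    have a1 := (FF_supp χ hφ.supp hU1 (norm_ne_zero_iff.1 hχ)).1
    have a2 := Real.log_le_log hm hmW
    refine hZ'.trans ?_
    rw [div_eq_mul_inv, ← Real.exp_log hW, hB, ← Real.exp_add, ← Real.exp_neg]
    gcongr
    linarith

end Pool.Agent.P.MP_26a8c3_nt.Inf
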