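import Pool.Agent.P.MP_26a8c3_nt.Inf.Tv2

/-! A sum over pairs weighted by a function of the product does not see the ratio of the two
variables. -/

namespace Pool.Agent.P.MP_26a8c3_nt.Inf

open Finset Filter Topology MeasureTheory Real
open scoped ContDiff

lemma TT_supp {k : ℕ} {G : ℕ → ℂ} (hG : G 0 = 0) {Ψ : ℝ → ℝ → ℂ} {ρ R : ℝ} (hρ : 0 ≤ ρ)
    (hΨ : ∀ u v, Ψ u v ≠ 0 → |u| ≤ ρ + R ∧ |v| ≤ ρ) {Z : ℝ} (hZ : 0 < Z) {p : ℕ × ℕ}
    (h : TT k G Ψ Z p ≠ 0) :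
    p ∈ box (Real.exp (2 * ρ + R) * Z) (Real.exp (2 * ρ + R) * Z) := by
  unfold TT at h
  split_ifs at h with h1
  swap
  · exact absurd rfl h
  have h2 : p.1 * p.2 ≠ 0 := fun h0 => left_ne_zero_of_mul h (h0 ▸ hG)
  have h3 := Nat.pos_of_ne_zero (left_ne_zero_of_mul h2)
  have h4 := Nat.pos_of_ne_zero (right_ne_zero_of_mul h2)
  have h3' : (0 : ℝ) < p.1 := by exact_mod_cast h3
  have h4' : (0 : ℝ) < p.2 := by exact_mod_cast h4
  obtain ⟨a1, a2⟩ := hΨ _ _ (right_ne_zero_of_mul h)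
  have e : Real.log ((p.1 * p.2 : ℕ) / Z ^ 2) = Real.log (p.1 / Z) + Real.log (p.2 / Z) := by
    rw [← Real.log_mul (by positivity) (by positivity)]
    push_cast
    ring_nf
  rw [e] at a2
  refine mem_box.2 ⟨⟨h3, ?_⟩, h4, ?_⟩ <;>
    rw [← div_le_iff₀ hZ, ← Real.log_le_iff_le_exp (by positivity)] <;>
    linarith [(abs_le.1 a1).1, (abs_le.1 a1).2, (abs_le.1 a2).2]

lemma norm_TT {k : ℕ} {G : ℕ → ℂ} (hG : ∀ n, ‖G n‖ ≤ 1) {Ψ : ℝ → ℝ → ℂ} {M : ℝ}
    (hΨ : ∀ u v, ‖Ψ u v‖ ≤ M) (Z : ℝ) (p : ℕ × ℕ) : ‖TT k G Ψ Z p‖ ≤ M := by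
  unfold TT
  split_ifs
  · rw [norm_mul]
    exact (mul_le_of_le_one_left (norm_nonneg _) (hG _)).trans (hΨ _ _)
  · rw [norm_zero]
    exact (norm_nonneg _).trans (hΨ 0 0)

theorem tvp0 {k : ℕ} (hk : 1 ≤ k) {K : ℝ → ℝ → ℂ} {ρ M : ℝ} (h : Kad K ρ M) (c : ℝ) {ε : ℝ}
    (hε : 0 < ε) : ∀ᶠ Z : ℝ in atTop, ∀ G : ℕ → ℂ, (∀ n, ‖G n‖ ≤ 1) → G 0 = 0 →
      ‖∑ p ∈ box (Real.exp (2 * ρ + (1 + |c|)) * Z) (Real.exp (2 * ρ + (1 + |c|)) * Z),
        TT k G (fun u v => K (u + c) v - K u v) Z p‖ ≤ ε * Z ^ 2 := by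
  have : NeZero k := ⟨by omega⟩
  set B := Real.exp (2 * ρ + (1 + |c|)) with hB
  have hB0 : 0 < B := Real.exp_pos _
  have hM : 0 ≤ M := (norm_nonneg _).trans (h.bd 0 0)
  obtain ⟨τ, hτ, hτ1, hτ2⟩ := smooth_K h (ε := min 1 (ε / (6 * B ^ 2))) (by positivity)
  obtain ⟨j, hj⟩ := exists_Tf hτ hτ1 c
  set φ : ℝ → ℂ := fun x => ((τ (x + c) - τ x : ℝ) : ℂ) with hφ
  obtain ⟨Q₁, hQ₁⟩ := exists_nat_ge (max (k : ℝ) ((2 * M + 2) * (3 * B ^ 2) / (ε / 3)))
  have hQk : k ≤ Q₁ := by exact_mod_cast (le_max_left _ _).trans hQ₁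
  have hQ0 : (0 : ℝ) < Q₁ := by exact_mod_cast hk.trans hQk
  have hQ2 : (2 * M + 2) * (3 * B ^ 2 * (Q₁ : ℝ)⁻¹) ≤ ε / 3 := by
    have := (le_max_right _ _).trans hQ₁
    rw [div_le_iff₀ (by positivity)] at this
    rw [← mul_assoc, ← div_eq_mul_inv, div_le_iff₀ hQ0]
    linarith
  have hD := (tendsto_finsetSum univ fun χ _ => DD_tendsto hk χ hj Q₁).const_mul
    (4 * M * Real.exp (3 * ρ))
  simp only [sum_const_zero, mul_zero] at hD
  obtain ⟨Q, hQ⟩ := (hD.eventually_le_const (u := ε / 3) (by positivity)).exists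
  set P := PP Q₁ Q with hP
  have hP1 : ∀ p ∈ P, p.Prime ∧ Nat.Coprime p k := fun p hp => ⟨PP_prime p hp,
    (Nat.Prime.coprime_iff_not_dvd (PP_prime p hp)).2 fun hd => by
      have a1 := Nat.le_of_dvd hk hd
      have a2 := (mem_Ioc.1 (mem_filter.1 hp).1).1
      omega⟩
  filter_upwards [eventually_ge_atTop (pr P / VV P * (pr P * B)), eventually_gt_atTop 0]
    with Z hZ hZ0 G hG hG0
  have hx : 0 ≤ B * Z := by positivity
  have hΦ : ∀ u v, ‖Phi K φ u v‖ ≤ 2 * M + 2 := fun u v => by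
    have a1 := hτ2 c u v
    have a2 := norm_sub_le (K (u + c) v - K u v) (K (u + c) v - K u v - Phi K φ u v)
    rw [sub_sub_cancel] at a2
    linarith [norm_sub_le (K (u + c) v) (K u v), h.bd (u + c) v, h.bd u v,
      min_le_left 1 (ε / (6 * B ^ 2))]
  set I : ℕ × ℕ → ℂ := fun p => ∑ U ∈ P.powerset, ∑ A ∈ U.powerset,
    (if cond P A p.1 ∧ cond P (U \ A) p.2 then (1 : ℂ) else 0) with hI
  have e1 : ∀ p, TT k G (fun u v => K (u + c) v - K u v) Z p =
      TT k G (fun u v => K (u + c) v - K u v - Phi K φ u v) Z p +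
      (1 - I p) * TT k G (Phi K φ) Z p + I p * TT k G (Phi K φ) Z p := by
    intro p
    unfold TT
    split_ifs <;> ring
  simp only [e1, sum_add_distrib]
  have b1 := norm_sum_box hx hx (by positivity) fun p _ => norm_TT (k := k) hG (hτ2 c) Z p
  have b2 : ‖∑ p ∈ box (B * Z) (B * Z), (1 - I p) * TT k G (Phi K φ) Z p‖ ≤
      (2 * M + 2) * (3 * (B * Z) ^ 2 * (Q₁ : ℝ)⁻¹) := by
    refine (norm_sum_le _ _).trans ((sum_le_sum fun p _ => (norm_mul_le _ _).trans (mul_le_mul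
      (ind_le PP_prime p.1 p.2) (norm_TT hG hΦ Z p) (norm_nonneg _)
      (sum_nonneg fun _ _ => by positivity))).trans ?_)
    rw [← sum_mul, mul_comm, sum_comm]
    refine mul_le_mul_of_nonneg_left ((sum_le_sum fun p hp => sq_count (PP_prime p hp) hx).trans
      ?_) (by positivity)
    rw [← mul_sum]
    exact mul_le_mul_of_nonneg_left (sum_inv_sq_tail _ (by omega) fun p hp =>
      (mem_Ioc.1 (mem_filter.1 hp).1).1) (by positivity)
  have b3 : ‖∑ p ∈ box (B * Z) (B * Z), I p * TT k G (Phi K φ) Z p‖ ≤ ε / 3 * Z ^ 2 := by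
    simp only [hI, sum_mul, ite_mul, one_mul, zero_mul]
    rw [sum_comm]
    refine (norm_sum_le _ _).trans ((sum_le_sum fun U hU => (le_of_eq ?_).trans
      (main_U h hj hP1 (mem_powerset.1 hU) hG hZ)).trans ?_)
    · rw [sum_comm]
      congr 1
      refine sum_congr rfl fun A hA => ?_
      have hA0 := pr_pos fun p hp => (hP1 p (mem_powerset.1 hU (mem_powerset.1 hA hp))).1
      have hA1 : 0 < pr (U \ A) := pr_pos fun p hp => (hP1 p (mem_powerset.1 hU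
        (sdiff_subset hp))).1
      rw [sum_reidx _ (box (B * Z) (B * Z)) (e := fun q => (pr A * q.1, pr (U \ A) * q.2))]
      · refine sum_congr rfl fun q _ => if_congr ?_ rfl rfl
        simp only [cond, dvd_mul_right, true_and, Nat.mul_div_cancel_left _ hA0,
          Nat.mul_div_cancel_left _ hA1]
      · intro q q' hq
        simp only [Prod.mk.injEq] at hq
        exact Prod.ext (Nat.eq_of_mul_eq_mul_left hA0 hq.1) (Nat.eq_of_mul_eq_mul_left hA1 hq.2)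
      · intro p hp
        split_ifs at hp with hc
        swap
        · exact absurd rfl hp
        have a1 := TT_supp hG0 h.r0 (fun u v => Phi_supp h hj.supp) hZ0 hp
        obtain ⟨⟨a2, a3⟩, a4, a5⟩ := mem_box.1 a1
        refine ⟨a1, (p.1 / pr A, p.2 / pr (U \ A)), mem_box.2 ⟨⟨Nat.div_pos
          (Nat.le_of_dvd a2 hc.1.1) hA0, le_trans ?_ a3⟩, Nat.div_pos (Nat.le_of_dvd a4 hc.2.1) hA1,
          le_trans ?_ a5⟩, Prod.ext (Nat.mul_div_cancel' hc.1.1) (Nat.mul_div_cancel' hc.2.1)⟩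
        · exact_mod_cast Nat.div_le_self _ _
        · exact_mod_cast Nat.div_le_self _ _
    · refine le_trans (le_of_eq ?_) (mul_le_mul_of_nonneg_right hQ (sq_nonneg Z))
      simp only [DD, mul_sum, sum_mul]
      rw [sum_comm]
      exact sum_congr rfl fun _ _ => sum_congr rfl fun _ _ => by ring
  have b4 : 2 * min 1 (ε / (6 * B ^ 2)) * (B * Z * (B * Z)) ≤ ε / 3 * Z ^ 2 := by
    calc _ ≤ 2 * (ε / (6 * B ^ 2)) * (B * Z * (B * Z)) := by gcongr; exact min_le_right _ _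
      _ = _ := by field_simp; ring
  have b5 := mul_le_mul_of_nonneg_right hQ2 (sq_nonneg Z)
  refine (norm_add₃_le).trans ?_
  nlinarith

/-- Windows. -/
structure Adm (H : ℝ → ℝ → ℂ) (a b : ℝ) : Prop where
  a0 : 0 < a
  cont : Continuous fun p : ℝ × ℝ => H p.1 p.2
  supp : ∀ s t, H s t ≠ 0 → (a ≤ s ∧ s ≤ b) ∧ a ≤ t ∧ t ≤ b

/-- The normalised sum over congruent pairs. -/
noncomputable def BB (k : ℕ) (G : ℕ → ℂ) (H : ℝ → ℝ → ℂ) (Z : ℝ) : ℂ :=
  ((Z : ℂ) ^ 2)⁻¹ * ∑' p : ℕ × ℕ,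
    if p.1 ≡ p.2 [MOD k] then G (p.1 * p.2) * H (p.1 / Z) (p.2 / Z) else 0

lemma Adm.bdd {H : ℝ → ℝ → ℂ} {a b : ℝ} (h : Adm H a b) : ∃ M, 0 ≤ M ∧ ∀ s t, ‖H s t‖ ≤ M := by
  obtain ⟨M, hM⟩ := ((isCompact_Icc (a := a) (b := b)).prod
    (isCompact_Icc (a := a) (b := b))).exists_bound_of_continuousOn h.cont.continuousOn
  refine ⟨max M 0, le_max_right _ _, fun s t => ?_⟩
  by_cases h0 : H s t = 0
  · simp [h0]
  · exact le_max_of_le_left (hM (s, t) (h.supp s t h0))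

theorem tvp {k : ℕ} (hk : 1 ≤ k) {H : ℝ → ℝ → ℂ} {a b : ℝ} (h : Adm H a b) {l : ℝ} (hl : 0 < l)
    {ε : ℝ} (hε : 0 < ε) : ∀ᶠ Z : ℝ in atTop, ∀ G : ℕ → ℂ, (∀ n, ‖G n‖ ≤ 1) → G 0 = 0 →
      ‖BB k G (fun s t => H (l * s) (t / l)) Z - BB k G H Z‖ ≤ ε := by
  obtain ⟨M, -, hM⟩ := h.bdd
  set r := |Real.log a| + |Real.log b| with hr
  have hr0 : 0 ≤ r := by positivity
  have h1 : ∀ u, a ≤ Real.exp u ∧ Real.exp u ≤ b → |u| ≤ r := fun u hu => by
    have a1 := Real.log_le_log h.a0 hu.1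
    have a2 := Real.log_le_log (Real.exp_pos _) hu.2
    rw [Real.log_exp] at a1 a2
    rw [abs_le]
    constructor <;> linarith [neg_abs_le (Real.log a), le_abs_self (Real.log b),
      abs_nonneg (Real.log a), abs_nonneg (Real.log b)]
  set K : ℝ → ℝ → ℂ := fun u v => H (Real.exp u) (Real.exp (v - u)) with hK
  have hKad : Kad K (2 * r) M := by
    refine ⟨h.cont.comp (f := fun p : ℝ × ℝ => (Real.exp p.1, Real.exp (p.2 - p.1)))
      (by fun_prop), fun u v h0 => ?_, fun u v => hM _ _, by positivity⟩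
    have a1 := h1 _ (h.supp _ _ h0).1
    have a2 := h1 _ (h.supp _ _ h0).2
    have a3 := abs_add_le (v - u) u
    rw [sub_add_cancel] at a3
    constructor <;> linarith
  filter_upwards [tvp0 hk hKad (Real.log l) hε, eventually_gt_atTop 0] with Z hZ hZ0 G hG hG0
  have e1 : ∀ m : ℝ, 0 < m → |Real.log m| ≤ 1 + |Real.log l| →
      BB k G (fun s t => H (m * s) (t / m)) Z = ((Z : ℂ) ^ 2)⁻¹ *
      ∑ p ∈ box (Real.exp (2 * (2 * r) + (1 + |Real.log l|)) * Z)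
        (Real.exp (2 * (2 * r) + (1 + |Real.log l|)) * Z),
        TT k G (fun u v => K (u + Real.log m) v) Z p := by
    intro m hm hml
    rw [BB, ← tsum_eq_sum (L := SummationFilter.unconditional _) fun p hp => ?_]
    · congr 1
      refine tsum_congr fun p => if_congr Iff.rfl ?_ rfl
      by_cases h0 : p.1 * p.2 = 0
      · rw [h0, hG0, zero_mul, zero_mul]
      have h3 : (0 : ℝ) < p.1 := by exact_mod_cast Nat.pos_of_ne_zero (left_ne_zero_of_mul h0)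
      have h4 : (0 : ℝ) < p.2 := by exact_mod_cast Nat.pos_of_ne_zero (right_ne_zero_of_mul h0)
      simp only [hK]
      rw [Real.exp_sub, Real.exp_add, Real.exp_log (by positivity), Real.exp_log hm,
        Real.exp_log (by push_cast; positivity)]
      congr 2
      · ring
      · push_cast
        field_simp
    · by_contra h0
      refine hp (TT_supp hG0 hKad.r0 (fun u v huv => ?_) hZ0 h0)
      have a1 := hKad.supp _ _ huv
      have a2 := abs_sub (u + Real.log m) (Real.log m)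
      rw [add_sub_cancel_right] at a2
      exact ⟨by linarith [a1.1], a1.2⟩
  have e2 := e1 1 one_pos (by rw [Real.log_one, abs_zero]; positivity)
  simp only [one_mul, div_one, Real.log_one, add_zero] at e2
  rw [e1 l hl (by linarith), e2, ← mul_sub, ← sum_sub_distrib, norm_mul, norm_inv, norm_pow,
    Complex.norm_real, Real.norm_of_nonneg hZ0.le, inv_mul_le_iff₀ (by positivity), mul_comm _ ε]
  refine le_trans (le_of_eq ?_) (hZ G hG hG0)
  congr 1
  refine sum_congr rfl fun p _ => ?_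
  unfold TT
  split_ifs <;> ring

end Pool.Agent.P.MP_26a8c3_nt.Inf
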